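import Pool.Agent.Lib.MP_c24d14_lc.Defs

/-!
# Basic facts on oscillations and `AC_*`
-/

open Set MeasureTheory Filter Topology

namespace Pool.Agent.MP_c24d14

lemma osc_nonneg (F : ℝ → ℝ) (c d : ℝ) : 0 ≤ osc F c d :=
  Real.sSup_nonneg (by rintro _ ⟨x, _, y, _, rfl⟩; exact abs_nonneg _)

lemma osc_le {F : ℝ → ℝ} {c d C : ℝ} (hC : 0 ≤ C)
    (h : ∀ x ∈ Icc c d, ∀ y ∈ Icc c d, |F x - F y| ≤ C) : osc F c d ≤ C :=
  Real.sSup_le (by rintro _ ⟨x, hx, y, hy, rfl⟩; exact h x hx y hy) hC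

lemma exists_osc_bound {F : ℝ → ℝ} {c d : ℝ} (h : ContinuousOn F (Icc c d)) :
    ∃ C, ∀ x ∈ Icc c d, ∀ y ∈ Icc c d, |F x - F y| ≤ C := by
  obtain ⟨C, hC⟩ := isCompact_Icc.exists_bound_of_continuousOn h
  refine ⟨C + C, fun x hx y hy => ?_⟩
  have h1 := hC x hx
  have h2 := hC y hy
  rw [Real.norm_eq_abs] at h1 h2
  have := abs_sub (F x) (F y)
  linarith

lemma osc_bddAbove {F : ℝ → ℝ} {c d : ℝ} (h : ContinuousOn F (Icc c d)) :
    BddAbove {r : ℝ | ∃ x ∈ Icc c d, ∃ y ∈ Icc c d, r = |F x - F y|} := by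
  obtain ⟨C, hC⟩ := exists_osc_bound h
  refine ⟨C, ?_⟩
  rintro _ ⟨x, hx, y, hy, rfl⟩
  exact hC x hx y hy

lemma abs_sub_le_osc {F : ℝ → ℝ} {c d : ℝ} (h : ContinuousOn F (Icc c d)) {x y : ℝ}
    (hx : x ∈ Icc c d) (hy : y ∈ Icc c d) : |F x - F y| ≤ osc F c d :=
  le_csSup (osc_bddAbove h) ⟨x, hx, y, hy, rfl⟩

lemma osc_mono {F : ℝ → ℝ} {c d c' d' : ℝ} (h : ContinuousOn F (Icc c d)) (hc : c ≤ c')
    (hd : d' ≤ d) : osc F c' d' ≤ osc F c d :=
  osc_le (osc_nonneg _ _ _) fun _ hx _ hy =>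
    abs_sub_le_osc h ⟨hc.trans hx.1, hx.2.trans hd⟩ ⟨hc.trans hy.1, hy.2.trans hd⟩

lemma osc_self (F : ℝ → ℝ) (c : ℝ) : osc F c c = 0 := by
  apply le_antisymm _ (osc_nonneg _ _ _)
  apply osc_le le_rfl
  intro x hx y hy
  rw [Icc_self] at hx hy
  rw [mem_singleton_iff] at hx hy
  simp [hx, hy]

lemma osc_congr {F G : ℝ → ℝ} {c d C : ℝ} (h : ∀ x ∈ Icc c d, F x - G x = C) :
    osc F c d = osc G c d := by
  unfold osc
  congr 1
  ext r
  constructor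
  · rintro ⟨x, hx, y, hy, rfl⟩
    refine ⟨x, hx, y, hy, ?_⟩
    have h1 := h x hx
    have h2 := h y hy
    congr 1; linarith
  · rintro ⟨x, hx, y, hy, rfl⟩
    refine ⟨x, hx, y, hy, ?_⟩
    have h1 := h x hx
    have h2 := h y hy
    congr 1; linarith

lemma osc_add_le {F G : ℝ → ℝ} {c d : ℝ} (hF : ContinuousOn F (Icc c d))
    (hG : ContinuousOn G (Icc c d)) :
    osc (fun x => F x + G x) c d ≤ osc F c d + osc G c d := by
  refine osc_le (add_nonneg (osc_nonneg _ _ _) (osc_nonneg _ _ _)) fun x hx y hy => ?_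
  have h1 := abs_sub_le_osc hF hx hy
  have h2 := abs_sub_le_osc hG hx hy
  calc |F x + G x - (F y + G y)| = |(F x - F y) + (G x - G y)| := by ring_nf
    _ ≤ |F x - F y| + |G x - G y| := abs_add_le _ _
    _ ≤ _ := add_le_add h1 h2

lemma osc_sub_le {F G : ℝ → ℝ} {c d : ℝ} (hF : ContinuousOn F (Icc c d))
    (hG : ContinuousOn G (Icc c d)) :
    osc (fun x => F x - G x) c d ≤ osc F c d + osc G c d := by
  refine osc_le (add_nonneg (osc_nonneg _ _ _) (osc_nonneg _ _ _)) fun x hx y hy => ?_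
  have h1 := abs_sub_le_osc hF hx hy
  have h2 := abs_sub_le_osc hG hx hy
  calc |F x - G x - (F y - G y)| = |(F x - F y) - (G x - G y)| := by ring_nf
    _ ≤ |F x - F y| + |G x - G y| := abs_sub _ _
    _ ≤ _ := add_le_add h1 h2

/-- An indexed family of non-overlapping intervals `[u i, v i]` with endpoints in `K`. -/
def Fam (K : Set ℝ) {ι : Type} (s : Finset ι) (u v : ι → ℝ) : Prop :=
  (∀ i ∈ s, u i ∈ K ∧ v i ∈ K ∧ u i ≤ v i) ∧
    ∀ i ∈ s, ∀ j ∈ s, i ≠ j → v i ≤ u j ∨ v j ≤ u i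

lemma Fam.mono {K L : Set ℝ} (hKL : K ⊆ L) {ι : Type} {s t : Finset ι} {u v : ι → ℝ}
    (h : Fam K s u v) (hts : t ⊆ s) : Fam L t u v :=
  ⟨fun i hi => ⟨hKL (h.1 i (hts hi)).1, hKL (h.1 i (hts hi)).2.1, (h.1 i (hts hi)).2.2⟩,
    fun i hi j hj => h.2 i (hts hi) j (hts hj)⟩

lemma ACStar.indexed {F : ℝ → ℝ} {K : Set ℝ} (h : ACStar F K) {ε : ℝ} (hε : 0 < ε) :
    ∃ δ : ℝ, 0 < δ ∧ ∀ (ι : Type) (s : Finset ι) (u v : ι → ℝ), Fam K s u v →
      ∑ i ∈ s, (v i - u i) < δ → ∑ i ∈ s, osc F (u i) (v i) < ε := by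
  classical
  obtain ⟨δ, hδ, H⟩ := h ε hε
  refine ⟨δ, hδ, fun ι s u v hf hs => ?_⟩
  set s' := s.filter (fun i => u i < v i) with hs'
  have hinj : ∀ i ∈ s', ∀ j ∈ s', (u i, v i) = (u j, v j) → i = j := by
    intro i hi j hj hij
    by_contra hne
    rw [Finset.mem_filter] at hi hj
    have e1 : u i = u j := congrArg Prod.fst hij
    have e2 : v i = v j := congrArg Prod.snd hij
    rcases hf.2 i hi.1 j hj.1 hne with h1 | h1
    · have := hi.2; linarith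
    · have := hi.2; linarith
  have hsum1 : ∑ i ∈ s', (v i - u i) = ∑ i ∈ s, (v i - u i) := by
    rw [hs', Finset.sum_filter]
    refine Finset.sum_congr rfl fun i hi => ?_
    by_cases hlt : u i < v i
    · simp [hlt]
    · have := (hf.1 i hi).2.2
      have : u i = v i := le_antisymm this (not_lt.mp hlt)
      simp [this]
  have hsum2 : ∑ i ∈ s', osc F (u i) (v i) = ∑ i ∈ s, osc F (u i) (v i) := by
    rw [hs', Finset.sum_filter]
    refine Finset.sum_congr rfl fun i hi => ?_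
    by_cases hlt : u i < v i
    · simp [hlt]
    · have := (hf.1 i hi).2.2
      have : u i = v i := le_antisymm this (not_lt.mp hlt)
      simp [this, osc_self]
  by_cases hne : s'.Nonempty
  · have := H (s'.image fun i => (u i, v i)) ?_ ?_
    · rw [Finset.sum_image hinj] at this
      rw [← hsum2]; exact this
    · refine ⟨hne.image _, ?_, ?_⟩
      · intro J hJ
        obtain ⟨i, hi, rfl⟩ := Finset.mem_image.mp hJ
        rw [Finset.mem_filter] at hi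
        exact ⟨(hf.1 i hi.1).1, (hf.1 i hi.1).2.1, hi.2⟩
      · intro J hJ L hL hJL
        obtain ⟨i, hi, rfl⟩ := Finset.mem_image.mp hJ
        obtain ⟨j, hj, rfl⟩ := Finset.mem_image.mp hL
        rw [Finset.mem_filter] at hi hj
        exact hf.2 i hi.1 j hj.1 (fun e => hJL (by rw [e]))
    · rw [Finset.sum_image hinj, hsum1]; exact hs
  · rw [Finset.not_nonempty_iff_eq_empty] at hne
    rw [← hsum2, hne]; simpa using hε

/-- The indexed form implies `AC_*`. -/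
lemma ACStar.of_indexed {F : ℝ → ℝ} {K : Set ℝ}
    (h : ∀ ε : ℝ, 0 < ε → ∃ δ : ℝ, 0 < δ ∧ ∀ (s : Finset (ℝ × ℝ)),
      Fam K s Prod.fst Prod.snd → ∑ J ∈ s, (J.2 - J.1) < δ → ∑ J ∈ s, osc F J.1 J.2 < ε) :
    ACStar F K := by
  intro ε hε
  obtain ⟨δ, hδ, H⟩ := h ε hε
  exact ⟨δ, hδ, fun D hD hs => H D ⟨fun J hJ => ⟨(hD.2.1 J hJ).1, (hD.2.1 J hJ).2.1,
    (hD.2.1 J hJ).2.2.le⟩, hD.2.2⟩ hs⟩

lemma ACStar.mono {F : ℝ → ℝ} {K L : Set ℝ} (h : ACStar F L) (hKL : K ⊆ L) : ACStar F K := by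
  intro ε hε
  obtain ⟨δ, hδ, H⟩ := h ε hε
  exact ⟨δ, hδ, fun D hD hs => H D ⟨hD.1, fun J hJ => ⟨hKL (hD.2.1 J hJ).1,
    hKL (hD.2.1 J hJ).2.1, (hD.2.1 J hJ).2.2⟩, hD.2.2⟩ hs⟩

lemma ACStar.congr {F G : ℝ → ℝ} {K : Set ℝ} {c d C : ℝ} (h : ACStar F K) (hK : K ⊆ Icc c d)
    (hFG : ∀ x ∈ Icc c d, F x - G x = C) : ACStar G K := by
  intro ε hε
  obtain ⟨δ, hδ, H⟩ := h ε hε
  refine ⟨δ, hδ, fun D hD hs => ?_⟩
  refine lt_of_eq_of_lt (Finset.sum_congr rfl fun J hJ => ?_) (H D hD hs)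
  refine (osc_congr (C := C) fun x hx => ?_).symm
  have h1 := hK (hD.2.1 J hJ).1
  have h2 := hK (hD.2.1 J hJ).2.1
  exact hFG x ⟨h1.1.trans hx.1, hx.2.trans h2.2⟩

lemma ACStar.empty (F : ℝ → ℝ) : ACStar F ∅ := by
  intro ε hε
  refine ⟨1, one_pos, fun D hD _ => ?_⟩
  obtain ⟨J, hJ⟩ := hD.1
  exact absurd (hD.2.1 J hJ).1 (notMem_empty _)

lemma ACStar.singleton (F : ℝ → ℝ) (x : ℝ) : ACStar F {x} := by
  intro ε hε
  refine ⟨1, one_pos, fun D hD _ => ?_⟩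
  obtain ⟨J, hJ⟩ := hD.1
  obtain ⟨h1, h2, h3⟩ := hD.2.1 J hJ
  rw [mem_singleton_iff] at h1 h2
  rw [h1, h2] at h3
  exact absurd h3 (lt_irrefl _)

lemma ACStar.sub {F G : ℝ → ℝ} {K : Set ℝ} {c d : ℝ} (hF : ACStar F K) (hG : ACStar G K)
    (hK : K ⊆ Icc c d) (hFc : ContinuousOn F (Icc c d)) (hGc : ContinuousOn G (Icc c d)) :
    ACStar (fun x => F x - G x) K := by
  intro ε hε
  obtain ⟨δ₁, hδ₁, H₁⟩ := hF (ε / 2) (by positivity)
  obtain ⟨δ₂, hδ₂, H₂⟩ := hG (ε / 2) (by positivity)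
  refine ⟨min δ₁ δ₂, lt_min hδ₁ hδ₂, fun D hD hs => ?_⟩
  have h1 := H₁ D hD (hs.trans_le (min_le_left _ _))
  have h2 := H₂ D hD (hs.trans_le (min_le_right _ _))
  calc ∑ J ∈ D, osc (fun x => F x - G x) J.1 J.2
      ≤ ∑ J ∈ D, (osc F J.1 J.2 + osc G J.1 J.2) := by
        refine Finset.sum_le_sum fun J hJ => ?_
        have k1 := hK (hD.2.1 J hJ).1
        have k2 := hK (hD.2.1 J hJ).2.1
        have hsub : Icc J.1 J.2 ⊆ Icc c d := Icc_subset_Icc k1.1 k2.2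
        exact osc_sub_le (hFc.mono hsub) (hGc.mono hsub)
    _ = ∑ J ∈ D, osc F J.1 J.2 + ∑ J ∈ D, osc G J.1 J.2 := Finset.sum_add_distrib
    _ < ε := by linarith

lemma ACStar.add {F G : ℝ → ℝ} {K : Set ℝ} {c d : ℝ} (hF : ACStar F K) (hG : ACStar G K)
    (hK : K ⊆ Icc c d) (hFc : ContinuousOn F (Icc c d)) (hGc : ContinuousOn G (Icc c d)) :
    ACStar (fun x => F x + G x) K := by
  intro ε hε
  obtain ⟨δ₁, hδ₁, H₁⟩ := hF (ε / 2) (by positivity)
  obtain ⟨δ₂, hδ₂, H₂⟩ := hG (ε / 2) (by positivity)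
  refine ⟨min δ₁ δ₂, lt_min hδ₁ hδ₂, fun D hD hs => ?_⟩
  have h1 := H₁ D hD (hs.trans_le (min_le_left _ _))
  have h2 := H₂ D hD (hs.trans_le (min_le_right _ _))
  calc ∑ J ∈ D, osc (fun x => F x + G x) J.1 J.2
      ≤ ∑ J ∈ D, (osc F J.1 J.2 + osc G J.1 J.2) := by
        refine Finset.sum_le_sum fun J hJ => ?_
        have k1 := hK (hD.2.1 J hJ).1
        have k2 := hK (hD.2.1 J hJ).2.1
        have hsub : Icc J.1 J.2 ⊆ Icc c d := Icc_subset_Icc k1.1 k2.2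
        exact osc_add_le (hFc.mono hsub) (hGc.mono hsub)
    _ = ∑ J ∈ D, osc F J.1 J.2 + ∑ J ∈ D, osc G J.1 J.2 := Finset.sum_add_distrib
    _ < ε := by linarith

/-! ### Lengths of non-overlapping families -/

lemma Fam.disjoint_Ioo {K : Set ℝ} {ι : Type} {s : Finset ι} {u v : ι → ℝ} (h : Fam K s u v) :
    (s : Set ι).PairwiseDisjoint fun i => Ioo (u i) (v i) := by
  intro i hi j hj hij
  rw [Function.onFun, Set.disjoint_left]
  rintro x ⟨h1, h2⟩ ⟨h3, h4⟩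
  rcases h.2 i hi j hj hij with h' | h' <;> linarith

lemma Fam.sum_length_le {K : Set ℝ} {ι : Type} {s : Finset ι} {u v : ι → ℝ} {c d : ℝ}
    (h : Fam K s u v) (hK : K ⊆ Icc c d) (hcd : c ≤ d) : ∑ i ∈ s, (v i - u i) ≤ d - c := by
  have h1 : volume (⋃ i ∈ s, Ioo (u i) (v i)) = ∑ i ∈ s, volume (Ioo (u i) (v i)) :=
    measure_biUnion_finset h.disjoint_Ioo fun i _ => measurableSet_Ioo
  have h2 : volume (⋃ i ∈ s, Ioo (u i) (v i)) ≤ volume (Icc c d) := by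
    refine measure_mono ?_
    refine iUnion₂_subset fun i hi x hx => ?_
    exact ⟨(hK (h.1 i hi).1).1.trans hx.1.le, hx.2.le.trans (hK (h.1 i hi).2.1).2⟩
  rw [h1, Real.volume_Icc] at h2
  simp only [Real.volume_Ioo] at h2
  rw [← ENNReal.ofReal_sum_of_nonneg (fun i hi => sub_nonneg.mpr (h.1 i hi).2.2)] at h2
  exact (ENNReal.ofReal_le_ofReal_iff (by linarith)).mp h2

lemma greedy_exists {ι : Type} (w : ι → ℝ) {δ : ℝ} (hδ : 0 < δ) (s : Finset ι)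
    (hw : ∀ i ∈ s, w i < δ / 2) (hs : δ / 2 ≤ ∑ i ∈ s, w i) :
    ∃ t ⊆ s, δ / 2 ≤ ∑ i ∈ t, w i ∧ ∑ i ∈ t, w i < δ := by
  classical
  induction s using Finset.induction_on with
  | empty =>
    simp at hs; linarith
  | insert i s hi ih =>
    by_cases h : δ / 2 ≤ ∑ i ∈ s, w i
    · obtain ⟨t, ht, h1, h2⟩ := ih (fun j hj => hw j (Finset.mem_insert_of_mem hj)) h
      exact ⟨t, ht.trans (Finset.subset_insert _ _), h1, h2⟩
    · refine ⟨insert i s, Finset.Subset.refl _, hs, ?_⟩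
      rw [Finset.sum_insert hi]
      have := hw i (Finset.mem_insert_self _ _)
      linarith

lemma greedy_bound {ι : Type} (w o : ι → ℝ) {δ : ℝ} (hδ : 0 < δ) (s : Finset ι)
    (hw : ∀ i ∈ s, w i < δ / 2)
    (h : ∀ t ⊆ s, ∑ i ∈ t, w i < δ → ∑ i ∈ t, o i ≤ 1) (hw0 : ∀ i ∈ s, 0 ≤ w i) :
    ∑ i ∈ s, o i ≤ 1 + (2 / δ) * ∑ i ∈ s, w i := by
  classical
  induction s using Finset.strongInduction with
  | H s ih =>
    by_cases hs : ∑ i ∈ s, w i < δ
    · have h1 := h s (Finset.Subset.refl _) hs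
      have h2 : 0 ≤ (2 / δ) * ∑ i ∈ s, w i :=
        mul_nonneg (by positivity) (Finset.sum_nonneg hw0)
      linarith
    · have hs' : δ / 2 ≤ ∑ i ∈ s, w i := by linarith
      obtain ⟨t, ht, h1, h2⟩ := greedy_exists w hδ s hw hs'
      have htne : t.Nonempty := by
        rw [Finset.nonempty_iff_ne_empty]
        rintro rfl
        simp at h1; linarith
      have hlt : s \ t ⊂ s := Finset.sdiff_ssubset ht htne
      have h3 := ih (s \ t) hlt (fun i hi => hw i (Finset.sdiff_subset hi))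
        (fun r hr => h r (hr.trans Finset.sdiff_subset))
        (fun i hi => hw0 i (Finset.sdiff_subset hi))
      have h4 := h t ht h2
      have h5 : ∑ i ∈ s, o i = ∑ i ∈ s \ t, o i + ∑ i ∈ t, o i := (Finset.sum_sdiff ht).symm
      have h6 : ∑ i ∈ s, w i = ∑ i ∈ s \ t, w i + ∑ i ∈ t, w i := (Finset.sum_sdiff ht).symm
      have h7 : 1 ≤ (2 / δ) * ∑ i ∈ t, w i := by
        calc (1 : ℝ) = (2 / δ) * (δ / 2) := by field_simp
          _ ≤ _ := mul_le_mul_of_nonneg_left h1 (by positivity)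
      rw [h5, h6, mul_add]
      linarith

/-- `AC_*(K)` implies `VB_*(K)`. -/
lemma ACStar.bounded {F : ℝ → ℝ} {K : Set ℝ} {c d : ℝ} (h : ACStar F K) (hcd : c ≤ d)
    (hK : K ⊆ Icc c d) (hF : ContinuousOn F (Icc c d)) :
    ∃ V : ℝ, 0 ≤ V ∧ ∀ (ι : Type) (s : Finset ι) (u v : ι → ℝ), Fam K s u v →
      ∑ i ∈ s, osc F (u i) (v i) ≤ V := by
  classical
  obtain ⟨δ, hδ, H⟩ := h.indexed one_pos
  have hV1 : 0 ≤ (2 / δ) * (d - c) := mul_nonneg (by positivity) (by linarith)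
  refine ⟨(2 / δ) * (d - c) * osc F c d + (1 + (2 / δ) * (d - c)), ?_, ?_⟩
  · have := mul_nonneg hV1 (osc_nonneg F c d)
    linarith
  · intro ι s u v hf
    have hlen : ∀ t ⊆ s, ∑ i ∈ t, (v i - u i) ≤ d - c := fun t ht =>
      (hf.mono subset_rfl ht).sum_length_le hK hcd
    set b := s.filter (fun i => δ / 2 ≤ v i - u i) with hb
    set r := s.filter (fun i => ¬ (δ / 2 ≤ v i - u i)) with hr
    have hbs : b ⊆ s := Finset.filter_subset _ _
    have hrs : r ⊆ s := Finset.filter_subset _ _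
    have hsplit : ∑ i ∈ b, osc F (u i) (v i) + ∑ i ∈ r, osc F (u i) (v i)
        = ∑ i ∈ s, osc F (u i) (v i) := Finset.sum_filter_add_sum_filter_not _ _ _
    rw [← hsplit]
    refine add_le_add ?_ ?_
    · have h1 : ∑ i ∈ b, osc F (u i) (v i) ≤ ∑ i ∈ b, osc F c d := by
        refine Finset.sum_le_sum fun i hi => osc_mono hF (hK (hf.1 i (hbs hi)).1).1
          (hK (hf.1 i (hbs hi)).2.1).2
      have h2 : (b.card : ℝ) * (δ / 2) ≤ d - c := by
        calc (b.card : ℝ) * (δ / 2) = ∑ i ∈ b, (δ / 2) := by simp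
          _ ≤ ∑ i ∈ b, (v i - u i) := Finset.sum_le_sum fun i hi => by
              rw [hb, Finset.mem_filter] at hi; exact hi.2
          _ ≤ d - c := hlen b hbs
      have h3 : (b.card : ℝ) ≤ (2 / δ) * (d - c) := by
        rw [div_mul_eq_mul_div, le_div_iff₀ hδ]; linarith
      calc ∑ i ∈ b, osc F (u i) (v i) ≤ ∑ i ∈ b, osc F c d := h1
        _ = (b.card : ℝ) * osc F c d := by simp
        _ ≤ _ := mul_le_mul_of_nonneg_right h3 (osc_nonneg _ _ _)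
    · have h1 := greedy_bound (fun i => v i - u i) (fun i => osc F (u i) (v i)) hδ r
        (fun i hi => by rw [hr, Finset.mem_filter] at hi; exact not_le.mp hi.2)
        (fun t ht hlt => (H ι t u v (hf.mono subset_rfl (ht.trans hrs)) hlt).le)
        (fun i hi => sub_nonneg.mpr (hf.1 i (hrs hi)).2.2)
      have h2 : (2 / δ) * ∑ i ∈ r, (v i - u i) ≤ (2 / δ) * (d - c) :=
        mul_le_mul_of_nonneg_left (hlen r hrs) (by positivity)
      linarith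

end Pool.Agent.MP_c24d14
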