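import Pool.Agent.Lib.MP_c24d14_lc.Harn

/-!
# Certificates for non-integrability: definition and soundness
-/

open Set MeasureTheory Filter Topology

namespace Pool.Agent.MP_c24d14

/-- `I` misses `K`, or it is well inside an interval that is good for `K`. -/
def Fine (f : ℝ → ℝ) (K : Set ℝ) (Φ : ℚ × ℚ → ℝ) (I : ℚ × ℚ) : Prop :=
  Miss K I ∨ ∃ J : ℚ × ℚ, Good f K Φ J ∧ J.1 < I.1 ∧ I.2 < J.2

/-- `B` resolves `A` (in `J`, with bound `N`). -/
def Res (Φ : ℚ × ℚ → ℝ) (J : ℚ × ℚ) (N : ℕ) (A B : Set ℝ) : Prop :=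
  ∀ S : Finset (ℚ × ℚ), (∀ I ∈ S, Sub J I ∧ Miss A I) → (N : ℝ) < ∑ I ∈ S, |Φ I| →
    ∃ I ∈ S, ∃ L ∈ S, I ≠ L ∧ Miss B (hull I L)

/-- A certificate that `f` is not Denjoy integrable on `[a, b]`: a countable chain of nonempty
closed sets imitating the transfinite Denjoy process up to a stage at which it is stuck. -/
structure Cert (f : ℝ → ℝ) (a b : ℝ) (K : ℕ → Set ℝ) (Φ : ℚ × ℚ → ℝ)
    (s : (ℚ × ℚ) × ℕ × ℕ × ℕ → ℕ) : Prop where
  closed : ∀ i, IsClosed (K i)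
  ne : ∀ i, (K i).Nonempty
  sub : ∀ i, K i ⊆ Icc a b
  chain : ∀ i j, K i ⊆ K j ∨ K j ⊆ K i
  out : ∀ I : ℚ × ℚ, I.1 < I.2 → Miss (Icc a b) I → Φ I = 0
  origin : ∀ i, ∀ I : ℚ × ℚ, I.1 < I.2 → Miss (K i) I → ∃ n : ℕ, ∀ k, k < 2 ^ n →
    (Miss (Icc a b) (piece I n k) ∨
      ∃ j, (K i ⊆ K j ∧ ¬ K j ⊆ K i) ∧ Fine f (K j) Φ (piece I n k))
  formula : ∀ j, ∀ J : ℚ × ℚ, Good f (K j) Φ J → ∀ I : ℚ × ℚ, J.1 < I.1 → I.1 < I.2 →
    I.2 < J.2 → Tendsto (missSum (K j) Φ I) atTop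
      (𝓝 (Φ I - ∫ x in K j ∩ Icc (I.1 : ℝ) I.2, f x))
  stuck : ∃ i, ∀ I : ℚ × ℚ, Fine f (K i) Φ I → Miss (K i) I
  alarge : ∀ J : ℚ × ℚ, ∀ N : ℕ, (∃ j, ABound f (K j) J N) →
    ∃ j, ABound f (K j) J N ∧ ∀ j', ABound f (K j') J N → K j' ⊆ K j
  s0 : ∀ J : ℚ × ℚ, ∀ N i : ℕ, s (J, N, i, 0) = i
  s1 : ∀ J : ℚ × ℚ, ∀ N i k : ℕ,
    (K (s (J, N, i, k + 1)) ⊆ K (s (J, N, i, k)) ∧
      Res Φ J N (K (s (J, N, i, k))) (K (s (J, N, i, k + 1))) ∧
      ∀ j, K j ⊆ K (s (J, N, i, k)) → Res Φ J N (K (s (J, N, i, k))) (K j) →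
        K j ⊆ K (s (J, N, i, k + 1))) ∨
    ∀ j, K j ⊆ K (s (J, N, i, k)) → ¬ Res Φ J N (K (s (J, N, i, k))) (K j)
  lim : ∀ J : ℚ × ℚ, ∀ N i : ℕ, ∃ j, (∀ k, K j ⊆ K (s (J, N, i, k))) ∧
    ∀ I : ℚ × ℚ, Miss (K j) I → ∃ k, Miss (K (s (J, N, i, k))) I
  next : ∀ j, ∃ i, (∀ I : ℚ × ℚ, Fine f (K j) Φ I → Miss (K i) I) ∧
    ∀ I : ℚ × ℚ, I.1 < I.2 → Miss (K i) I → ∃ n : ℕ, ∀ k, k < 2 ^ n →
      Fine f (K j) Φ (piece I n k)
  add : ∀ i, ∀ I : ℚ × ℚ, ∀ r : ℚ, I.1 < r → r < I.2 → Miss (K i) I →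
    Φ I = Φ (I.1, r) + Φ (r, I.2)

/-! ### Congruence and monotonicity -/

lemma CBound.congr {K : Set ℝ} {Φ Ψ : ℚ × ℚ → ℝ} {J : ℚ × ℚ} {N : ℕ}
    (h : ∀ I : ℚ × ℚ, I.1 < I.2 → Miss K I → Φ I = Ψ I) (hC : CBound K Φ J N) :
    CBound K Ψ J N := by
  intro S hS
  have := hC S hS
  rwa [Finset.sum_congr rfl fun I hI => by rw [h I (hS.1 I hI).1.2.1 (hS.1 I hI).2]] at this

lemma UC.congr {K : Set ℝ} {Φ Ψ : ℚ × ℚ → ℝ} {J : ℚ × ℚ}
    (h : ∀ I : ℚ × ℚ, I.1 < I.2 → Miss K I → Φ I = Ψ I) (hC : UC K Φ J) : UC K Ψ J := by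
  intro m
  obtain ⟨l, hl⟩ := hC m
  refine ⟨l, fun I hI hm hlen => ?_⟩
  rw [← h I hI.2.1 hm]
  exact hl I hI hm hlen

lemma Good.congr {f : ℝ → ℝ} {K : Set ℝ} {Φ Ψ : ℚ × ℚ → ℝ} {J : ℚ × ℚ}
    (h : ∀ I : ℚ × ℚ, I.1 < I.2 → Miss K I → Φ I = Ψ I) (hG : Good f K Φ J) :
    Good f K Ψ J := by
  obtain ⟨⟨N, h1, h2⟩, h3⟩ := hG
  exact ⟨⟨N, h1, h2.congr h⟩, h3.congr h⟩

lemma piece_lt {I : ℚ × ℚ} (h : I.1 < I.2) (n k : ℕ) : (piece I n k).1 < (piece I n k).2 := by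
  simp only [piece]
  have : 0 < (I.2 - I.1) / 2 ^ n := div_pos (by linarith) (by positivity)
  push_cast
  linarith

lemma missSum_congr {K : Set ℝ} {Φ Ψ : ℚ × ℚ → ℝ} {I : ℚ × ℚ} (hI : I.1 < I.2)
    (h : ∀ I : ℚ × ℚ, I.1 < I.2 → Miss K I → Φ I = Ψ I) : missSum K Φ I = missSum K Ψ I := by
  funext n
  unfold missSum
  refine Finset.sum_congr rfl fun k _ => ?_
  by_cases hm : Miss K (piece I n k)
  · rw [if_pos hm, if_pos hm, h _ (piece_lt hI n k) hm]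
  · rw [if_neg hm, if_neg hm]

lemma ABound.anti {f : ℝ → ℝ} {K L : Set ℝ} {J : ℚ × ℚ} {N : ℕ} (h : ABound f L J N)
    (hKL : K ⊆ L) : ABound f K J N :=
  (lintegral_mono_set (inter_subset_inter_left _ hKL)).trans h

lemma ABound.mono {f : ℝ → ℝ} {K : Set ℝ} {J : ℚ × ℚ} {N M : ℕ} (h : ABound f K J N)
    (hNM : N ≤ M) : ABound f K J M :=
  le_trans h (by exact_mod_cast hNM)

lemma CBound.mono {K : Set ℝ} {Φ : ℚ × ℚ → ℝ} {J : ℚ × ℚ} {N M : ℕ} (h : CBound K Φ J N)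
    (hNM : N ≤ M) : CBound K Φ J M :=
  fun S hS => (h S hS).trans (by exact_mod_cast hNM)

lemma UC.anti {K L : Set ℝ} {Φ : ℚ × ℚ → ℝ} {J : ℚ × ℚ} (h : UC K Φ J) (hKL : K ⊆ L) :
    UC L Φ J := by
  intro m
  obtain ⟨l, hl⟩ := h m
  exact ⟨l, fun I hI hm hlen => hl I hI (hm.anti hKL) hlen⟩

/-! ### Additivity over the pieces -/

lemma sum_pieces (Ψ : ℚ × ℚ → ℝ) {I : ℚ × ℚ} (hI : I.1 < I.2)
    (hadd : ∀ x r y : ℚ, I.1 ≤ x → x < r → r < y → y ≤ I.2 → Ψ (x, y) = Ψ (x, r) + Ψ (r, y))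
    (n : ℕ) : Ψ I = ∑ k ∈ Finset.range (2 ^ n), Ψ (piece I n k) := by
  set δ : ℚ := (I.2 - I.1) / 2 ^ n with hδ
  have hδ0 : 0 < δ := div_pos (by linarith) (by positivity)
  set r : ℕ → ℚ := fun k => I.1 + k * δ with hr
  have hpiece : ∀ k, piece I n k = (r k, r (k + 1)) := fun k => rfl
  have hr0 : r 0 = I.1 := by simp [hr]
  have hrn : r (2 ^ n) = I.2 := by
    simp only [hr, hδ]; push_cast; field_simp; ring
  have hmono : StrictMono r := by
    refine strictMono_nat_of_lt_succ fun k => ?_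
    simp only [hr]; push_cast; linarith
  have key : ∀ m : ℕ, m + 1 ≤ 2 ^ n →
      Ψ (I.1, r (m + 1)) = ∑ k ∈ Finset.range (m + 1), Ψ (piece I n k) := by
    intro m
    induction m with
    | zero =>
      intro _
      rw [Finset.sum_range_one, hpiece, hr0]
    | succ m ih =>
      intro hm
      rw [Finset.sum_range_succ, ← ih (by omega), hpiece]
      refine hadd _ _ _ le_rfl ?_ (hmono (Nat.lt_succ_self _)) ?_
      · rw [← hr0]; exact hmono (by omega)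
      · rw [← hrn]; exact hmono.monotone hm
  have h1 : 1 ≤ 2 ^ n := Nat.one_le_two_pow
  obtain ⟨m, hm⟩ := Nat.exists_eq_add_of_le' h1
  have := key m (by omega)
  rw [← hm, hrn] at this
  exact this

/-! ### Functions vanishing outside `[a, b]` -/

lemma denOn_all {f : ℝ → ℝ} {a b : ℝ} (hf0 : ∀ x, x ∉ Icc a b → f x = 0) (h : DenOn f a b)
    (x y : ℝ) : DenOn f x y := by
  rcases le_or_gt y x with hxy | hxy
  · exact ⟨fun _ => 0, Prim_degenerate hxy⟩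
  rcases le_or_gt a b with hab | hab
  · have h1 : DenOn f (min x a) a := ⟨fun _ => 0, Prim_zero (by
      filter_upwards [ae_Ioo (min x a) a] with t ht
      exact hf0 t fun h => absurd h.1 (not_le.mpr ht.2))⟩
    have h2 : DenOn f b (max y b) := ⟨fun _ => 0, Prim_zero (by
      filter_upwards [ae_Ioo b (max y b)] with t ht
      exact hf0 t fun h => absurd h.2 (not_le.mpr ht.1))⟩
    have h3 := (h1.glue (min_le_right _ _) hab h).glue
      ((min_le_right _ _).trans hab) (le_max_right _ _) h2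
    exact h3.restrict (min_le_left _ _) (le_max_left _ _)
  · refine ⟨fun _ => 0, Prim_zero (Eventually.of_forall fun t => hf0 t ?_)⟩
    rw [Icc_eq_empty (not_le.mpr hab)]; exact notMem_empty _

lemma DI_out {f : ℝ → ℝ} {a b : ℝ} (hf0 : ∀ x, x ∉ Icc a b → f x = 0) {I : ℚ × ℚ}
    (hI : I.1 < I.2) (hm : Miss (Icc a b) I) : DI f I.1 I.2 = 0 := by
  have hI' : (I.1 : ℝ) ≤ I.2 := by exact_mod_cast hI.le
  have : Prim f I.1 I.2 (fun _ => 0) := Prim_zero (by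
    filter_upwards [ae_Ioo (I.1 : ℝ) I.2] with t ht
    exact hf0 t fun h => hm t h ⟨ht.1.le, ht.2.le⟩)
  rw [DI_eq this hI']; ring

/-- The good portion of a closed set, for a Denjoy integrable function. -/
lemma exists_good_portion {f : ℝ → ℝ} {a b : ℝ} (hall : ∀ x y, DenOn f x y) {K : Set ℝ}
    (hK : IsClosed K) (hne : K.Nonempty) (hKs : K ⊆ Icc a b) :
    ∃ J : ℚ × ℚ, (∃ x ∈ K, (J.1 : ℝ) < x ∧ x < J.2) ∧
      (∃ N : ℕ, ABound f K J N ∧ CBound K (fun I => DI f I.1 I.2) J N) ∧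
      UC ∅ (fun I => DI f I.1 I.2) J := by
  obtain ⟨x₀, hx₀⟩ := hne
  have hab : a ≤ b := (hKs hx₀).1.trans (hKs hx₀).2
  obtain ⟨F, hF⟩ := hall (a - 1) (b + 1)
  have hKs' : K ⊆ Ioo (a - 1) (b + 1) := fun x hx =>
    ⟨by linarith [(hKs hx).1], by linarith [(hKs hx).2]⟩
  obtain ⟨p, q, h1, h2, h3, hx, hAC⟩ := hF.1.exists_portion hK ⟨x₀, hx₀⟩ hKs'
  have hcd : a - 1 ≤ b + 1 := by linarith
  have hpq : (p : ℝ) < q := by exact_mod_cast h2
  have hDI : ∀ I : ℚ × ℚ, Sub (p, q) I → DI f I.1 I.2 = F I.2 - F I.1 := by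
    intro I hI
    have e1 : (p : ℝ) ≤ I.1 := by exact_mod_cast hI.1
    have e2 : (I.1 : ℝ) ≤ I.2 := by exact_mod_cast hI.2.1.le
    have e3 : (I.2 : ℝ) ≤ q := by exact_mod_cast hI.2.2
    exact hF.DI_eq (h1.le.trans e1) e2 (e3.trans h3.le)
  obtain ⟨N, hN⟩ := CBound_of_ACStar (J := (p, q)) hcd hK hF.continuousOn h1.le h3.le hAC
  have hint : IntegrableOn f (K ∩ Icc (p : ℝ) q) :=
    integrableOn_of_ACStar hcd (hK.inter isClosed_Icc)
      (inter_subset_left.trans (hKs'.trans Ioo_subset_Icc_self)) hF.continuousOn hAC hF.2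
  obtain ⟨M, hM⟩ := ENNReal.exists_nat_gt (r := ∫⁻ x in K ∩ Icc (p : ℝ) q, ‖f x‖ₑ) hint.2.ne
  have hUC := UC_of_continuousOn (K := ∅) (J := (p, q)) hF.continuousOn h1.le h3.le
  refine ⟨(p, q), hx, ⟨max N M, ?_, ?_⟩, ?_⟩
  · exact ABound.mono (N := M) hM.le (le_max_right _ _)
  · refine CBound.mono (N := N) ?_ (le_max_left _ _)
    intro S hS
    refine le_of_eq_of_le (Finset.sum_congr rfl fun I hI => ?_) (hN S hS)
    exact congrArg abs (hDI I (hS.1 I hI).1)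
  · intro m
    obtain ⟨l, hl⟩ := hUC m
    refine ⟨l, fun I hI hm hlen => ?_⟩
    have e := hl I hI hm hlen
    beta_reduce
    rw [hDI I hI]
    exact e

/-- **Soundness of certificates.** -/
theorem Cert.not_denOn {f : ℝ → ℝ} {a b : ℝ} {K : ℕ → Set ℝ} {Φ : ℚ × ℚ → ℝ}
    {s : (ℚ × ℚ) × ℕ × ℕ × ℕ → ℕ} (h : Cert f a b K Φ s) (hf : Measurable f)
    (hf0 : ∀ x, x ∉ Icc a b → f x = 0) : ¬ DenOn f a b := by
  intro hD
  have hall := denOn_all hf0 hD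
  obtain ⟨W, hWdef⟩ : ∃ W : ℕ → Prop, ∀ i, W i ↔ ∀ I : ℚ × ℚ, I.1 < I.2 → Miss (K i) I →
    Φ I = DI f I.1 I.2 := ⟨_, fun _ => Iff.rfl⟩
  have hWup : ∀ i j, W i → K i ⊆ K j → W j := fun i j hi hij =>
    (hWdef j).mpr fun I hI hm => (hWdef i).mp hi I hI (hm.anti hij)
  have hWR : ∀ i j, ¬ W i → W j → K i ⊆ K j := fun i j hi hj =>
    (h.chain i j).resolve_right fun h' => hi (hWup j i hj h')
  -- additivity
  have hDIadd : ∀ I : ℚ × ℚ, I.1 < I.2 → ∀ n, DI f I.1 I.2 =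
      ∑ k ∈ Finset.range (2 ^ n), DI f (piece I n k).1 (piece I n k).2 := by
    intro I hI n
    refine sum_pieces (fun I => DI f I.1 I.2) hI (fun x r y _ h1 h2 _ => ?_) n
    exact (DI_add (by exact_mod_cast h1.le) (by exact_mod_cast h2.le) (hall _ _)).symm
  have hΦadd : ∀ i, ∀ I : ℚ × ℚ, I.1 < I.2 → Miss (K i) I → ∀ n, Φ I =
      ∑ k ∈ Finset.range (2 ^ n), Φ (piece I n k) := by
    intro i I hI hm n
    refine sum_pieces Φ hI (fun x r y h0 h1 h2 h3 => ?_) n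
    refine h.add i (x, y) r h1 h2 fun t ht ht2 => hm t ht ⟨?_, ?_⟩
    · have : (I.1 : ℝ) ≤ x := by exact_mod_cast h0
      exact this.trans ht2.1
    · have : (y : ℝ) ≤ I.2 := by exact_mod_cast h3
      exact ht2.2.trans this
  have hpieces : ∀ i, ∀ I : ℚ × ℚ, I.1 < I.2 → Miss (K i) I → ∀ n,
      (∀ k, k < 2 ^ n → Φ (piece I n k) = DI f (piece I n k).1 (piece I n k).2) →
      Φ I = DI f I.1 I.2 := by
    intro i I hI hm n hk
    rw [hΦadd i I hI hm n, hDIadd I hI n]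
    exact Finset.sum_congr rfl fun k hk' => hk k (Finset.mem_range.mp hk')
  -- propagation of truth
  have hprop : ∀ j, W j → ∀ I : ℚ × ℚ, I.1 < I.2 → Fine f (K j) Φ I → Φ I = DI f I.1 I.2 := by
    intro j hj I hI hFine
    have hj' := (hWdef j).mp hj
    rcases hFine with hm | ⟨J, hG, h1, h2⟩
    · exact hj' I hI hm
    · have hJ : J.1 < J.2 := h1.trans (hI.trans h2)
      have hlim1 := h.formula j J hG I h1 hI h2
      have hlim2 := (harn hf (h.closed j) hJ (fun _ _ _ => hall _ _) (hG.congr hj')).2 I h1 hI h2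
      rw [missSum_congr hI hj'] at hlim1
      have := tendsto_nhds_unique hlim1 hlim2
      linarith
  -- the false part has no largest element
  have hmax : ∀ i, ¬ W i → ∃ j, ¬ W j ∧ ¬ K j ⊆ K i := by
    intro i hi
    by_contra hcon
    push Not at hcon
    apply hi
    rw [hWdef]
    intro I hI hm
    obtain ⟨n, hn⟩ := h.origin i I hI hm
    refine hpieces i I hI hm n fun k hk => ?_
    rcases hn k hk with ho | ⟨j, ⟨_, hj⟩, hFine⟩
    · rw [h.out _ (piece_lt hI n k) ho, DI_out hf0 (piece_lt hI n k) ho]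
    · have hWj : W j := by
        by_contra hWj
        exact hj (hcon j hWj)
      exact hprop j hWj _ (piece_lt hI n k) hFine
  -- a stuck stage is false
  obtain ⟨i0, hi0⟩ := h.stuck
  have hi0W : ¬ W i0 := by
    intro hW
    have hW' := (hWdef i0).mp hW
    obtain ⟨J, ⟨x, hxK, hx1, hx2⟩, ⟨N, hA, hC⟩, hU⟩ :=
      exists_good_portion hall (h.closed i0) (h.ne i0) (h.sub i0)
    have hG : Good f (K i0) Φ J :=
      Good.congr (fun I hI hm => (hW' I hI hm).symm) ⟨⟨N, hA, hC⟩, hU.anti (empty_subset _)⟩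
    obtain ⟨p, hp1, hp2⟩ := exists_rat_btwn hx1
    obtain ⟨q, hq1, hq2⟩ := exists_rat_btwn hx2
    exact hi0 (p, q) (Or.inr ⟨J, hG, by exact_mod_cast hp1, by exact_mod_cast hq2⟩) x hxK
      ⟨hp2.le, hq1.le⟩
  -- the cut
  set KW : Set ℝ := Icc a b ∩ ⋂ i ∈ {i | W i}, K i with hKW
  have hKWc : IsClosed KW := isClosed_Icc.inter (isClosed_biInter fun i _ => h.closed i)
  have hRKW : ∀ i, ¬ W i → K i ⊆ KW := fun i hi =>
    subset_inter (h.sub i) (subset_iInter₂ fun j hj => hWR i j hi hj)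
  have hKWW : ∀ i, W i → KW ⊆ K i := fun i hi => inter_subset_right.trans
    (biInter_subset_of_mem hi)
  have hKWne : KW.Nonempty := (h.ne i0).mono (hRKW i0 hi0W)
  obtain ⟨J, ⟨x, hxK, hx1, hx2⟩, ⟨N, hA, hC⟩, hU⟩ :=
    exists_good_portion hall hKWc hKWne inter_subset_left
  -- an element of `W` with the `A`-bound
  obtain ⟨j0, hj0A, hj0max⟩ := h.alarge J N ⟨i0, hA.anti (hRKW i0 hi0W)⟩
  have hj0W : W j0 := by
    by_contra hcon
    obtain ⟨j, hj, hjn⟩ := hmax j0 hcon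
    exact hjn (hj0max j (hA.anti (hRKW j hj)))
  -- the closing-off sequence
  have hRes : ∀ i, W i → ∀ r, ¬ W r → Res Φ J N (K i) (K r) := by
    intro i hi r hr S hS hsum
    by_contra hcon
    push Not at hcon
    have hsep : Sep KW J S := by
      refine ⟨fun I hI => ⟨(hS I hI).1, (hS I hI).2.anti (hKWW i hi)⟩, fun I hI L hL hne hm => ?_⟩
      exact hcon I hI L hL hne (hm.anti (hRKW r hr))
    have h1 : ∑ I ∈ S, |Φ I| ≤ N := by
      refine le_of_eq_of_le (Finset.sum_congr rfl fun I hI => ?_) (hC S hsep)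
      exact congrArg abs ((hWdef i).mp hi I (hS I hI).1.2.1 (hS I hI).2)
    exact absurd h1 (not_le.mpr hsum)
  have hseq : ∀ k, W (s (J, N, j0, k)) := by
    intro k
    induction k with
    | zero => rw [h.s0]; exact hj0W
    | succ k ih =>
      rcases h.s1 J N j0 k with ⟨_, _, h3⟩ | hnone
      · by_contra hcon
        obtain ⟨j, hj, hjn⟩ := hmax _ hcon
        exact hjn (h3 j (hWR j _ hj ih) (hRes _ ih j hj))
      · exact absurd (hRes _ ih i0 hi0W) (hnone i0 (hWR i0 _ hi0W ih))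
  have hstep : ∀ k, K (s (J, N, j0, k + 1)) ⊆ K (s (J, N, j0, k)) ∧
      Res Φ J N (K (s (J, N, j0, k))) (K (s (J, N, j0, k + 1))) := by
    intro k
    rcases h.s1 J N j0 k with ⟨h1, h2, _⟩ | hnone
    · exact ⟨h1, h2⟩
    · exact absurd (hRes _ (hseq k) i0 hi0W) (hnone i0 (hWR i0 _ hi0W (hseq k)))
  have hanti : Antitone fun k => K (s (J, N, j0, k)) := antitone_nat_of_succ_le fun k => (hstep k).1
  -- the limit
  obtain ⟨j, hj1, hj2⟩ := h.lim J N j0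
  have hjW : W j := by
    rw [hWdef]
    intro I hI hm
    obtain ⟨k, hk⟩ := hj2 I hm
    exact (hWdef _).mp (hseq k) I hI hk
  have hjW' := (hWdef j).mp hjW
  have hjG : Good f (K j) Φ J := by
    refine ⟨⟨N, ?_, ?_⟩, ?_⟩
    · have := hj1 0
      rw [h.s0] at this
      exact hj0A.anti this
    · intro S hS
      by_contra hcon
      rw [not_le] at hcon
      have hex : ∃ k, ∀ I ∈ S, Miss (K (s (J, N, j0, k))) I := by
        have : ∀ T : Finset (ℚ × ℚ), T ⊆ S → ∃ k, ∀ I ∈ T, Miss (K (s (J, N, j0, k))) I := by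
          classical
          intro T
          induction T using Finset.induction_on with
          | empty => intro _; exact ⟨0, by simp⟩
          | insert I T _ ih =>
            intro hT
            obtain ⟨k1, hk1⟩ := ih ((Finset.subset_insert _ _).trans hT)
            obtain ⟨k2, hk2⟩ := hj2 I (hS.1 I (hT (Finset.mem_insert_self _ _))).2
            refine ⟨max k1 k2, fun L hL => ?_⟩
            rcases Finset.mem_insert.mp hL with rfl | hL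
            · exact hk2.anti (hanti (le_max_right _ _))
            · exact (hk1 L hL).anti (hanti (le_max_left _ _))
        exact this S (Finset.Subset.refl _)
      obtain ⟨k, hk⟩ := hex
      obtain ⟨I, hI, L, hL, hne, hm⟩ := (hstep k).2 S (fun I hI => ⟨(hS.1 I hI).1, hk I hI⟩) hcon
      exact hS.2 I hI L hL hne (hm.anti (hj1 (k + 1)))
    · exact UC.congr (fun I hI hm => (hjW' I hI hm).symm) (hU.anti (empty_subset _))
  -- the next stage
  obtain ⟨i, hi1, hi2⟩ := h.next j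
  have hiW : W i := by
    rw [hWdef]
    intro I hI hm
    obtain ⟨n, hn⟩ := hi2 I hI hm
    exact hpieces i I hI hm n fun k hk => hprop j hjW _ (piece_lt hI n k) (hn k hk)
  obtain ⟨p, hp1, hp2⟩ := exists_rat_btwn hx1
  obtain ⟨q, hq1, hq2⟩ := exists_rat_btwn hx2
  exact hi1 (p, q) (Or.inr ⟨J, hjG, by exact_mod_cast hp1, by exact_mod_cast hq2⟩) x
    (hKWW i hiW hxK) ⟨hp2.le, hq1.le⟩

end Pool.Agent.MP_c24d14
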