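import Pool.Agent.Lib.MP_c24d14_lc.Cert

/-!
# Certificates for non-integrability: completeness
-/

open Set MeasureTheory Filter Topology

namespace Pool.Agent.MP_c24d14

/-- The derived set of `K`: the points of `K` in no good interval. -/
def der (f : ℝ → ℝ) (K : Set ℝ) : Set ℝ :=
  {x | x ∈ K ∧ ∀ J : ℚ × ℚ, Good f K (fun I => DI f I.1 I.2) J → ¬ ((J.1 : ℝ) < x ∧ x < J.2)}

/-- The transfinite sequence of closed sets. -/
noncomputable def KO (f : ℝ → ℝ) (a b : ℝ) (α : Ordinal.{0}) : Set ℝ :=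
  {x | x ∈ Icc a b ∧ ∀ β, ∀ _h : β < α, x ∈ der f (KO f a b β)}
termination_by α

lemma mem_KO {f : ℝ → ℝ} {a b : ℝ} {α : Ordinal.{0}} {x : ℝ} :
    x ∈ KO f a b α ↔ x ∈ Icc a b ∧ ∀ β < α, x ∈ der f (KO f a b β) := by
  rw [KO]
  exact Iff.rfl

lemma der_subset (f : ℝ → ℝ) (K : Set ℝ) : der f K ⊆ K := fun _ hx => hx.1

lemma isClosed_der {f : ℝ → ℝ} {K : Set ℝ} (hK : IsClosed K) : IsClosed (der f K) := by
  have : der f K = K ∩ ⋂ J ∈ {J : ℚ × ℚ | Good f K (fun I => DI f I.1 I.2) J},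
      (Ioo (J.1 : ℝ) J.2)ᶜ := by
    ext x
    simp only [der, mem_ofPred_eq, mem_inter_iff, mem_iInter, mem_compl_iff, mem_Ioo]
  rw [this]
  exact hK.inter (isClosed_biInter fun J _ => isOpen_Ioo.isClosed_compl)

lemma KO_antitone (f : ℝ → ℝ) (a b : ℝ) : Antitone (KO f a b) := by
  intro α β hαβ x hx
  rw [mem_KO] at hx ⊢
  exact ⟨hx.1, fun γ hγ => hx.2 γ (hγ.trans_le hαβ)⟩

lemma KO_succ (f : ℝ → ℝ) (a b : ℝ) (α : Ordinal.{0}) :
    KO f a b (Order.succ α) = der f (KO f a b α) := by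
  ext x
  constructor
  · intro hx
    exact (mem_KO.mp hx).2 α (Order.lt_succ α)
  · intro hx
    have h1 := mem_KO.mp hx.1
    refine mem_KO.mpr ⟨h1.1, fun β hβ => ?_⟩
    rcases eq_or_lt_of_le (Order.lt_succ_iff.mp hβ) with rfl | h
    · exact hx
    · exact h1.2 β h

lemma KO_subset (f : ℝ → ℝ) (a b : ℝ) (α : Ordinal.{0}) : KO f a b α ⊆ Icc a b :=
  fun _ hx => (mem_KO.mp hx).1

lemma isClosed_KO (f : ℝ → ℝ) (a b : ℝ) (α : Ordinal.{0}) : IsClosed (KO f a b α) := by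
  induction α using WellFoundedLT.induction with
  | ind α ih =>
    have : KO f a b α = Icc a b ∩ ⋂ β ∈ Iio α, der f (KO f a b β) := by
      ext x
      simp only [mem_KO, mem_inter_iff, mem_iInter, mem_Iio]
    rw [this]
    exact isClosed_Icc.inter (isClosed_biInter fun β hβ => isClosed_der (ih β hβ))

/-- A point outside a closed set has a rational neighbourhood missing the set. -/
lemma exists_miss {K : Set ℝ} (hK : IsClosed K) {x : ℝ} (hx : x ∉ K) :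
    ∃ I : ℚ × ℚ, (I.1 : ℝ) < x ∧ x < I.2 ∧ Miss K I := by
  obtain ⟨ε, hε, hball⟩ := Metric.isOpen_iff.mp hK.isOpen_compl x hx
  obtain ⟨p, hp1, hp2⟩ := exists_rat_btwn (show x - ε < x by linarith)
  obtain ⟨q, hq1, hq2⟩ := exists_rat_btwn (show x < x + ε by linarith)
  refine ⟨(p, q), hp2, hq1, fun y hy hy2 => ?_⟩
  refine hball ?_ hy
  rw [Metric.mem_ball, Real.dist_eq, abs_lt]
  constructor <;> linarith [hy2.1, hy2.2]

lemma Miss.mono {K : Set ℝ} {I L : ℚ × ℚ} (h : Miss K I) (h1 : (I.1 : ℝ) ≤ L.1)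
    (h2 : (L.2 : ℝ) ≤ I.2) : Miss K L :=
  fun x hx hx2 => h x hx ⟨h1.trans hx2.1, hx2.2.trans h2⟩

/-- (H): intervals missing `KO α` are intervals of Denjoy integrability. -/
lemma denOn_of_miss_KO {f : ℝ → ℝ} {a b : ℝ} (hf : Measurable f)
    (hf0 : ∀ x, x ∉ Icc a b → f x = 0) (α : Ordinal.{0}) :
    ∀ I : ℚ × ℚ, I.1 < I.2 → Miss (KO f a b α) I → DenOn f I.1 I.2 := by
  induction α using WellFoundedLT.induction with
  | ind α ih =>
    intro I hI hm
    have hI' : (I.1 : ℝ) < I.2 := by exact_mod_cast hI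
    obtain ⟨n, hn⟩ := exists_partition hI' (fun u v => DenOn f u v) (by
      intro x hx
      have hxα : x ∉ KO f a b α := fun h => hm x h hx
      rw [mem_KO] at hxα
      by_cases hxab : x ∈ Icc a b
      · have hxα' : ∃ β < α, x ∉ der f (KO f a b β) := by
          by_contra hcon
          push Not at hcon
          exact hxα ⟨hxab, hcon⟩
        obtain ⟨β, hβ, hxβ⟩ := hxα'
        by_cases hxK : x ∈ KO f a b β
        · have : ∃ J : ℚ × ℚ, Good f (KO f a b β) (fun I => DI f I.1 I.2) J ∧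
              ((J.1 : ℝ) < x ∧ x < J.2) := by
            by_contra hcon
            push Not at hcon
            exact hxβ ⟨hxK, fun J hJ hJ2 => absurd hJ2.2 (not_lt.mpr (hcon J hJ hJ2.1))⟩
          obtain ⟨J, hJ, hJ1, hJ2⟩ := this
          refine ⟨J.1, J.2, hJ1, hJ2, ?_⟩
          have hJlt : J.1 < J.2 := by
            have := hJ1.trans hJ2
            exact_mod_cast this
          exact (harn hf (isClosed_KO f a b β) hJlt
            (fun I hI hm => ih β hβ I hI.2.1 hm) hJ).1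
        · obtain ⟨J, hJ1, hJ2, hJm⟩ := exists_miss (isClosed_KO f a b β) hxK
          refine ⟨J.1, J.2, hJ1, hJ2, ih β hβ J ?_ hJm⟩
          have := hJ1.trans hJ2
          exact_mod_cast this
      · obtain ⟨J, hJ1, hJ2, hJm⟩ := exists_miss isClosed_Icc hxab
        refine ⟨J.1, J.2, hJ1, hJ2, fun _ => 0, Prim_zero ?_⟩
        filter_upwards [ae_Ioo (J.1 : ℝ) J.2] with t ht
        exact hf0 t fun h => hJm t h ⟨ht.1.le, ht.2.le⟩)
    refine DenOn_of_partition hI' (n := n) fun k hk => ?_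
    obtain ⟨u, v, h1, h2, h3⟩ := hn k hk
    exact h1.restrict h2.le h3.le

lemma KO_nonempty {f : ℝ → ℝ} {a b : ℝ} (hf : Measurable f)
    (hf0 : ∀ x, x ∉ Icc a b → f x = 0) (hD : ¬ DenOn f a b) (α : Ordinal.{0}) :
    (KO f a b α).Nonempty := by
  by_contra hcon
  rw [not_nonempty_iff_eq_empty] at hcon
  obtain ⟨p, _, hp⟩ := exists_rat_btwn (show min a b - 1 < min a b by linarith)
  obtain ⟨q, hq, _⟩ := exists_rat_btwn (show max a b < max a b + 1 by linarith)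
  have hpq : (p : ℝ) < q := hp.trans_le ((min_le_left _ _).trans ((le_max_left _ _).trans hq.le))
  have h1 := denOn_of_miss_KO hf hf0 α (p, q) (by exact_mod_cast hpq) (by
    intro x hx; rw [hcon] at hx; exact absurd hx (notMem_empty x))
  exact hD (h1.restrict (hp.le.trans (min_le_left _ _)) ((le_max_right _ _).trans hq.le))

lemma KO_stable {f : ℝ → ℝ} {a b : ℝ} {δ : Ordinal.{0}}
    (h : der f (KO f a b δ) = KO f a b δ) (γ : Ordinal.{0}) (hγ : δ ≤ γ) :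
    KO f a b γ = KO f a b δ := by
  induction γ using WellFoundedLT.induction with
  | ind γ ih =>
    refine subset_antisymm (KO_antitone f a b hγ) fun x hx => ?_
    refine mem_KO.mpr ⟨KO_subset f a b δ hx, fun β hβ => ?_⟩
    rcases lt_or_ge β δ with h1 | h1
    · exact (mem_KO.mp hx).2 β h1
    · rw [ih β hβ h1, h]; exact hx

lemma exists_stable (f : ℝ → ℝ) (a b : ℝ) :
    ∃ δ : Ordinal.{0}, der f (KO f a b δ) = KO f a b δ := by
  have hni : ¬ Function.Injective (KO f a b) := not_injective_of_ordinal _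
  rw [Function.Injective] at hni
  push Not at hni
  obtain ⟨α, β, hαβ, hne⟩ := hni
  have key : ∀ α β : Ordinal.{0}, KO f a b α = KO f a b β → α < β →
      der f (KO f a b α) = KO f a b α := by
    intro α β hαβ hlt
    refine subset_antisymm (der_subset _ _) ?_
    rw [← KO_succ]
    nth_rewrite 1 [hαβ]
    exact KO_antitone f a b (Order.succ_le_of_lt hlt)
  rcases lt_or_gt_of_ne hne with h | h
  · exact ⟨α, key α β hαβ h⟩
  · exact ⟨β, key β α hαβ.symm h⟩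

/-- The range of `KO` is countable. -/
lemma countable_range_KO (f : ℝ → ℝ) (a b : ℝ) : (range (KO f a b)).Countable := by
  classical
  set D : Set Ordinal.{0} := {δ | der f (KO f a b δ) = KO f a b δ} with hD
  have hDne : D.Nonempty := exists_stable f a b
  obtain ⟨δ, hδ, hδmin⟩ : ∃ δ ∈ D, ∀ γ ∈ D, δ ≤ γ :=
    ⟨sInf D, csInf_mem hDne, fun γ hγ => csInf_le' hγ⟩
  have hex : ∀ α : Iio δ, ∃ I : ℚ × ℚ, ¬ Miss (KO f a b α) I ∧
      Miss (KO f a b (Order.succ α.1)) I := by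
    rintro ⟨α, hα⟩
    have hne : ¬ (KO f a b α ⊆ der f (KO f a b α)) := fun h =>
      absurd (hδmin α (subset_antisymm (der_subset _ _) h)) (not_le.mpr hα)
    rw [not_subset] at hne
    obtain ⟨x, hx1, hx2⟩ := hne
    obtain ⟨I, h1, h2, h3⟩ := exists_miss (isClosed_der (isClosed_KO f a b α)) hx2
    refine ⟨I, fun h => h x hx1 ⟨h1.le, h2.le⟩, ?_⟩
    rw [KO_succ]; exact h3
  choose g hg1 hg2 using hex
  have hlt : ∀ α β : Iio δ, α.1 < β.1 → g α ≠ g β := by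
    intro α β hαβ heq
    have := hg2 α
    rw [heq] at this
    exact hg1 β (this.anti (KO_antitone f a b (Order.succ_le_of_lt hαβ)))
  have hinj : Function.Injective g := by
    intro α β heq
    rcases lt_trichotomy α.1 β.1 with h | h | h
    · exact absurd heq (hlt α β h)
    · exact Subtype.ext h
    · exact absurd heq.symm (hlt β α h)
  have hcount : (Iio δ).Countable := hinj.countable
  refine ((hcount.image (KO f a b)).insert (KO f a b δ)).mono ?_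
  rintro _ ⟨γ, rfl⟩
  rcases lt_or_ge γ δ with h | h
  · exact Or.inr ⟨γ, h, rfl⟩
  · exact Or.inl (KO_stable hδ γ h)

lemma exists_pieces {I : ℚ × ℚ} (hI : I.1 < I.2) (P : ℚ × ℚ → Prop)
    (h : ∀ x : ℝ, (I.1 : ℝ) ≤ x → x ≤ I.2 → ∃ J : ℚ × ℚ, (J.1 : ℝ) < x ∧ x < J.2 ∧
      ∀ L : ℚ × ℚ, J.1 < L.1 → L.1 < L.2 → L.2 < J.2 → P L) :
    ∃ n : ℕ, ∀ k, k < 2 ^ n → P (piece I n k) := by
  have hI' : (I.1 : ℝ) < I.2 := by exact_mod_cast hI
  obtain ⟨n, hn⟩ := exists_partition hI' (fun u v => ∃ J : ℚ × ℚ, u = J.1 ∧ v = J.2 ∧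
      ∀ L : ℚ × ℚ, J.1 < L.1 → L.1 < L.2 → L.2 < J.2 → P L) (by
    intro x hx
    obtain ⟨J, h1, h2, h3⟩ := h x hx.1 hx.2
    exact ⟨J.1, J.2, h1, h2, J, rfl, rfl, h3⟩)
  refine ⟨n, fun k hk => ?_⟩
  obtain ⟨u, v, ⟨J, rfl, rfl, hJ⟩, h1, h2⟩ := hn k hk
  rw [← piece_fst] at h1
  rw [← piece_snd] at h2
  exact hJ _ (by exact_mod_cast h1) (piece_lt hI n k) (by exact_mod_cast h2)

lemma fine_near {f : ℝ → ℝ} {K : Set ℝ} (hK : IsClosed K) {x : ℝ} (hx : x ∉ der f K) :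
    ∃ J : ℚ × ℚ, (J.1 : ℝ) < x ∧ x < J.2 ∧ ∀ L : ℚ × ℚ, J.1 < L.1 → L.1 < L.2 → L.2 < J.2 →
      Fine f K (fun I => DI f I.1 I.2) L := by
  by_cases hxK : x ∈ K
  · have : ∃ J : ℚ × ℚ, Good f K (fun I => DI f I.1 I.2) J ∧ ((J.1 : ℝ) < x ∧ x < J.2) := by
      by_contra hcon
      push Not at hcon
      exact hx ⟨hxK, fun J hJ hJ2 => absurd hJ2.2 (not_lt.mpr (hcon J hJ hJ2.1))⟩
    obtain ⟨J, hJ, hJ1, hJ2⟩ := this
    exact ⟨J, hJ1, hJ2, fun L h1 _ h3 => Or.inr ⟨J, hJ, h1, h3⟩⟩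
  · obtain ⟨J, hJ1, hJ2, hJm⟩ := exists_miss hK hxK
    refine ⟨J, hJ1, hJ2, fun L h1 _ h3 => Or.inl (hJm.mono ?_ ?_)⟩
    · exact_mod_cast h1.le
    · exact_mod_cast h3.le

lemma miss_der_of_fine {f : ℝ → ℝ} {K : Set ℝ} {I : ℚ × ℚ}
    (h : Fine f K (fun I => DI f I.1 I.2) I) : Miss (der f K) I := by
  rcases h with h | ⟨J, hJ, h1, h2⟩
  · exact h.anti (der_subset f K)
  · rintro x ⟨_, hx⟩ ⟨hx1, hx2⟩
    have h1' : (J.1 : ℝ) < I.1 := by exact_mod_cast h1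
    have h2' : (I.2 : ℝ) < J.2 := by exact_mod_cast h2
    exact hx J hJ ⟨h1'.trans_le hx1, hx2.trans_lt h2'⟩

/-- The largest element of a nonempty subfamily. -/
lemma exists_largest {f : ℝ → ℝ} {a b : ℝ} {K : ℕ → Set ℝ}
    (hK : range K = range (KO f a b)) (P : Set ℝ → Prop) (h : ∃ j, P (K j)) :
    ∃ j, P (K j) ∧ ∀ j', P (K j') → K j' ⊆ K j := by
  have h1 : ∀ j, ∃ α, KO f a b α = K j := fun j => by
    have : K j ∈ range (KO f a b) := hK ▸ mem_range_self j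
    exact this
  have h2 : ∀ α, ∃ j, K j = KO f a b α := fun α => by
    have : KO f a b α ∈ range K := hK ▸ mem_range_self α
    exact this
  obtain ⟨A, hA⟩ : ∃ A : Set Ordinal.{0}, ∀ α, α ∈ A ↔ P (KO f a b α) :=
    ⟨{α | P (KO f a b α)}, fun _ => Iff.rfl⟩
  have hne : A.Nonempty := by
    obtain ⟨j, hj⟩ := h
    obtain ⟨α, hα⟩ := h1 j
    exact ⟨α, (hA α).mpr (by rw [hα]; exact hj)⟩
  obtain ⟨j, hj⟩ := h2 (sInf A)
  refine ⟨j, ?_, fun j' hj' => ?_⟩
  · rw [hj]; exact (hA _).mp (csInf_mem hne)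
  · obtain ⟨α, hα⟩ := h1 j'
    rw [hj, ← hα]
    exact KO_antitone f a b (csInf_le' ((hA α).mpr (by rw [hα]; exact hj')))

/-- **Completeness of certificates.** -/
theorem exists_cert {f : ℝ → ℝ} {a b : ℝ} (hf : Measurable f)
    (hf0 : ∀ x, x ∉ Icc a b → f x = 0) (hD : ¬ DenOn f a b) :
    ∃ (K : ℕ → Set ℝ) (Φ : ℚ × ℚ → ℝ) (s : (ℚ × ℚ) × ℕ × ℕ × ℕ → ℕ), Cert f a b K Φ s := by
  classical
  obtain ⟨K, hK⟩ := (countable_range_KO f a b).exists_eq_range (range_nonempty _)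
  have h1 : ∀ j, ∃ α, KO f a b α = K j := fun j => by
    have : K j ∈ range (KO f a b) := hK ▸ mem_range_self j
    exact this
  have h2 : ∀ α, ∃ j, K j = KO f a b α := fun α => by
    have : KO f a b α ∈ range K := hK ▸ mem_range_self α
    exact this
  obtain ⟨Φ, hΦ⟩ : ∃ Φ : ℚ × ℚ → ℝ, Φ = fun I => DI f I.1 I.2 := ⟨_, rfl⟩
  obtain ⟨Q, hQ⟩ : ∃ Q : ℚ × ℚ → ℕ → ℕ → ℕ → Prop, ∀ J N i j, Q J N i j ↔
      (K j ⊆ K i ∧ Res Φ J N (K i) (K j)) := ⟨_, fun _ _ _ _ => Iff.rfl⟩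
  have hlargest : ∀ (J : ℚ × ℚ) (N i : ℕ), (∃ j, Q J N i j) →
      ∃ j, Q J N i j ∧ ∀ j', Q J N i j' → K j' ⊆ K j := by
    intro J N i h
    obtain ⟨j, hj1, hj2⟩ := exists_largest hK.symm (fun L => L ⊆ K i ∧ Res Φ J N (K i) L) (by
      obtain ⟨j, hj⟩ := h
      exact ⟨j, (hQ _ _ _ _).mp hj⟩)
    exact ⟨j, (hQ _ _ _ _).mpr hj1, fun j' hj' => hj2 j' ((hQ _ _ _ _).mp hj')⟩
  have hstep : ∀ (J : ℚ × ℚ) (N i : ℕ), ∃ j, K j ⊆ K i ∧
      ((Res Φ J N (K i) (K j) ∧ ∀ j', Q J N i j' → K j' ⊆ K j) ∨ ∀ j', ¬ Q J N i j') := by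
    intro J N i
    by_cases h : ∃ j, Q J N i j
    · obtain ⟨j, hj1, hj2⟩ := hlargest J N i h
      exact ⟨j, ((hQ _ _ _ _).mp hj1).1, Or.inl ⟨((hQ _ _ _ _).mp hj1).2, hj2⟩⟩
    · push Not at h
      exact ⟨i, Subset.rfl, Or.inr h⟩
  choose t ht1 ht2 using hstep
  obtain ⟨s, hs⟩ : ∃ s : (ℚ × ℚ) × ℕ × ℕ × ℕ → ℕ,
      s = fun x => (Nat.rec x.2.2.1 (fun _ r => t x.1 x.2.1 r) x.2.2.2 : ℕ) := ⟨_, rfl⟩
  have hs0 : ∀ J N i, s (J, N, i, 0) = i := by intro J N i; rw [hs]; rfl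
  have hs1 : ∀ J N i k, s (J, N, i, k + 1) = t J N (s (J, N, i, k)) := by
    intro J N i k; rw [hs]
  have hanti : ∀ J N i, Antitone fun k => K (s (J, N, i, k)) := by
    intro J N i
    refine antitone_nat_of_succ_le fun k => ?_
    rw [hs1]
    exact ht1 J N _
  refine ⟨K, Φ, s, ?_⟩
  refine
    { closed := ?_, ne := ?_, sub := ?_, chain := ?_, out := ?_, origin := ?_, formula := ?_,
      stuck := ?_, alarge := ?_, s0 := hs0, s1 := ?_, lim := ?_, next := ?_, add := ?_ }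
  · intro i
    obtain ⟨α, hα⟩ := h1 i
    rw [← hα]; exact isClosed_KO f a b α
  · intro i
    obtain ⟨α, hα⟩ := h1 i
    rw [← hα]; exact KO_nonempty hf hf0 hD α
  · intro i
    obtain ⟨α, hα⟩ := h1 i
    rw [← hα]; exact KO_subset f a b α
  · intro i j
    obtain ⟨α, hα⟩ := h1 i
    obtain ⟨β, hβ⟩ := h1 j
    rw [← hα, ← hβ]
    rcases le_total α β with h | h
    · exact Or.inr (KO_antitone f a b h)
    · exact Or.inl (KO_antitone f a b h)
  · intro I hI hm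
    rw [hΦ]; exact DI_out hf0 hI hm
  · -- origin
    intro i I hI hm
    obtain ⟨A, hA⟩ : ∃ A : Set Ordinal.{0}, ∀ α, α ∈ A ↔ KO f a b α = K i :=
      ⟨{α | KO f a b α = K i}, fun _ => Iff.rfl⟩
    have hAne : A.Nonempty := by
      obtain ⟨α, hα⟩ := h1 i
      exact ⟨α, (hA α).mpr hα⟩
    obtain ⟨α, hα⟩ : ∃ α, α = sInf A := ⟨_, rfl⟩
    have hαK : KO f a b α = K i := (hA α).mp (hα ▸ csInf_mem hAne)
    have hαmin : ∀ β < α, KO f a b β ≠ K i := fun β hβ h =>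
      absurd (hα ▸ csInf_le' ((hA β).mpr h)) (not_le.mpr hβ)
    refine exists_pieces hI (fun L => Miss (Icc a b) L ∨
      ∃ j, (K i ⊆ K j ∧ ¬ K j ⊆ K i) ∧ Fine f (K j) Φ L) fun x hx1 hx2 => ?_
    have hx : x ∉ KO f a b α := fun h => hm x (hαK ▸ h) ⟨hx1, hx2⟩
    by_cases hxab : x ∈ Icc a b
    · have hxα' : ∃ β < α, x ∉ der f (KO f a b β) := by
        by_contra hcon
        push Not at hcon
        exact hx (mem_KO.mpr ⟨hxab, hcon⟩)
      obtain ⟨β, hβ, hxβ⟩ := hxα'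
      obtain ⟨J, hJ1, hJ2, hJ⟩ := fine_near (isClosed_KO f a b β) hxβ
      obtain ⟨j, hj⟩ := h2 β
      refine ⟨J, hJ1, hJ2, fun L hL1 hL2 hL3 => Or.inr ⟨j, ⟨?_, ?_⟩, ?_⟩⟩
      · rw [hj, ← hαK]; exact KO_antitone f a b hβ.le
      · intro hcon
        rw [hj, ← hαK] at hcon
        exact hαmin β hβ ((subset_antisymm hcon (KO_antitone f a b hβ.le)).trans hαK)
      · rw [hj, hΦ]; exact hJ L hL1 hL2 hL3
    · obtain ⟨J, hJ1, hJ2, hJm⟩ := exists_miss isClosed_Icc hxab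
      refine ⟨J, hJ1, hJ2, fun L hL1 _ hL3 => Or.inl (hJm.mono ?_ ?_)⟩
      · exact_mod_cast hL1.le
      · exact_mod_cast hL3.le
  · -- formula
    intro j J hG I hI1 hI2 hI3
    obtain ⟨α, hα⟩ := h1 j
    rw [← hα, hΦ] at hG
    rw [← hα, hΦ]
    exact (harn hf (isClosed_KO f a b α) (hI1.trans (hI2.trans hI3))
      (fun L hL hLm => denOn_of_miss_KO hf hf0 α L hL.2.1 hLm) hG).2 I hI1 hI2 hI3
  · -- stuck
    obtain ⟨δ, hδ⟩ := exists_stable f a b
    obtain ⟨i, hi⟩ := h2 δ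
    refine ⟨i, fun I hI => ?_⟩
    rw [hi, hΦ] at hI
    rw [hi, ← hδ]
    exact miss_der_of_fine hI
  · -- alarge
    intro J N h
    exact exists_largest hK.symm (fun L => ABound f L J N) h
  · -- s1
    intro J N i k
    rw [hs1]
    rcases ht2 J N (s (J, N, i, k)) with ⟨h3, h4⟩ | h3
    · exact Or.inl ⟨ht1 _ _ _, h3, fun j hj hj2 => h4 j ((hQ _ _ _ _).mpr ⟨hj, hj2⟩)⟩
    · exact Or.inr fun j hj hj2 => h3 j ((hQ _ _ _ _).mpr ⟨hj, hj2⟩)
  · -- lim
    intro J N i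
    choose α hα using fun k => h1 (s (J, N, i, k))
    obtain ⟨j, hj⟩ := h2 (⨆ k, α k)
    have hsub : ⋂ k, K (s (J, N, i, k)) ⊆ K j := by
      intro x hx
      rw [mem_iInter] at hx
      rw [hj]
      refine mem_KO.mpr ⟨?_, fun β hβ => ?_⟩
      · have := hx 0
        rw [← hα] at this
        exact KO_subset f a b _ this
      · rw [Ordinal.lt_iSup_iff] at hβ
        obtain ⟨k, hk⟩ := hβ
        have := hx k
        rw [← hα] at this
        exact (mem_KO.mp this).2 β hk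
    refine ⟨j, fun k => ?_, fun I hm => ?_⟩
    · rw [hj, ← hα]
      exact KO_antitone f a b (Ordinal.le_iSup α k)
    · have hcl : ∀ k, IsClosed (K (s (J, N, i, k))) := fun k => by
        rw [← hα]; exact isClosed_KO f a b _
      obtain ⟨k, hk⟩ := (isCompact_Icc (a := (I.1 : ℝ)) (b := I.2)).elim_directed_family_closed
        (fun k => K (s (J, N, i, k))) hcl (by
          rw [eq_empty_iff_forall_notMem]
          rintro x ⟨hx1, hx2⟩
          exact hm x (hsub hx2) hx1) (hanti J N i).directed_ge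
      refine ⟨k, fun x hx hx2 => ?_⟩
      rw [eq_empty_iff_forall_notMem] at hk
      exact hk x ⟨hx2, hx⟩
  · -- next
    intro j
    obtain ⟨α, hα⟩ := h1 j
    obtain ⟨i, hi⟩ := h2 (Order.succ α)
    rw [KO_succ] at hi
    refine ⟨i, fun I hI => ?_, fun I hI hm => ?_⟩
    · rw [← hα, hΦ] at hI
      rw [hi]
      exact miss_der_of_fine hI
    · rw [hi] at hm
      refine exists_pieces hI (Fine f (K j) Φ) fun x hx1 hx2 => ?_
      rw [← hα, hΦ]
      exact fine_near (isClosed_KO f a b α) fun h => hm x h ⟨hx1, hx2⟩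
  · -- add
    intro i I r hr1 hr2 hm
    obtain ⟨α, hα⟩ := h1 i
    rw [← hα] at hm
    rw [hΦ]
    exact (DI_add (by exact_mod_cast hr1.le) (by exact_mod_cast hr2.le)
      (denOn_of_miss_KO hf hf0 α I (hr1.trans hr2) hm)).symm

end Pool.Agent.MP_c24d14
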