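import Mathlib

/-!
# Denjoy integrable functions: the definitions used in the statement
-/

open Set MeasureTheory

namespace Pool.Agent.MP_c24d14

/-- The oscillation `sup {|F x - F y| : x, y ∈ [c, d]}` of `F` on `[c, d]`. -/
noncomputable def osc (F : ℝ → ℝ) (c d : ℝ) : ℝ :=
  sSup {r : ℝ | ∃ x ∈ Icc c d, ∃ y ∈ Icc c d, r = |F x - F y|}

/-- `D` is a `K`-edged pre-partition: a finite nonempty family of closed intervals
`[J.1, J.2]` with both endpoints in `K`, pairwise non-overlapping. -/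
def IsPrePartition (K : Set ℝ) (D : Finset (ℝ × ℝ)) : Prop :=
  D.Nonempty ∧ (∀ J ∈ D, J.1 ∈ K ∧ J.2 ∈ K ∧ J.1 < J.2) ∧
    ∀ J ∈ D, ∀ L ∈ D, J ≠ L → J.2 ≤ L.1 ∨ L.2 ≤ J.1

/-- `F ∈ AC_*(K)`. -/
def ACStar (F : ℝ → ℝ) (K : Set ℝ) : Prop :=
  ∀ ε : ℝ, 0 < ε → ∃ δ : ℝ, 0 < δ ∧ ∀ D : Finset (ℝ × ℝ), IsPrePartition K D →
    ∑ J ∈ D, (J.2 - J.1) < δ → ∑ J ∈ D, osc F J.1 J.2 < ε

/-- `F ∈ ACG_*([a, b])`: `F` is continuous on `[a, b]` and `[a, b]` is the union of a sequence of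
closed sets `K n` with `F ∈ AC_*(K n)` for every `n`. -/
def ACGStar (a b : ℝ) (F : ℝ → ℝ) : Prop :=
  ContinuousOn F (Icc a b) ∧ ∃ K : ℕ → Set ℝ,
    (∀ n, IsClosed (K n) ∧ ACStar F (K n)) ∧ ⋃ n, K n = Icc a b

/-- The set `Den[a, b]` of the a.e.-classes of Denjoy integrable functions on `[a, b]`. -/
def Den (a b : ℝ) : Set (ℝ →ₘ[volume.restrict (Icc a b)] ℝ) :=
  {f | ∃ F : ℝ → ℝ, ACGStar a b F ∧
    ∀ᵐ x ∂(volume.restrict (Icc a b)), HasDerivAt F (f x) x}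

end Pool.Agent.MP_c24d14
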