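import Pool.Agent.Lib.MP_c24d14_lc.HarnackDeriv

/-!
# The partition formula for the Harnack extension
-/

open Set MeasureTheory Filter Topology

namespace Pool.Agent.MP_c24d14

/-- At most one half-open piece contains a given point. -/
lemma sum_indicator_le {N : ℕ} (P : ℕ → Prop) [DecidablePred P] (w : ℕ → ℝ) {M : ℝ} (hM : 0 ≤ M)
    (hw : ∀ k < N, |w k| ≤ M) (hP : ∀ k < N, ∀ l < N, P k → P l → k = l) :
    ∑ k ∈ Finset.range N, (if P k then |w k| else 0) ≤ M := by
  rw [← Finset.sum_filter]
  have hcard : ((Finset.range N).filter P).card ≤ 1 := by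
    rw [Finset.card_le_one]
    intro k hk l hl
    rw [Finset.mem_filter, Finset.mem_range] at hk hl
    exact hP k hk.1 l hl.1 hk.2 hl.2
  calc ∑ k ∈ (Finset.range N).filter P, |w k| ≤ ∑ k ∈ (Finset.range N).filter P, M :=
        Finset.sum_le_sum fun k hk => hw k (by
          rw [Finset.mem_filter, Finset.mem_range] at hk; exact hk.1)
    _ = (((Finset.range N).filter P).card : ℝ) * M := by simp
    _ ≤ 1 * M := mul_le_mul_of_nonneg_right (by exact_mod_cast hcard) hM
    _ = M := one_mul _

open Classical in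
lemma inner_sum_error {h : ℝ → ℝ} {u v p q : ℝ} (hpq : p < q) (hu : ∀ x ≤ u, h x = h u)
    (hv : ∀ x, v ≤ x → h x = h v) (n : ℕ) {M : ℝ} (hM : 0 ≤ M)
    (hΔ : ∀ k < 2 ^ n, |h (pt p q n (k + 1)) - h (pt p q n k)| ≤ M) :
    |h q - h p - ∑ k ∈ Finset.range (2 ^ n),
      (if u < pt p q n k ∧ pt p q n (k + 1) < v then h (pt p q n (k + 1)) - h (pt p q n k)
        else 0)| ≤ 2 * M := by
  have htel : h q - h p = ∑ k ∈ Finset.range (2 ^ n),
      (h (pt p q n (k + 1)) - h (pt p q n k)) := by
    rw [Finset.sum_range_sub (fun k => h (pt p q n k)), pt_last, pt_zero]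
  rw [htel, ← Finset.sum_sub_distrib]
  refine (Finset.abs_sum_le_sum_abs _ _).trans ?_
  have hmono := pt_strictMono hpq n
  have h1 : ∀ k ∈ Finset.range (2 ^ n),
      |(h (pt p q n (k + 1)) - h (pt p q n k)) -
        (if u < pt p q n k ∧ pt p q n (k + 1) < v then h (pt p q n (k + 1)) - h (pt p q n k)
          else 0)| ≤
      (if pt p q n k ≤ u ∧ u < pt p q n (k + 1) then |h (pt p q n (k + 1)) - h (pt p q n k)|
        else 0) +
      (if pt p q n k < v ∧ v ≤ pt p q n (k + 1) then |h (pt p q n (k + 1)) - h (pt p q n k)|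
        else 0) := by
    intro k _
    have hk := hmono (Nat.lt_succ_self k)
    set a := pt p q n k
    set b := pt p q n (k + 1)
    have nn1 : (0 : ℝ) ≤ if a ≤ u ∧ u < b then |h b - h a| else 0 := by
      split_ifs; exacts [abs_nonneg _, le_rfl]
    have nn2 : (0 : ℝ) ≤ if a < v ∧ v ≤ b then |h b - h a| else 0 := by
      split_ifs; exacts [abs_nonneg _, le_rfl]
    by_cases hin : u < a ∧ b < v
    · rw [if_pos hin, sub_self, abs_zero]
      exact add_nonneg nn1 nn2
    · rw [if_neg hin, sub_zero]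
      rw [not_and_or, not_lt, not_lt] at hin
      rcases hin with hin | hin
      · rcases le_or_gt b u with hb | hb
        · have : h b - h a = 0 := by rw [hu b hb, hu a hin, sub_self]
          rw [this, abs_zero]
          rw [this, abs_zero] at nn1 nn2
          exact add_nonneg nn1 nn2
        · rw [if_pos ⟨hin, hb⟩]
          exact le_add_of_nonneg_right nn2
      · rcases le_or_gt v a with ha | ha
        · have : h b - h a = 0 := by rw [hv b hin, hv a ha, sub_self]
          rw [this, abs_zero]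
          rw [this, abs_zero] at nn1 nn2
          exact add_nonneg nn1 nn2
        · rw [if_pos (⟨ha, hin⟩ : a < v ∧ v ≤ b)]
          exact le_add_of_nonneg_left nn1
  refine (Finset.sum_le_sum h1).trans ?_
  rw [Finset.sum_add_distrib, two_mul]
  refine add_le_add ?_ ?_
  · refine sum_indicator_le (fun k => pt p q n k ≤ u ∧ u < pt p q n (k + 1))
      (fun k => h (pt p q n (k + 1)) - h (pt p q n k)) hM hΔ ?_
    intro k _ l _ hk hl
    by_contra hne
    rcases lt_or_gt_of_ne hne with hlt | hlt
    · have : pt p q n (k + 1) ≤ pt p q n l := hmono.monotone hlt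
      linarith [hk.2, hl.1]
    · have : pt p q n (l + 1) ≤ pt p q n k := hmono.monotone hlt
      linarith [hk.1, hl.2]
  · refine sum_indicator_le (fun k => pt p q n k < v ∧ v ≤ pt p q n (k + 1))
      (fun k => h (pt p q n (k + 1)) - h (pt p q n k)) hM hΔ ?_
    intro k _ l _ hk hl
    by_contra hne
    rcases lt_or_gt_of_ne hne with hlt | hlt
    · have : pt p q n (k + 1) ≤ pt p q n l := hmono.monotone hlt
      linarith [hk.2, hl.1]
    · have : pt p q n (l + 1) ≤ pt p q n k := hmono.monotone hlt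
      linarith [hk.1, hl.2]

open Classical in
lemma inner_sum_tendsto {h : ℝ → ℝ} {u v p q : ℝ} (hpq : p < q) (hc : Continuous h)
    (hu : ∀ x ≤ u, h x = h u) (hv : ∀ x, v ≤ x → h x = h v) :
    Tendsto (fun n => ∑ k ∈ Finset.range (2 ^ n),
      (if u < pt p q n k ∧ pt p q n (k + 1) < v then h (pt p q n (k + 1)) - h (pt p q n k)
        else 0)) atTop (𝓝 (h q - h p)) := by
  rw [Metric.tendsto_atTop]
  intro ε hε
  have huc := isCompact_Icc.uniformContinuousOn_of_continuous
    (hc.continuousOn (s := Icc p q))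
  rw [Metric.uniformContinuousOn_iff] at huc
  obtain ⟨δ, hδ, H⟩ := huc (ε / 3) (by positivity)
  have hmesh : Tendsto (fun n : ℕ => (q - p) / 2 ^ n) atTop (𝓝 0) := by
    have h1 : Tendsto (fun n : ℕ => (q - p) * ((1 / 2 : ℝ)) ^ n) atTop (𝓝 ((q - p) * 0)) :=
      (tendsto_pow_atTop_nhds_zero_of_lt_one (by norm_num) (by norm_num)).const_mul _
    rw [mul_zero] at h1
    refine h1.congr fun n => ?_
    rw [one_div, inv_pow]; rfl
  obtain ⟨N, hN⟩ := (hmesh.eventually (gt_mem_nhds hδ)).exists_forall_of_atTop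
  refine ⟨N, fun n hn => ?_⟩
  have hΔ : ∀ k < 2 ^ n, |h (pt p q n (k + 1)) - h (pt p q n k)| ≤ ε / 3 := by
    intro k hk
    have := H (pt p q n (k + 1)) ⟨le_pt hpq.le _ _, pt_le hpq.le hk⟩ (pt p q n k)
      ⟨le_pt hpq.le _ _, pt_le hpq.le hk.le⟩ (by
        rw [Real.dist_eq, pt_succ_sub, abs_of_nonneg (div_nonneg (by linarith) (by positivity))]
        exact hN n hn)
    rw [Real.dist_eq] at this
    exact this.le
  have := inner_sum_error hpq hu hv n (by positivity) hΔ
  rw [Real.dist_eq, abs_sub_comm]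
  linarith

namespace HData

variable {f : ℝ → ℝ} {c d : ℝ} {C : Set ℝ} {φ : ℝ × ℝ → ℝ → ℝ}

open Classical in
lemma tendsto_sum_missed (H : HData f c d C φ) {p q : ℝ} (hpq : p < q) :
    Tendsto (fun n => ∑ k ∈ Finset.range (2 ^ n),
      (if ∀ t ∈ C, ¬ (pt p q n k ≤ t ∧ t ≤ pt p q n (k + 1)) then
        H.G (pt p q n (k + 1)) - H.G (pt p q n k) else 0)) atTop (𝓝 (H.G2 q - H.G2 p)) := by
  have key : ∀ n, ∑ k ∈ Finset.range (2 ^ n),
      (if ∀ t ∈ C, ¬ (pt p q n k ≤ t ∧ t ≤ pt p q n (k + 1)) then
        H.G (pt p q n (k + 1)) - H.G (pt p q n k) else 0) =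
      ∑' g : gaps C, ∑ k ∈ Finset.range (2 ^ n),
        (if g.1.1 < pt p q n k ∧ pt p q n (k + 1) < g.1.2 then
          psi φ g (pt p q n (k + 1)) - psi φ g (pt p q n k) else 0) := by
    intro n
    rw [Summable.tsum_finsetSum]
    · refine Finset.sum_congr rfl fun k hk => ?_
      have hk' := pt_strictMono hpq n (Nat.lt_succ_self k)
      split_ifs with hmiss
      · have h1 : H.G (pt p q n (k + 1)) - H.G (pt p q n k) =
            H.G2 (pt p q n (k + 1)) - H.G2 (pt p q n k) := by
          have := H.G1_eq hk'.le fun t ht htC => hmiss t htC ⟨ht.1.le, ht.2.le⟩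
          simp only [G]; linarith
        rw [h1, H.G2_sub]
        refine tsum_congr fun g => ?_
        split_ifs with hin
        · rfl
        · have e1 := hmiss g.1.1 g.2.2.1
          have e2 := hmiss g.1.2 g.2.2.2.1
          rw [not_and_or, not_le, not_le] at e1 e2
          rw [not_and_or, not_lt, not_lt] at hin
          have hg := g.2.1
          rcases e1 with e1 | e1
          · rcases e2 with e2 | e2
            · exact psi_eq_of_ge g.2.1 (e2.le.trans hk'.le) e2.le
            · rcases hin with hin | hin <;> linarith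
          · exact psi_eq_of_le e1.le (hk'.le.trans e1.le)
      · symm
        have : ∀ g : gaps C, (if g.1.1 < pt p q n k ∧ pt p q n (k + 1) < g.1.2 then
          psi φ g (pt p q n (k + 1)) - psi φ g (pt p q n k) else 0) = 0 := by
          intro g
          rw [if_neg]
          rintro ⟨h1, h2⟩
          apply hmiss
          intro t htC ht
          exact g.2.2.2.2 t ⟨h1.trans_le ht.1, ht.2.trans_lt h2⟩ htC
        simp [this]
    · intro k _
      refine Summable.of_norm_bounded H.summ fun g => ?_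
      split_ifs
      · exact psi_sub_le g.2.1 (H.cont g) _ _
      · rw [norm_zero]; exact osc_nonneg _ _ _
  simp_rw [key]
  rw [H.G2_sub]
  refine tendsto_tsum_of_dominated_convergence (bound := fun g : gaps C =>
    3 * osc (φ g) g.1.1 g.1.2) (H.summ.mul_left 3) (fun g => ?_) (Eventually.of_forall
      fun n g => ?_)
  · exact inner_sum_tendsto hpq (psi_continuous g.2.1 (H.cont g))
      (fun x hx => by rw [psi_of_le hx, psi_of_le le_rfl])
      (fun x hx => by rw [psi_of_ge g.2.1 hx, psi_of_ge g.2.1 le_rfl])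
  · have h1 := inner_sum_error (h := psi φ g) (u := g.1.1) (v := g.1.2) hpq
      (fun x hx => by rw [psi_of_le hx, psi_of_le le_rfl])
      (fun x hx => by rw [psi_of_ge g.2.1 hx, psi_of_ge g.2.1 le_rfl]) n
      (osc_nonneg (φ g) g.1.1 g.1.2) (fun k _ => psi_sub_le g.2.1 (H.cont g) _ _)
    have h2 := psi_sub_le g.2.1 (H.cont g) q p
    rw [Real.norm_eq_abs]
    set S := ∑ k ∈ Finset.range (2 ^ n),
        (if g.1.1 < pt p q n k ∧ pt p q n (k + 1) < g.1.2 then
          psi φ g (pt p q n (k + 1)) - psi φ g (pt p q n k) else 0)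
    have h3 : |S| ≤ |psi φ g q - psi φ g p| + |psi φ g q - psi φ g p - S| := by
      have : S = (psi φ g q - psi φ g p) - (psi φ g q - psi φ g p - S) := by ring
      calc |S| = |(psi φ g q - psi φ g p) - (psi φ g q - psi φ g p - S)| := by rw [← this]
        _ ≤ _ := abs_sub _ _
    linarith

lemma G2_sub_eq (H : HData f c d C φ) {p q : ℝ} (hpq : p ≤ q) :
    H.G2 q - H.G2 p = H.G q - H.G p - ∫ x in C ∩ Icc p q, f x := by
  have h1 : H.G1 q - H.G1 p = ∫ x in C ∩ Icc p q, f x := by
    rw [H.G1_sub, intervalIntegral.integral_of_le hpq, ← integral_Icc_eq_integral_Ioc,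
      setIntegral_indicator H.closed.measurableSet, inter_comm]
  simp only [G]; linarith

end HData

end Pool.Agent.MP_c24d14
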