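import Pool.Agent.Lib.MP_c24d14_lc.Formula

/-!
# Primitives on gaps from local primitives
-/

open Set MeasureTheory Filter Topology

namespace Pool.Agent.MP_c24d14

lemma exists_limit_left {H : ℝ → ℝ} {u v : ℝ} (huv : u < v)
    (hU : ∀ ε : ℝ, 0 < ε → ∃ δ : ℝ, 0 < δ ∧ ∀ x y, u < x → x < y → y < v → y - x < δ →
      |H y - H x| ≤ ε) : ∃ l, Tendsto H (𝓝[>] u) (𝓝 l) := by
  rw [← cauchy_map_iff_exists_tendsto]
  rw [Metric.cauchy_iff]
  refine ⟨inferInstance, fun ε hε => ?_⟩
  obtain ⟨δ, hδ, Hδ⟩ := hU (ε / 2) (by positivity)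
  set w := min v (u + δ) with hw
  have huw : u < w := lt_min huv (by linarith)
  refine ⟨H '' Ioo u w, image_mem_map (Ioo_mem_nhdsGT huw), ?_⟩
  rintro _ ⟨x, hx, rfl⟩ _ ⟨y, hy, rfl⟩
  wlog hxy : x ≤ y generalizing x y with hw'
  · rw [dist_comm]; exact hw' y hy x hx (le_of_not_ge hxy)
  rcases eq_or_lt_of_le hxy with rfl | hxy
  · rw [dist_self]; exact hε
  · have h1 : w ≤ v := min_le_left _ _
    have h2 : w ≤ u + δ := min_le_right _ _
    have := Hδ x y hx.1 hxy (hy.2.trans_le h1) (by linarith [hy.2, hx.1])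
    rw [dist_comm, Real.dist_eq]; linarith

lemma exists_limit_right {H : ℝ → ℝ} {u v : ℝ} (huv : u < v)
    (hU : ∀ ε : ℝ, 0 < ε → ∃ δ : ℝ, 0 < δ ∧ ∀ x y, u < x → x < y → y < v → y - x < δ →
      |H y - H x| ≤ ε) : ∃ l, Tendsto H (𝓝[<] v) (𝓝 l) := by
  rw [← cauchy_map_iff_exists_tendsto]
  rw [Metric.cauchy_iff]
  refine ⟨inferInstance, fun ε hε => ?_⟩
  obtain ⟨δ, hδ, Hδ⟩ := hU (ε / 2) (by positivity)
  set w := max u (v - δ) with hw
  have huw : w < v := max_lt huv (by linarith)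
  refine ⟨H '' Ioo w v, image_mem_map (Ioo_mem_nhdsLT huw), ?_⟩
  rintro _ ⟨x, hx, rfl⟩ _ ⟨y, hy, rfl⟩
  wlog hxy : x ≤ y generalizing x y with hw'
  · rw [dist_comm]; exact hw' y hy x hx (le_of_not_ge hxy)
  rcases eq_or_lt_of_le hxy with rfl | hxy
  · rw [dist_self]; exact hε
  · have h1 : u ≤ w := le_max_left _ _
    have h2 : v - δ ≤ w := le_max_right _ _
    have := Hδ x y (h1.trans_lt hx.1) hxy hy.2 (by linarith [hy.2, hx.1])
    rw [dist_comm, Real.dist_eq]; linarith

lemma exists_prim_of_uniform {f : ℝ → ℝ} {u v : ℝ} (huv : u < v)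
    (hDen : ∀ x y, u < x → x < y → y < v → DenOn f x y)
    (hU : ∀ ε : ℝ, 0 < ε → ∃ δ : ℝ, 0 < δ ∧ ∀ x y, u < x → x < y → y < v → y - x < δ →
      |DI f x y| ≤ ε) : ∃ φ, Prim f u v φ := by
  set m := (u + v) / 2 with hm
  have hm1 : u < m := by rw [hm]; linarith
  have hm2 : m < v := by rw [hm]; linarith
  set H : ℝ → ℝ := fun x => if m ≤ x then DI f m x else - DI f x m with hH
  have hHsub : ∀ x y, u < x → x ≤ y → y < v → H y - H x = DI f x y := by
    intro x y hx hxy hy
    -- a primitive on a large interval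
    have hlt : min x m < max y m ∨ min x m = max y m := lt_or_eq_of_le
      ((min_le_left _ _).trans (hxy.trans (le_max_left _ _)))
    obtain ⟨F, hF⟩ : DenOn f (min x m) (max y m) := by
      rcases hlt with h | h
      · exact hDen _ _ (lt_min hx hm1) h (max_lt hy hm2)
      · rw [h]; exact ⟨fun _ => 0, Prim_degenerate le_rfl⟩
    have hval : ∀ z, x ≤ z → z ≤ y → H z = F z - F m := by
      intro z hz1 hz2
      simp only [hH]
      split_ifs with h
      · exact hF.DI_eq (min_le_right _ _) h (hz2.trans (le_max_left _ _))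
      · rw [hF.DI_eq ((min_le_left _ _).trans hz1) (not_le.mp h).le (le_max_right _ _)]
        ring
    rw [hval y hxy le_rfl, hval x le_rfl hxy, hF.DI_eq (min_le_left _ _) hxy (le_max_left _ _)]
    ring
  have hprim : ∀ p q, u < p → p < q → q < v → Prim f p q H := by
    intro p q hp hpq hq
    obtain ⟨F, hF⟩ := hDen p q hp hpq hq
    refine hF.congr (C := F p - H p) fun x hx => ?_
    have := hHsub p x hp hx.1 (hx.2.trans_lt hq)
    rw [hF.DI_eq le_rfl hx.1 hx.2] at this
    linarith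
  have hcont : ContinuousOn H (Ioo u v) := by
    intro x hx
    obtain ⟨p, hp1, hp2⟩ := exists_between hx.1
    obtain ⟨q, hq1, hq2⟩ := exists_between hx.2
    have := (hprim p q hp1 (hp2.trans hq1) hq2).continuousOn
    exact (this.continuousAt (Icc_mem_nhds hp2 hq1)).continuousWithinAt
  have hU' : ∀ ε : ℝ, 0 < ε → ∃ δ : ℝ, 0 < δ ∧ ∀ x y, u < x → x < y → y < v → y - x < δ →
      |H y - H x| ≤ ε := by
    intro ε hε
    obtain ⟨δ, hδ, Hδ⟩ := hU ε hε
    refine ⟨δ, hδ, fun x y hx hxy hy hlen => ?_⟩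
    rw [hHsub x y hx hxy.le hy]
    exact Hδ x y hx hxy hy hlen
  obtain ⟨la, hla⟩ := exists_limit_left huv hU'
  obtain ⟨lb, hlb⟩ := exists_limit_right huv hU'
  have hext : ContinuousOn (extendFrom (Ioo u v) H) (Icc u v) :=
    continuousOn_Icc_extendFrom_Ioo hcont hla hlb
  have heq : ∀ x ∈ Ioo u v, extendFrom (Ioo u v) H x = H x := extendFrom_extends hcont
  refine ⟨extendFrom (Ioo u v) H, Prim.cauchy huv hext fun p q hp hpq hq => ?_⟩
  refine (hprim p q hp hpq hq).congr (C := 0) fun x hx => ?_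
  rw [heq x ⟨hp.trans_le hx.1, hx.2.trans_lt hq⟩, sub_self]

/-- Approximating reals by rationals: if `|F y - F x| ≤ C` for all rationals `x < y` in `(u, v)`
then `osc F u v ≤ C`. -/
lemma osc_le_of_rat {F : ℝ → ℝ} {u v C : ℝ} (huv : u < v) (hF : ContinuousOn F (Icc u v))
    (h : ∀ x y : ℚ, u < x → x < y → (y : ℝ) < v → |F y - F x| ≤ C) : osc F u v ≤ C := by
  have hC : 0 ≤ C := by
    obtain ⟨x, hx1, hx2⟩ := exists_rat_btwn huv
    obtain ⟨y, hy1, hy2⟩ := exists_rat_btwn hx2
    exact (abs_nonneg _).trans (h x y hx1 (by exact_mod_cast hy1) hy2)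
  -- first for points of the open interval
  have h1 : ∀ x y, u < x → x < y → y < v → |F y - F x| ≤ C := by
    intro x y hx hxy hy
    by_contra hcon
    rw [not_le] at hcon
    have hcx : ContinuousAt F x := hF.continuousAt (Icc_mem_nhds hx (hxy.trans hy))
    have hcy : ContinuousAt F y := hF.continuousAt (Icc_mem_nhds (hx.trans hxy) hy)
    have h2 : ContinuousAt (fun z : ℝ × ℝ => |F z.2 - F z.1|) (x, y) := by
      have e1 : ContinuousAt (fun z : ℝ × ℝ => F z.2) (x, y) :=
        ContinuousAt.comp (f := Prod.snd) (g := F) hcy continuousAt_snd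
      have e2 : ContinuousAt (fun z : ℝ × ℝ => F z.1) (x, y) :=
        ContinuousAt.comp (f := Prod.fst) (g := F) hcx continuousAt_fst
      exact (e1.sub e2).abs
    have h3 := h2.eventually (lt_mem_nhds hcon)
    rw [Metric.eventually_nhds_iff] at h3
    obtain ⟨ε, hε, hball⟩ := h3
    obtain ⟨x', hx1, hx2⟩ := exists_rat_btwn (show max u (x - ε) < x from max_lt hx (by linarith))
    obtain ⟨y', hy1, hy2⟩ := exists_rat_btwn (show max x (y - ε) < y from max_lt hxy (by linarith))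
    have hx3 : x - ε < x' := (le_max_right _ _).trans_lt hx1
    have hy3 : y - ε < y' := (le_max_right _ _).trans_lt hy1
    have := @hball ((x' : ℝ), (y' : ℝ)) (by
      rw [Prod.dist_eq]
      refine max_lt ?_ ?_
      · simp only [Real.dist_eq]; rw [abs_lt]; constructor <;> linarith
      · simp only [Real.dist_eq]; rw [abs_lt]; constructor <;> linarith)
    refine absurd (h x' y' ((le_max_left _ _).trans_lt hx1) ?_ (hy2.trans hy)) (not_le.mpr this)
    have : (x' : ℝ) < y' := hx2.trans ((le_max_left _ _).trans_lt hy1)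
    exact_mod_cast this
  have h1' : ∀ x ∈ Ioo u v, ∀ y ∈ Ioo u v, |F x - F y| ≤ C := by
    intro x hx y hy
    rcases lt_trichotomy x y with hxy | hxy | hxy
    · rw [abs_sub_comm]; exact h1 x y hx.1 hxy hy.2
    · rw [hxy, sub_self, abs_zero]; exact hC
    · exact h1 y x hy.1 hxy hx.2
  refine osc_le hC fun x hx y hy => ?_
  -- closure argument
  have hcl : closure (Ioo u v) = Icc u v := closure_Ioo huv.ne
  have hcont : ContinuousOn (fun z : ℝ × ℝ => |F z.1 - F z.2|) (Icc u v ×ˢ Icc u v) := by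
    have e1 : ContinuousOn (fun z : ℝ × ℝ => F z.1) (Icc u v ×ˢ Icc u v) :=
      hF.comp continuousOn_fst fun z hz => hz.1
    have e2 : ContinuousOn (fun z : ℝ × ℝ => F z.2) (Icc u v ×ˢ Icc u v) :=
      hF.comp continuousOn_snd fun z hz => hz.2
    exact (e1.sub e2).abs
  have hclosed : closure (Ioo u v ×ˢ Ioo u v) = Icc u v ×ˢ Icc u v := by
    rw [closure_prod_eq, hcl]
  rw [← hclosed] at hcont
  have := ContinuousWithinAt.closure_le (s := Ioo u v ×ˢ Ioo u v) (x := (x, y))
    (f := fun z : ℝ × ℝ => |F z.1 - F z.2|) (g := fun _ => C)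
    (by rw [hclosed]; exact ⟨hx, hy⟩)
    ((hcont (x, y) (by rw [hclosed]; exact ⟨hx, hy⟩)).mono subset_closure)
    continuousWithinAt_const (fun z hz => h1' z.1 hz.1 z.2 hz.2)
  exact this

end Pool.Agent.MP_c24d14
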