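import Pool.Agent.Lib.MP_c24d14_lc.GapPrim

/-!
# The Harnack theorem in terms of rational intervals
-/

open Set MeasureTheory Filter Topology

namespace Pool.Agent.MP_c24d14

/-- The `k`-th piece of the level `n` partition of `I`. -/
def piece (I : ℚ × ℚ) (n k : ℕ) : ℚ × ℚ :=
  (I.1 + k * ((I.2 - I.1) / 2 ^ n), I.1 + (k + 1 : ℕ) * ((I.2 - I.1) / 2 ^ n))

lemma piece_fst (I : ℚ × ℚ) (n k : ℕ) : ((piece I n k).1 : ℝ) = pt I.1 I.2 n k := by
  simp [piece, pt]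

lemma piece_snd (I : ℚ × ℚ) (n k : ℕ) : ((piece I n k).2 : ℝ) = pt I.1 I.2 n (k + 1) := by
  simp [piece, pt]

open Classical in
/-- The sum of `Φ` over the pieces of `I` missing `K`. -/
noncomputable def missSum (K : Set ℝ) (Φ : ℚ × ℚ → ℝ) (I : ℚ × ℚ) (n : ℕ) : ℝ :=
  ∑ k ∈ Finset.range (2 ^ n), if Miss K (piece I n k) then Φ (piece I n k) else 0

lemma exists_prim_of_rat {f : ℝ → ℝ} {u v : ℝ} (huv : u < v)
    (hDen : ∀ I : ℚ × ℚ, u < I.1 → I.1 < I.2 → (I.2 : ℝ) < v → DenOn f I.1 I.2)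
    (hU : ∀ ε : ℝ, 0 < ε → ∃ δ : ℝ, 0 < δ ∧ ∀ I : ℚ × ℚ, u < I.1 → I.1 < I.2 → (I.2 : ℝ) < v →
      (I.2 : ℝ) - I.1 < δ → |DI f I.1 I.2| ≤ ε) : ∃ φ, Prim f u v φ := by
  have hgapDen : ∀ x y : ℝ, u < x → x < y → y < v →
      ∃ x' y' : ℚ, u < x' ∧ (x' : ℝ) < x ∧ y < y' ∧ (y' : ℝ) < v ∧ DenOn f x' y' := by
    intro x y h1 h2 h3
    obtain ⟨x', hx1, hx2⟩ := exists_rat_btwn h1
    obtain ⟨y', hy1, hy2⟩ := exists_rat_btwn h3
    have hlt : x' < y' := by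
      have : (x' : ℝ) < y' := hx2.trans (h2.trans hy1)
      exact_mod_cast this
    exact ⟨x', y', hx1, hx2, hy1, hy2, hDen (x', y') hx1 hlt hy2⟩
  refine exists_prim_of_uniform huv ?_ ?_
  · intro x y h1 h2 h3
    obtain ⟨x', y', _, e2, e3, _, e5⟩ := hgapDen x y h1 h2 h3
    exact e5.restrict e2.le e3.le
  · intro ε hε
    obtain ⟨δ, hδ, Hδ⟩ := hU ε hε
    refine ⟨δ, hδ, fun x y h1 h2 h3 hlen => ?_⟩
    set η : ℝ := (δ - (y - x)) / 2 with hη
    have hη0 : 0 < η := by rw [hη]; linarith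
    obtain ⟨s, hs1, hs2⟩ := exists_between (max_lt h1 (show x - η < x by linarith))
    obtain ⟨t, ht1, ht2⟩ := exists_between (lt_min h3 (show y < y + η by linarith))
    have hs3 : u < s := (le_max_left _ _).trans_lt hs1
    have hs4 : x - η < s := (le_max_right _ _).trans_lt hs1
    have ht3 : t < v := ht2.trans_le (min_le_left _ _)
    have ht4 : t < y + η := ht2.trans_le (min_le_right _ _)
    have hst : s < t := hs2.trans (h2.trans ht1)
    obtain ⟨x', y', e1, e2, e3, e4, F, hF⟩ := hgapDen s t hs3 hst ht3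
    have hF' := hF.restrict e2.le e3.le
    have hosc : osc F s t ≤ ε := by
      refine osc_le_of_rat hst hF'.continuousOn fun p q hp hpq hq => ?_
      have hpq' : (p : ℝ) ≤ q := by exact_mod_cast hpq.le
      have := Hδ (p, q) (hs3.trans hp) hpq (hq.trans ht3) (by simp only; linarith)
      simp only at this
      rwa [hF'.DI_eq hp.le hpq' hq.le] at this
    rw [hF'.DI_eq hs2.le h2.le ht1.le]
    exact (abs_sub_le_osc hF'.continuousOn ⟨(hs2.trans h2).le, ht1.le⟩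
      ⟨hs2.le, (h2.trans ht1).le⟩).trans hosc

lemma summable_of_CBound {f : ℝ → ℝ} {K C : Set ℝ} {J : ℚ × ℚ} {φ : ℝ × ℝ → ℝ → ℝ} {N : ℕ}
    (hφ : ∀ g ∈ gaps C, Prim f g.1 g.2 (φ g))
    (hgapI : ∀ g ∈ gaps C, ∀ I : ℚ × ℚ, g.1 < I.1 → I.1 < I.2 → (I.2 : ℝ) < g.2 →
      Sub J I ∧ Miss K I)
    (hgapK : ∀ g ∈ gaps C, ∀ g' ∈ gaps C, g.2 ≤ g'.1 → g.2 ∈ K)
    (hCB : CBound K (fun I => DI f I.1 I.2) J N) :
    Summable (fun p : gaps C => osc (φ p) p.1.1 p.1.2) := by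
  classical
  refine summable_of_sum_le (c := N) (fun p => osc_nonneg _ _ _) fun T => ?_
  refine le_of_forall_pos_le_add fun ε hε => ?_
  obtain ⟨η, hη0, hη⟩ : ∃ η : ℝ, 0 < η ∧ (T.card : ℝ) * η ≤ ε := by
    refine ⟨ε / (T.card + 1), by positivity, ?_⟩
    rw [mul_div_assoc', div_le_iff₀ (by positivity)]
    nlinarith
  have hex : ∀ g : gaps C, ∃ x y : ℚ, g.1.1 < x ∧ x < y ∧ (y : ℝ) < g.1.2 ∧
      osc (φ g) g.1.1 g.1.2 - η < |φ g y - φ g x| := by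
    intro g
    by_contra hcon
    push Not at hcon
    have := osc_le_of_rat g.2.1 (hφ g g.2).continuousOn
      (C := osc (φ g) g.1.1 g.1.2 - η) fun x y h1 h2 h3 => hcon x y h1 h2 h3
    linarith
  choose x y h1 h2 h3 h4 using hex
  have h2' : ∀ g, (x g : ℝ) < y g := fun g => by exact_mod_cast h2 g
  have hinj : ∀ g ∈ T, ∀ g' ∈ T, (x g, y g) = (x g', y g') → g = g' := by
    intro g _ g' _ heq
    by_contra hne
    rw [Prod.mk.injEq] at heq
    have e1 : (x g : ℝ) = x g' := by rw [heq.1]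
    have e2 : (y g : ℝ) = y g' := by rw [heq.2]
    rcases gaps_nonoverlap g.2 g'.2 (fun e => hne (Subtype.ext e)) with h | h
    · linarith [h1 g', h3 g, h2' g]
    · linarith [h1 g, h3 g', h2' g]
  have key : ∀ g g' : gaps C, g.1.2 ≤ g'.1.1 →
      g.1.2 ∈ K ∧ (x g : ℝ) < g.1.2 ∧ g.1.2 < y g' := fun g g' h =>
    ⟨hgapK g g.2 g' g'.2 h, (h2' g).trans (h3 g), h.trans_lt ((h1 g').trans (h2' g'))⟩
  have hsep : Sep K J (T.image fun g => (x g, y g)) := by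
    constructor
    · intro I hI
      obtain ⟨g, _, rfl⟩ := Finset.mem_image.mp hI
      exact hgapI g g.2 _ (h1 g) (h2 g) (h3 g)
    · intro I hI L hL hne hmiss
      obtain ⟨g, _, rfl⟩ := Finset.mem_image.mp hI
      obtain ⟨g', _, rfl⟩ := Finset.mem_image.mp hL
      have hgg : (g : ℝ × ℝ) ≠ g' := by
        intro e
        apply hne
        rw [Subtype.ext e]
      rcases gaps_nonoverlap g.2 g'.2 hgg with h | h
      · obtain ⟨k1, k2, k3⟩ := key g g' h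
        refine hmiss _ k1 ⟨?_, ?_⟩
        · simp only [hull]; push_cast; exact (min_le_left _ _).trans k2.le
        · simp only [hull]; push_cast; exact k3.le.trans (le_max_right _ _)
      · obtain ⟨k1, k2, k3⟩ := key g' g h
        refine hmiss _ k1 ⟨?_, ?_⟩
        · simp only [hull]; push_cast; exact (min_le_right _ _).trans k2.le
        · simp only [hull]; push_cast; exact k3.le.trans (le_max_left _ _)
  have hbound := hCB _ hsep
  rw [Finset.sum_image hinj] at hbound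
  have hval : ∀ g ∈ T, |DI f (x g : ℝ) (y g)| = |φ g (y g) - φ g (x g)| := fun g _ => by
    rw [(hφ g g.2).DI_eq (h1 g).le (h2' g).le (h3 g).le]
  have hle : ∑ g ∈ T, (osc (φ g) g.1.1 g.1.2 - η) ≤ N :=
    (Finset.sum_le_sum fun g hg => (h4 g).le.trans (hval g hg).symm.le).trans hbound
  rw [Finset.sum_sub_distrib, Finset.sum_const, nsmul_eq_mul] at hle
  linarith

theorem harn {f : ℝ → ℝ} {K : Set ℝ} (hf : Measurable f) (hK : IsClosed K) {J : ℚ × ℚ}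
    (hJ : J.1 < J.2) (hDen : ∀ I : ℚ × ℚ, Sub J I → Miss K I → DenOn f I.1 I.2)
    (hgood : Good f K (fun I => DI f I.1 I.2) J) :
    DenOn f J.1 J.2 ∧ ∀ I : ℚ × ℚ, J.1 < I.1 → I.1 < I.2 → I.2 < J.2 →
      Tendsto (missSum K (fun I => DI f I.1 I.2) I) atTop
        (𝓝 (DI f I.1 I.2 - ∫ x in K ∩ Icc (I.1 : ℝ) I.2, f x)) := by
  obtain ⟨⟨N, hA, hCB⟩, hUC⟩ := hgood
  obtain ⟨c, hc⟩ : ∃ c : ℝ, c = (J.1 : ℝ) := ⟨_, rfl⟩
  obtain ⟨d, hd⟩ : ∃ d : ℝ, d = (J.2 : ℝ) := ⟨_, rfl⟩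
  have hcd : c < d := by rw [hc, hd]; exact_mod_cast hJ
  obtain ⟨C, hC⟩ : ∃ C : Set ℝ, C = (K ∩ Icc c d) ∪ {c, d} := ⟨_, rfl⟩
  have hCclosed : IsClosed C := by
    rw [hC]
    exact (hK.inter isClosed_Icc).union (Set.Finite.isClosed (by simp))
  have hCsub : C ⊆ Icc c d := by
    rw [hC]
    rintro x (hx | hx | hx)
    · exact hx.2
    · rw [hx]; exact left_mem_Icc.mpr hcd.le
    · rw [mem_singleton_iff] at hx; rw [hx]; exact right_mem_Icc.mpr hcd.le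
  have hcC : c ∈ C := by rw [hC]; exact Or.inr (by simp)
  have hdC : d ∈ C := by rw [hC]; exact Or.inr (by simp)
  have hCK : ∀ x ∈ C, c < x → x < d → x ∈ K := by
    rw [hC]
    rintro x (hx | hx | hx) h1 h2
    · exact hx.1
    · rw [hx] at h1; exact absurd h1 (lt_irrefl _)
    · rw [mem_singleton_iff] at hx; rw [hx] at h2; exact absurd h2 (lt_irrefl _)
  have hKC : ∀ x ∈ K, c ≤ x → x ≤ d → x ∈ C := fun x hx h1 h2 => by
    rw [hC]; exact Or.inl ⟨hx, h1, h2⟩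
  have hint : IntegrableOn f C := by
    rw [hC, integrableOn_union]
    refine ⟨⟨hf.aestronglyMeasurable, ?_⟩, ?_⟩
    · rw [hc, hd]
      exact lt_of_le_of_lt hA (ENNReal.natCast_lt_top N)
    · have h1 : ({c, d} : Set ℝ) = {c} ∪ {d} := rfl
      rw [h1, integrableOn_union, integrableOn_singleton_iff, integrableOn_singleton_iff]
      simp
  have hgapc : ∀ g ∈ gaps C, c ≤ g.1 ∧ g.2 ≤ d := fun g hg =>
    ⟨(hCsub hg.2.1).1, (hCsub hg.2.2.1).2⟩
  have hgapI : ∀ g ∈ gaps C, ∀ I : ℚ × ℚ, g.1 < I.1 → I.1 < I.2 → (I.2 : ℝ) < g.2 →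
      Sub J I ∧ Miss K I := by
    intro g hg I h1 h2 h3
    obtain ⟨k1, k2⟩ := hgapc g hg
    refine ⟨⟨?_, h2, ?_⟩, ?_⟩
    · have : (J.1 : ℝ) ≤ I.1 := hc ▸ (k1.trans h1.le)
      exact_mod_cast this
    · have : (I.2 : ℝ) ≤ J.2 := hd ▸ (h3.le.trans k2)
      exact_mod_cast this
    · rintro x hx ⟨e1, e2⟩
      exact hg.2.2.2 x ⟨h1.trans_le e1, e2.trans_lt h3⟩
        (hKC x hx (k1.trans (h1.le.trans e1)) (e2.trans (h3.le.trans k2)))
  have hprimgap : ∀ g : ℝ × ℝ, g ∈ gaps C → ∃ φ, Prim f g.1 g.2 φ := by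
    intro g hg
    refine exists_prim_of_rat hg.1 ?_ ?_
    · intro I h1 h2 h3
      obtain ⟨k1, k2⟩ := hgapI g hg I h1 h2 h3
      exact hDen I k1 k2
    · intro ε hε
      obtain ⟨m, hm⟩ := exists_nat_one_div_lt hε
      obtain ⟨l, hl⟩ := hUC m
      refine ⟨1 / ((l : ℝ) + 1), by positivity, fun I h1 h2 h3 hlen => ?_⟩
      obtain ⟨k1, k2⟩ := hgapI g hg I h1 h2 h3
      exact (hl I k1 k2 (by push_cast; exact hlen)).trans hm.le
  choose! φ hφ using hprimgap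
  have hsumm : Summable (fun p : gaps C => osc (φ p) p.1.1 p.1.2) := by
    refine summable_of_CBound hφ hgapI (fun g hg g' hg' h => hCK _ hg.2.2.1 ?_ ?_) hCB
    · exact (hgapc g hg).1.trans_lt hg.1
    · exact h.trans_lt (hg'.1.trans_le (hgapc g' hg').2)
  have H : HData f c d C φ := ⟨hcd, hCclosed, hCsub, hcC, hdC, hint, hφ, hsumm⟩
  have hG := H.prim_G
  rw [← hc, ← hd]
  refine ⟨⟨H.G, hG⟩, fun I hI1 hI2 hI3 => ?_⟩
  have hI1' : c < I.1 := by rw [hc]; exact_mod_cast hI1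
  have hI2' : (I.1 : ℝ) < I.2 := by exact_mod_cast hI2
  have hI3' : (I.2 : ℝ) < d := by rw [hd]; exact_mod_cast hI3
  have h1 := H.tendsto_sum_missed hI2'
  rw [H.G2_sub_eq hI2'.le] at h1
  have h2 : C ∩ Icc (I.1 : ℝ) I.2 = K ∩ Icc (I.1 : ℝ) I.2 := by
    ext x
    constructor
    · rintro ⟨hx1, hx2⟩
      exact ⟨hCK x hx1 (hI1'.trans_le hx2.1) (hx2.2.trans_lt hI3'), hx2⟩
    · rintro ⟨hx1, hx2⟩
      exact ⟨hKC x hx1 (hI1'.le.trans hx2.1) (hx2.2.trans hI3'.le), hx2⟩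
  rw [h2, ← hG.DI_eq hI1'.le hI2'.le hI3'.le] at h1
  refine h1.congr fun n => ?_
  unfold missSum
  refine Finset.sum_congr rfl fun k hk => ?_
  rw [Finset.mem_range] at hk
  have hm := pt_strictMono hI2' n (Nat.lt_succ_self k)
  have ha : (I.1 : ℝ) ≤ pt I.1 I.2 n k := le_pt hI2'.le n k
  have hb : pt I.1 I.2 n (k + 1) ≤ I.2 := pt_le hI2'.le hk
  have hiff : (∀ t ∈ C, ¬ (pt I.1 I.2 n k ≤ t ∧ t ≤ pt I.1 I.2 n (k + 1))) ↔
      Miss K (piece I n k) := by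
    unfold Miss
    rw [piece_fst, piece_snd]
    constructor
    · intro h t ht ht2
      exact h t (hKC t ht (hI1'.le.trans (ha.trans ht2.1)) (ht2.2.trans (hb.trans hI3'.le))) ht2
    · intro h t ht ht2
      exact h t (hCK t ht (hI1'.trans_le (ha.trans ht2.1)) (ht2.2.trans_lt (hb.trans_lt hI3')))
        ht2
  by_cases hmiss : Miss K (piece I n k)
  · rw [if_pos hmiss, if_pos (hiff.mpr hmiss)]
    beta_reduce
    rw [piece_fst, piece_snd, hG.DI_eq (hI1'.le.trans ha) hm.le (hb.trans hI3'.le)]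
  · rw [if_neg hmiss, if_neg (fun h => hmiss (hiff.mp h))]

end Pool.Agent.MP_c24d14
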