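import Pool.Agent.Lib.MP_c24d14_lc.Portion

/-!
# The Harnack extension
-/

open Set MeasureTheory Filter Topology

namespace Pool.Agent.MP_c24d14

/-- Data for the Harnack extension: a closed set `C ⊆ [c, d]` containing `c, d`, on which `f` is
integrable, and primitives `φ p` of `f` on the gaps `p` of `C` with summable oscillations. -/
structure HData (f : ℝ → ℝ) (c d : ℝ) (C : Set ℝ) (φ : ℝ × ℝ → ℝ → ℝ) : Prop where
  hcd : c < d
  closed : IsClosed C
  sub : C ⊆ Icc c d
  hc : c ∈ C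
  hd : d ∈ C
  int : IntegrableOn f C
  prim : ∀ p ∈ gaps C, Prim f p.1 p.2 (φ p)
  summ : Summable (fun p : gaps C => osc (φ p) p.1.1 p.1.2)

/-- The contribution of the gap `p`. -/
noncomputable def psi (φ : ℝ × ℝ → ℝ → ℝ) (p : ℝ × ℝ) (x : ℝ) : ℝ :=
  φ p (max p.1 (min x p.2)) - φ p p.1

lemma clamp_mem {p : ℝ × ℝ} (hp : p.1 < p.2) (x : ℝ) : max p.1 (min x p.2) ∈ Icc p.1 p.2 :=
  ⟨le_max_left _ _, max_le hp.le (min_le_right _ _)⟩

lemma psi_of_le {φ : ℝ × ℝ → ℝ → ℝ} {p : ℝ × ℝ} {x : ℝ} (hx : x ≤ p.1) :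
    psi φ p x = 0 := by
  have : max p.1 (min x p.2) = p.1 := max_eq_left ((min_le_left _ _).trans hx)
  simp [psi, this]

lemma psi_of_ge {φ : ℝ × ℝ → ℝ → ℝ} {p : ℝ × ℝ} {x : ℝ} (hp : p.1 < p.2) (hx : p.2 ≤ x) :
    psi φ p x = φ p p.2 - φ p p.1 := by
  have : max p.1 (min x p.2) = p.2 := by rw [min_eq_right hx, max_eq_right hp.le]
  simp [psi, this]

lemma psi_of_mem {φ : ℝ × ℝ → ℝ → ℝ} {p : ℝ × ℝ} {x : ℝ} (hx : x ∈ Icc p.1 p.2) :
    psi φ p x = φ p x - φ p p.1 := by
  have : max p.1 (min x p.2) = x := by rw [min_eq_left hx.2, max_eq_right hx.1]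
  simp [psi, this]

lemma psi_continuous {φ : ℝ × ℝ → ℝ → ℝ} {p : ℝ × ℝ} (hp : p.1 < p.2)
    (h : ContinuousOn (φ p) (Icc p.1 p.2)) : Continuous (psi φ p) := by
  have h1 : Continuous fun x : ℝ => max p.1 (min x p.2) :=
    continuous_const.max (continuous_id.min continuous_const)
  exact (h.comp_continuous h1 (clamp_mem hp)).sub continuous_const

lemma psi_sub_le {φ : ℝ × ℝ → ℝ → ℝ} {p : ℝ × ℝ} (hp : p.1 < p.2)
    (h : ContinuousOn (φ p) (Icc p.1 p.2)) (x y : ℝ) :
    |psi φ p x - psi φ p y| ≤ osc (φ p) p.1 p.2 := by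
  have := abs_sub_le_osc h (clamp_mem hp x) (clamp_mem hp y)
  simpa [psi] using this

lemma psi_eq_of_le {φ : ℝ × ℝ → ℝ → ℝ} {p : ℝ × ℝ} {x y : ℝ} (hx : x ≤ p.1) (hy : y ≤ p.1) :
    psi φ p x - psi φ p y = 0 := by
  rw [psi_of_le hx, psi_of_le hy, sub_self]

lemma psi_eq_of_ge {φ : ℝ × ℝ → ℝ → ℝ} {p : ℝ × ℝ} {x y : ℝ} (hp : p.1 < p.2) (hx : p.2 ≤ x)
    (hy : p.2 ≤ y) : psi φ p x - psi φ p y = 0 := by
  rw [psi_of_ge hp hx, psi_of_ge hp hy, sub_self]

namespace HData

variable {f : ℝ → ℝ} {c d : ℝ} {C : Set ℝ} {φ : ℝ × ℝ → ℝ → ℝ}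

lemma cont (H : HData f c d C φ) (p : gaps C) : ContinuousOn (φ p) (Icc p.1.1 p.1.2) :=
  (H.prim p p.2).continuousOn

lemma psi_abs_le (H : HData f c d C φ) (p : gaps C) (x : ℝ) :
    |psi φ p x| ≤ osc (φ p) p.1.1 p.1.2 := by
  have := psi_sub_le p.2.1 (H.cont p) x p.1.1
  rwa [psi_of_le le_rfl, sub_zero] at this

lemma summable_psi (H : HData f c d C φ) (x : ℝ) : Summable fun p : gaps C => psi φ p x :=
  Summable.of_norm_bounded H.summ fun p => H.psi_abs_le p x

lemma summable_psi_sub (H : HData f c d C φ) (x y : ℝ) :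
    Summable fun p : gaps C => psi φ p x - psi φ p y :=
  (H.summable_psi x).sub (H.summable_psi y)

/-- The part of the extension coming from the gaps. -/
noncomputable def G2 (_ : HData f c d C φ) (x : ℝ) : ℝ := ∑' p : gaps C, psi φ p x

/-- The part of the extension coming from `C`. -/
noncomputable def G1 (_ : HData f c d C φ) (x : ℝ) : ℝ := ∫ t in c..x, C.indicator f t

/-- The Harnack extension. -/
noncomputable def G (H : HData f c d C φ) (x : ℝ) : ℝ := H.G1 x + H.G2 x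

lemma G2_sub (H : HData f c d C φ) (x y : ℝ) :
    H.G2 x - H.G2 y = ∑' p : gaps C, (psi φ p x - psi φ p y) :=
  ((H.summable_psi x).tsum_sub (H.summable_psi y)).symm

lemma continuous_G2 (H : HData f c d C φ) : Continuous H.G2 :=
  continuous_tsum (fun p => psi_continuous p.2.1 (H.cont p)) H.summ fun p x => H.psi_abs_le p x

lemma integrable_ind (H : HData f c d C φ) : Integrable (C.indicator f) :=
  (integrable_indicator_iff H.closed.measurableSet).mpr H.int

lemma continuous_G1 (H : HData f c d C φ) : Continuous H.G1 :=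
  intervalIntegral.continuous_primitive (fun _ _ => H.integrable_ind.intervalIntegrable) c

lemma continuous_G (H : HData f c d C φ) : Continuous H.G := H.continuous_G1.add H.continuous_G2

lemma G1_sub (H : HData f c d C φ) (x y : ℝ) :
    H.G1 y - H.G1 x = ∫ t in x..y, C.indicator f t :=
  intervalIntegral.integral_interval_sub_left H.integrable_ind.intervalIntegrable
    H.integrable_ind.intervalIntegrable

/-- On an interval whose interior misses `C`, `G1` is constant. -/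
lemma G1_eq (H : HData f c d C φ) {x y : ℝ} (hxy : x ≤ y) (h : ∀ t ∈ Ioo x y, t ∉ C) :
    H.G1 y - H.G1 x = 0 := by
  rw [H.G1_sub, intervalIntegral.integral_of_le hxy, integral_Ioc_eq_integral_Ioo]
  refine (setIntegral_congr_fun measurableSet_Ioo fun t ht => ?_).trans (integral_zero _ _)
  exact indicator_of_notMem (h t ht) _

/-- On a gap `p`, the extension agrees with `φ p` up to a constant. -/
lemma G_sub_gap (H : HData f c d C φ) {p : ℝ × ℝ} (hp : p ∈ gaps C) {x y : ℝ}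
    (hx : x ∈ Icc p.1 p.2) (hy : y ∈ Icc p.1 p.2) : H.G y - H.G x = φ p y - φ p x := by
  wlog hxy : x ≤ y generalizing x y with hw
  · have := hw hy hx (le_of_not_ge hxy)
    linarith
  have h1 : H.G1 y - H.G1 x = 0 := H.G1_eq hxy fun t ht =>
    hp.2.2.2 t ⟨hx.1.trans_lt ht.1, ht.2.trans_le hy.2⟩
  have h2 : H.G2 y - H.G2 x = φ p y - φ p x := by
    rw [H.G2_sub, tsum_eq_single (⟨p, hp⟩ : gaps C)]
    · simp only
      rw [psi_of_mem hx, psi_of_mem hy]; ring
    · intro q hq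
      have hne : (q : ℝ × ℝ) ≠ p := fun e => hq (Subtype.ext e)
      rcases gaps_nonoverlap q.2 hp hne with h | h
      · exact psi_eq_of_ge q.2.1 (h.trans hy.1) (h.trans hx.1)
      · exact psi_eq_of_le (hy.2.trans h) (hx.2.trans h)
  simp only [G]; linarith

end HData

/-! ### `AC_*` of an indefinite Lebesgue integral -/

lemma ACStar_integral {g : ℝ → ℝ} (hg : Integrable g) (c : ℝ) (K : Set ℝ) :
    ACStar (fun x => ∫ t in c..x, g t) K := by
  intro ε hε
  have hfin : ∫⁻ x, ‖g x‖ₑ ≠ ⊤ := hg.2.ne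
  obtain ⟨δ', hδ', H⟩ := exists_pos_setLIntegral_lt_of_measure_lt hfin
    (ε := ENNReal.ofReal ε) (by simpa using hε)
  obtain ⟨δ, hδ, hδδ⟩ : ∃ δ : ℝ, 0 < δ ∧ ENNReal.ofReal δ ≤ δ' := by
    rcases eq_or_ne δ' ⊤ with h | h
    · exact ⟨1, one_pos, h ▸ le_top⟩
    · exact ⟨δ'.toReal, ENNReal.toReal_pos hδ'.ne' h, by rw [ENNReal.ofReal_toReal h]⟩
  refine ⟨δ, hδ, fun D hD hs => ?_⟩
  have hosc : ∀ J ∈ D, osc (fun x => ∫ t in c..x, g t) J.1 J.2 ≤
      (∫⁻ x in Ioo J.1 J.2, ‖g x‖ₑ).toReal := by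
    intro J hJ
    refine osc_le ENNReal.toReal_nonneg ?_
    intro x hx y hy
    wlog hxy : y ≤ x generalizing x y with hw
    · have := hw y hy x hx (le_of_not_ge hxy)
      rwa [abs_sub_comm] at this
    rw [intervalIntegral.integral_interval_sub_left hg.intervalIntegrable
      hg.intervalIntegrable, intervalIntegral.integral_of_le hxy, integral_Ioc_eq_integral_Ioo]
    have h1 : |∫ t in Ioo y x, g t| ≤ (∫⁻ t in Ioo y x, ‖g t‖ₑ).toReal := by
      have := enorm_integral_le_lintegral_enorm (μ := volume.restrict (Ioo y x)) g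
      have h2 := ENNReal.toReal_mono
        (ne_top_of_le_ne_top hfin (setLIntegral_le_lintegral _ _)) this
      simpa using h2
    refine h1.trans (ENNReal.toReal_mono
      (ne_top_of_le_ne_top hfin (setLIntegral_le_lintegral _ _)) ?_)
    exact lintegral_mono_set (Ioo_subset_Ioo hy.1 hx.2)
  have hdisj : (D : Set (ℝ × ℝ)).PairwiseDisjoint fun J => Ioo J.1 J.2 := by
    intro i hi j hj hij
    rw [Function.onFun, Set.disjoint_left]
    rintro x ⟨h1, h2⟩ ⟨h3, h4⟩
    rcases hD.2.2 i hi j hj hij with h' | h' <;> linarith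
  have hvol : volume (⋃ J ∈ D, Ioo J.1 J.2) < δ' := by
    rw [measure_biUnion_finset hdisj fun i _ => measurableSet_Ioo]
    simp only [Real.volume_Ioo]
    rw [← ENNReal.ofReal_sum_of_nonneg (fun i hi => sub_nonneg.mpr (hD.2.1 i hi).2.2.le)]
    exact ((ENNReal.ofReal_lt_ofReal_iff hδ).mpr hs).trans_le hδδ
  have h3 := H _ hvol
  rw [lintegral_biUnion_finset hdisj fun i _ => measurableSet_Ioo] at h3
  calc ∑ J ∈ D, osc (fun x => ∫ t in c..x, g t) J.1 J.2
      ≤ ∑ J ∈ D, (∫⁻ x in Ioo J.1 J.2, ‖g x‖ₑ).toReal := Finset.sum_le_sum hosc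
    _ = (∑ J ∈ D, ∫⁻ x in Ioo J.1 J.2, ‖g x‖ₑ).toReal := by
        rw [ENNReal.toReal_sum]
        exact fun J _ => ne_top_of_le_ne_top hfin (setLIntegral_le_lintegral _ _)
    _ < ε := by
        rw [← ENNReal.toReal_ofReal hε.le]
        exact (ENNReal.toReal_lt_toReal (ne_top_of_lt h3) ENNReal.ofReal_ne_top).mpr h3

lemma exists_pos_le_finset {ι : Type*} (T : Finset ι) (w : ι → ℝ) (h : ∀ i ∈ T, 0 < w i) :
    ∃ δ : ℝ, 0 < δ ∧ ∀ i ∈ T, δ ≤ w i := by
  classical
  induction T using Finset.induction_on with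
  | empty => exact ⟨1, one_pos, by simp⟩
  | insert i T _ ih =>
    obtain ⟨δ, hδ, H⟩ := ih fun j hj => h j (Finset.mem_insert_of_mem hj)
    refine ⟨min δ (w i), lt_min hδ (h i (Finset.mem_insert_self _ _)), fun j hj => ?_⟩
    rcases Finset.mem_insert.mp hj with rfl | hj
    · exact min_le_right _ _
    · exact (min_le_left _ _).trans (H j hj)

namespace HData

variable {f : ℝ → ℝ} {c d : ℝ} {C : Set ℝ} {φ : ℝ × ℝ → ℝ → ℝ}

lemma ACStar_G1 (H : HData f c d C φ) : ACStar H.G1 C := ACStar_integral H.integrable_ind c C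

lemma ACStar_G2 (H : HData f c d C φ) : ACStar H.G2 C := by
  classical
  intro ε hε
  set ω : gaps C → ℝ := fun p => osc (φ p) p.1.1 p.1.2 with hω
  have hω0 : ∀ p, 0 ≤ ω p := fun p => osc_nonneg _ _ _
  obtain ⟨T, hT⟩ := H.summ.vanishing (Metric.ball_mem_nhds (0 : ℝ) (half_pos hε))
  obtain ⟨δ, hδ, Hδ⟩ := exists_pos_le_finset T (fun p => p.1.2 - p.1.1)
    (fun p _ => sub_pos.mpr p.2.1)
  refine ⟨δ, hδ, fun D hD hs => ?_⟩
  -- gaps are inside or outside of the intervals of `D`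
  have hin : ∀ J ∈ D, ∀ p : gaps C, (J.1 ≤ p.1.1 ∧ p.1.2 ≤ J.2) ∨ p.1.2 ≤ J.1 ∨ J.2 ≤ p.1.1 := by
    intro J hJ p
    obtain ⟨h1, h2, h3⟩ := hD.2.1 J hJ
    by_contra hcon
    push Not at hcon
    obtain ⟨k1, k2, k3⟩ := hcon
    have e1 : ¬ (p.1.1 < J.1) := fun h => p.2.2.2.2 J.1 ⟨h, k2⟩ h1
    have e2 : ¬ (J.2 < p.1.2) := fun h => p.2.2.2.2 J.2 ⟨k3, h⟩ h2
    exact absurd (k1 (not_lt.mp e1)) (not_lt.mpr (not_lt.mp e2))
  have hosc : ∀ J ∈ D, osc H.G2 J.1 J.2 ≤
      ∑' p : gaps C, if J.1 ≤ p.1.1 ∧ p.1.2 ≤ J.2 then ω p else 0 := by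
    intro J hJ
    have hs1 : Summable fun p : gaps C => if J.1 ≤ p.1.1 ∧ p.1.2 ≤ J.2 then ω p else 0 := by
      refine Summable.of_nonneg_of_le (fun p => ?_) (fun p => ?_) H.summ
      · split_ifs; exacts [hω0 p, le_rfl]
      · split_ifs; exacts [le_rfl, hω0 p]
    refine osc_le (tsum_nonneg fun p => by split_ifs; exacts [hω0 p, le_rfl]) ?_
    intro x hx y hy
    rw [H.G2_sub]
    have hs2 : Summable fun p : gaps C => |psi φ p x - psi φ p y| :=
      (H.summable_psi_sub x y).abs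
    refine le_trans (norm_tsum_le_tsum_norm (f := fun p : gaps C => psi φ p x - psi φ p y)
      hs2) ?_
    refine Summable.tsum_le_tsum (fun p => ?_) hs2 hs1
    split_ifs with h
    · exact psi_sub_le p.2.1 (H.cont p) x y
    · rw [Real.norm_eq_abs]
      rcases (hin J hJ p).resolve_left h with h' | h'
      · rw [psi_eq_of_ge p.2.1 (h'.trans hx.1) (h'.trans hy.1), abs_zero]
      · rw [psi_eq_of_le (hx.2.trans h') (hy.2.trans h'), abs_zero]
  have hlen : ∀ J ∈ D, J.2 - J.1 < δ := fun J hJ =>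
    lt_of_le_of_lt (Finset.single_le_sum (f := fun J : ℝ × ℝ => J.2 - J.1)
      (fun L hL => sub_nonneg.mpr (hD.2.1 L hL).2.2.le) hJ) hs
  calc ∑ J ∈ D, osc H.G2 J.1 J.2
      ≤ ∑ J ∈ D, ∑' p : gaps C, (if J.1 ≤ p.1.1 ∧ p.1.2 ≤ J.2 then ω p else 0) :=
        Finset.sum_le_sum hosc
    _ = ∑' p : gaps C, ∑ J ∈ D, (if J.1 ≤ p.1.1 ∧ p.1.2 ≤ J.2 then ω p else 0) := by
        refine (Summable.tsum_finsetSum fun J _ => ?_).symm
        refine Summable.of_nonneg_of_le (fun p => ?_) (fun p => ?_) H.summ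
        · split_ifs; exacts [hω0 p, le_rfl]
        · split_ifs; exacts [le_rfl, hω0 p]
    _ ≤ ε / 2 := by
        refine Real.tsum_le_of_sum_le (fun p => Finset.sum_nonneg fun J _ => by
          split_ifs; exacts [hω0 p, le_rfl]) fun S => ?_
        have hle : ∀ p ∈ S, ∑ J ∈ D, (if J.1 ≤ p.1.1 ∧ p.1.2 ≤ J.2 then ω p else 0) ≤
            if p ∈ T then 0 else ω p := by
          intro p _
          split_ifs with hpT
          · refine le_of_eq (Finset.sum_eq_zero fun J hJ => ?_)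
            rw [if_neg]
            rintro ⟨h1, h2⟩
            have := Hδ p hpT
            have := hlen J hJ
            linarith
          · have : ∀ J ∈ D, ∀ L ∈ D, (J.1 ≤ p.1.1 ∧ p.1.2 ≤ J.2) → (L.1 ≤ p.1.1 ∧ p.1.2 ≤ L.2) →
                J = L := by
              intro J hJ L hL h1 h2
              by_contra hne
              have hp := p.2.1
              rcases hD.2.2 J hJ L hL hne with h | h
              · linarith [h1.2, h2.1]
              · linarith [h1.1, h2.2]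
            rw [← Finset.sum_filter]
            have hcard : (D.filter fun J => J.1 ≤ p.1.1 ∧ p.1.2 ≤ J.2).card ≤ 1 := by
              rw [Finset.card_le_one]
              intro J hJ L hL
              rw [Finset.mem_filter] at hJ hL
              exact this J hJ.1 L hL.1 hJ.2 hL.2
            rw [Finset.sum_const, nsmul_eq_mul]
            calc _ ≤ 1 * ω p := mul_le_mul_of_nonneg_right (by exact_mod_cast hcard) (hω0 p)
              _ = ω p := one_mul _
        refine (Finset.sum_le_sum hle).trans ?_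
        have h4 : ∑ p ∈ S, (if p ∈ T then 0 else ω p) = ∑ p ∈ S \ T, ω p := by
          rw [Finset.sum_ite, Finset.sum_const_zero, zero_add, Finset.sdiff_eq_filter]
        rw [h4]
        have h5 := hT (S \ T) Finset.sdiff_disjoint
        rw [mem_ball_zero_iff, Real.norm_eq_abs] at h5
        exact (le_abs_self _).trans h5.le
    _ < ε := by linarith

lemma ACStar_G (H : HData f c d C φ) : ACStar H.G C :=
  H.ACStar_G1.add H.ACStar_G2 H.sub H.continuous_G1.continuousOn H.continuous_G2.continuousOn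

end HData

end Pool.Agent.MP_c24d14
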