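import Pool.Agent.Lib.MP_c24d14_lc.Harnack

/-!
# The Harnack extension is a Denjoy primitive
-/

open Set MeasureTheory Filter Topology

namespace Pool.Agent.MP_c24d14

namespace HData

variable {f : ℝ → ℝ} {c d : ℝ} {C : Set ℝ} {φ : ℝ × ℝ → ℝ → ℝ}

/-- The atomic measure carried by the endpoints of the gaps. -/
noncomputable def nu (_ : HData f c d C φ) : Measure ℝ :=
  Measure.sum fun p : gaps C => ENNReal.ofReal (osc (φ p) p.1.1 p.1.2) •
    (Measure.dirac p.1.1 + Measure.dirac p.1.2)

lemma nu_apply (H : HData f c d C φ) {s : Set ℝ} (hs : MeasurableSet s) :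
    H.nu s = ∑' p : gaps C, ENNReal.ofReal (osc (φ p) p.1.1 p.1.2) *
      (s.indicator 1 p.1.1 + s.indicator 1 p.1.2) := by
  rw [nu, Measure.sum_apply _ hs]
  refine tsum_congr fun p => ?_
  rw [Measure.smul_apply, Measure.add_apply, Measure.dirac_apply' _ hs,
    Measure.dirac_apply' _ hs, smul_eq_mul]

lemma isFiniteMeasure_nu (H : HData f c d C φ) : IsFiniteMeasure H.nu := by
  constructor
  rw [H.nu_apply MeasurableSet.univ]
  simp only [indicator_univ, Pi.one_apply]
  rw [ENNReal.tsum_mul_right]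
  refine ENNReal.mul_lt_top ?_ (by norm_num)
  have := H.summ.tsum_ofReal_lt_top
  exact this

lemma nu_singular (H : HData f c d C φ) : H.nu ⟂ₘ volume := by
  have : Countable (gaps C) := (gaps_countable C).to_subtype
  rw [nu, Measure.MutuallySingular.sum_left]
  intro p
  exact ((mutuallySingular_dirac _ _).add_left (mutuallySingular_dirac _ _)).smul _

lemma enorm_G2_sub_le (H : HData f c d C φ) {x : ℝ} (hx : x ∈ C) (y : ℝ) :
    ‖H.G2 y - H.G2 x‖ₑ ≤ H.nu (Metric.closedBall x |y - x|) := by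
  rw [H.G2_sub, H.nu_apply Metric.isClosed_closedBall.measurableSet]
  refine enorm_tsum_le_tsum_enorm.trans (ENNReal.tsum_le_tsum fun p => ?_)
  have hxp : x ≤ p.1.1 ∨ p.1.2 ≤ x := by
    by_contra hcon
    push Not at hcon
    exact p.2.2.2.2 x hcon hx
  have hle : ‖psi φ p y - psi φ p x‖ₑ ≤ ENNReal.ofReal (osc (φ p) p.1.1 p.1.2) := by
    rw [Real.enorm_eq_ofReal_abs]
    exact ENNReal.ofReal_le_ofReal (psi_sub_le p.2.1 (H.cont p) y x)
  rcases hxp with hxp | hxp
  · rcases le_or_gt y p.1.1 with hy | hy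
    · rw [psi_eq_of_le hy hxp]; simp
    · have hmem : p.1.1 ∈ Metric.closedBall x |y - x| := by
        rw [Metric.mem_closedBall, Real.dist_eq, abs_of_nonneg (by linarith),
          abs_of_nonneg (by linarith)]
        linarith
      rw [indicator_of_mem hmem, Pi.one_apply]
      calc _ ≤ ENNReal.ofReal (osc (φ p) p.1.1 p.1.2) * 1 := by rw [mul_one]; exact hle
        _ ≤ _ := by gcongr; exact le_self_add
  · rcases le_or_gt p.1.2 y with hy | hy
    · rw [psi_eq_of_ge p.2.1 hy hxp]; simp
    · have hmem : p.1.2 ∈ Metric.closedBall x |y - x| := by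
        rw [Metric.mem_closedBall, Real.dist_eq, abs_of_nonpos (by linarith),
          abs_of_nonpos (by linarith)]
        linarith
      rw [indicator_of_mem hmem, Pi.one_apply]
      calc _ ≤ ENNReal.ofReal (osc (φ p) p.1.1 p.1.2) * 1 := by rw [mul_one]; exact hle
        _ ≤ _ := by gcongr; exact le_add_self

lemma ae_hasDerivAt_G2 (H : HData f c d C φ) : ∀ᵐ x, x ∈ C → HasDerivAt H.G2 0 x := by
  have := H.isFiniteMeasure_nu
  filter_upwards [VitaliFamily.ae_eventually_measure_zero_of_singular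
    (Besicovitch.vitaliFamily volume) H.nu_singular] with x hx hxC
  have hlim := hx.comp (Besicovitch.tendsto_filterAt volume x)
  rw [hasDerivAt_iff_isLittleO, Asymptotics.isLittleO_iff]
  intro ε hε
  have hev := hlim.eventually (gt_mem_nhds (show (0 : ENNReal) < ENNReal.ofReal (ε / 2) by
    simpa using hε))
  have hev2 : ∀ᶠ r in 𝓝[>] (0 : ℝ), H.nu (Metric.closedBall x r) ≤ ENNReal.ofReal (ε * r) := by
    filter_upwards [hev, self_mem_nhdsWithin] with r hr hr0
    have hr0' : (0 : ℝ) < r := hr0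
    simp only [Function.comp_apply] at hr
    rw [Real.volume_closedBall] at hr
    have hpos : ENNReal.ofReal (2 * r) ≠ 0 := by
      simpa using hr0'
    rw [ENNReal.div_lt_iff (Or.inl hpos) (Or.inl ENNReal.ofReal_ne_top),
      ← ENNReal.ofReal_mul (by positivity)] at hr
    refine hr.le.trans (le_of_eq ?_)
    congr 1; ring
  rw [eventually_nhdsWithin_iff, Metric.eventually_nhds_iff] at hev2
  obtain ⟨δ, hδ, Hδ⟩ := hev2
  rw [Metric.eventually_nhds_iff]
  refine ⟨δ, hδ, fun y hy => ?_⟩
  rw [smul_zero, sub_zero]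
  rcases eq_or_ne y x with rfl | hne
  · simp
  · have h1 : |y - x| ∈ Ioi (0 : ℝ) := abs_pos.mpr (sub_ne_zero.mpr hne)
    have h2 := Hδ (y := |y - x|) (by rw [Real.dist_eq] at *; simpa using hy) h1
    have h3 := (H.enorm_G2_sub_le hxC y).trans h2
    rw [Real.enorm_eq_ofReal_abs] at h3
    rw [Real.norm_eq_abs, Real.norm_eq_abs]
    exact (ENNReal.ofReal_le_ofReal_iff (by positivity)).mp h3

/-- The Harnack extension is a primitive. -/
theorem prim_G (H : HData f c d C φ) : Prim f c d H.G := by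
  have hcount : Countable (gaps C) := (gaps_countable C).to_subtype
  have hcover : ∀ x ∈ Icc c d, x ∉ C → ∃ p : gaps C, x ∈ Ioo p.1.1 p.1.2 := by
    intro x hx hxC
    obtain ⟨p, hp, h1, h2, _, _⟩ := exists_gap H.closed H.hc H.hd hx.1 hx.2 hxC
    exact ⟨⟨p, hp⟩, h1, h2⟩
  constructor
  · choose K hK hU using fun p : gaps C => (H.prim p p.2).1.2
    refine ACGStar.of_countable (ι := Unit ⊕ (gaps C × ℕ)) H.continuous_G.continuousOn
      (Sum.elim (fun _ => C) fun r => K r.1 r.2) ?_ ?_ ?_
    · rintro (_ | ⟨p, n⟩)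
      · exact H.closed
      · exact (hK p n).1
    · rintro (_ | ⟨p, n⟩)
      · exact H.ACStar_G.mono inter_subset_left
      · have hKs : K p n ⊆ Icc p.1.1 p.1.2 := by rw [← hU p]; exact subset_iUnion _ n
        have := (hK p n).2.congr (G := H.G) (C := φ p p.1.1 - H.G p.1.1) hKs fun x hx => by
          have := H.G_sub_gap p.2 (left_mem_Icc.mpr p.2.1.le) hx
          linarith
        exact this.mono inter_subset_left
    · intro x hx
      by_cases hxC : x ∈ C
      · exact mem_iUnion.mpr ⟨Sum.inl (), hxC⟩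
      · obtain ⟨p, hp⟩ := hcover x hx hxC
        have : x ∈ ⋃ n, K p n := by rw [hU p]; exact Ioo_subset_Icc_self hp
        obtain ⟨n, hn⟩ := mem_iUnion.mp this
        exact mem_iUnion.mpr ⟨Sum.inr (p, n), hn⟩
  · rw [ae_restrict_iff' measurableSet_Icc]
    have h1 : ∀ p : gaps C, ∀ᵐ x, x ∈ Ioo p.1.1 p.1.2 → HasDerivAt (φ p) (f x) x := by
      intro p
      have := (H.prim p p.2).2
      rw [← restrict_Ioo_eq_restrict_Icc, ae_restrict_iff' measurableSet_Ioo] at this
      exact this
    filter_upwards [ae_all_iff.mpr h1, H.ae_hasDerivAt_G2,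
      _root_.LocallyIntegrable.ae_hasDerivAt_integral H.integrable_ind.locallyIntegrable] with x hgap hG2 hG1 hx
    by_cases hxC : x ∈ C
    · have := (hG1 c).add (hG2 hxC)
      rw [indicator_of_mem hxC, add_zero] at this
      exact this
    · obtain ⟨p, hp⟩ := hcover x hx hxC
      have h2 := (hgap p hp).sub_const (φ p p.1.1 - H.G p.1.1)
      refine h2.congr_of_eventuallyEq ?_
      filter_upwards [isOpen_Ioo.mem_nhds hp] with y hy
      have := H.G_sub_gap p.2 (left_mem_Icc.mpr p.2.1.le) (Ioo_subset_Icc_self hy)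
      linarith

end HData

end Pool.Agent.MP_c24d14
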