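import Pool.Agent.Lib.MP_c24d14_lc.Space

/-!
# A jointly measurable parametrization of measurable functions
-/

open Set MeasureTheory Filter Topology
open scoped ENNReal

namespace Pool.Agent.MP_c24d14

variable {α : Type*} [MeasurableSpace α] {μ : Measure α}

/-- The pointwise limit of the sequence `g (x 0), g (x 1), …`. -/
noncomputable def limRep (g : ℕ → α →ₘ[μ] ℝ) (x : ℕ → ℕ) (t : α) : ℝ :=
  limUnder atTop fun n => g (x n) t

lemma measurable_limRep (g : ℕ → α →ₘ[μ] ℝ) :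
    Measurable fun p : (ℕ → ℕ) × α => limRep g p.1 p.2 := by
  have h1 : ∀ n, StronglyMeasurable fun p : (ℕ → ℕ) × α => g (p.1 n) p.2 := by
    intro n
    have h2 : Measurable fun q : ℕ × α => g q.1 q.2 :=
      measurable_from_prod_countable_right fun k => (g k).measurable
    have h3 : Measurable fun p : (ℕ → ℕ) × α => ((p.1 n, p.2) : ℕ × α) :=
      ((measurable_pi_apply n).comp measurable_fst).prodMk measurable_snd
    have h4 : Measurable fun p : (ℕ → ℕ) × α => g (p.1 n) p.2 := h2.comp h3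
    exact h4.stronglyMeasurable
  exact (StronglyMeasurable.limUnder (l := atTop) h1).measurable

lemma measurable_limRep_right (g : ℕ → α →ₘ[μ] ℝ) (x : ℕ → ℕ) :
    Measurable fun t : α => limRep g x t :=
  Measurable.of_uncurry_left (f := limRep g) (measurable_limRep g)

/-- The class of `limRep g x`. -/
noncomputable def toM (g : ℕ → α →ₘ[μ] ℝ) (x : ℕ → ℕ) : α →ₘ[μ] ℝ :=
  AEEqFun.mk (limRep g x) (measurable_limRep_right g x).aestronglyMeasurable

lemma toM_ae (g : ℕ → α →ₘ[μ] ℝ) (x : ℕ → ℕ) : toM g x =ᵐ[μ] limRep g x :=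
  AEEqFun.coeFn_mk _ _

lemma measurable_mdist_toM [SFinite μ] (g : ℕ → α →ₘ[μ] ℝ) (h : α →ₘ[μ] ℝ) :
    Measurable fun x => mdist (toM g x) h := by
  have e : ∀ x, mdist (toM g x) h = ∫⁻ t, min (edist (limRep g x t) (h t)) 1 ∂μ := by
    intro x
    refine lintegral_congr_ae ?_
    filter_upwards [toM_ae g x] with t ht
    rw [ht]
  simp_rw [e]
  exact Measurable.lintegral_prod_right' (f := fun p : (ℕ → ℕ) × α =>
    min (edist (limRep g p.1 p.2) (h p.2)) 1)
    (((measurable_limRep g).edist (h.measurable.comp measurable_snd)).min measurable_const)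

lemma measurable_of_mdist {X : Type*} [MeasurableSpace X] {S : Set (α →ₘ[μ] ℝ)}
    (hS : S.Countable) (hSd : ∀ f, ∀ ε : ℝ≥0∞, 0 < ε → ∃ g ∈ S, mdist f g < ε)
    {π : X → α →ₘ[μ] ℝ} (h : ∀ g, Measurable fun x => mdist (π x) g) :
    @Measurable X _ _ (@borel _ (emet μ).toUniformSpace.toTopologicalSpace) π := by
  let _ := emet μ
  let _ : MeasurableSpace (α →ₘ[μ] ℝ) := borel _
  have : BorelSpace (α →ₘ[μ] ℝ) := ⟨rfl⟩
  refine measurable_of_isOpen fun U hU => ?_
  have hEq : π ⁻¹' U = ⋃ g ∈ S, ⋃ k ∈ {k : ℕ | ∀ f, mdist f g < (k + 1 : ℝ≥0∞)⁻¹ → f ∈ U},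
      {x | mdist (π x) g < (k + 1 : ℝ≥0∞)⁻¹} := by
    ext x
    simp only [mem_preimage, mem_iUnion, exists_prop]
    constructor
    · intro hx
      obtain ⟨ε, hε, hball⟩ := EMetric.isOpen_iff.mp hU _ hx
      obtain ⟨k, hk⟩ := ENNReal.exists_inv_nat_lt (ENNReal.half_pos hε.ne').ne'
      have hk' : (k + 1 : ℝ≥0∞)⁻¹ < ε / 2 :=
        lt_of_le_of_lt (ENNReal.inv_le_inv.mpr le_self_add) hk
      have hpos : (0 : ℝ≥0∞) < (k + 1 : ℝ≥0∞)⁻¹ := ENNReal.inv_pos.mpr (by
        exact ENNReal.add_ne_top.mpr ⟨ENNReal.natCast_ne_top k, ENNReal.one_ne_top⟩)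
      obtain ⟨g, hg, hgd⟩ := hSd (π x) _ hpos
      refine ⟨g, hg, k, fun f hf => hball ?_, hgd⟩
      have : mdist f (π x) < ε := by
        calc mdist f (π x) ≤ mdist f g + mdist g (π x) := mdist_triangle _ _ _
          _ < ε / 2 + ε / 2 := by
            refine ENNReal.add_lt_add (hf.trans hk') ?_
            rw [mdist_comm]; exact hgd.trans hk'
          _ = ε := ENNReal.add_halves ε
      exact this
    · rintro ⟨g, _, k, hk, hx⟩
      exact hk _ hx
  rw [hEq]
  exact MeasurableSet.biUnion hS fun g _ => MeasurableSet.biUnion (to_countable _) fun k _ =>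
    measurableSet_lt (h g) measurable_const

/-- Every class is represented by a limit along a dense sequence. -/
lemma exists_limRep {g : ℕ → α →ₘ[μ] ℝ}
    (hg : ∀ f, ∀ ε : ℝ≥0∞, 0 < ε → ∃ n, mdist f (g n) < ε) (f : α →ₘ[μ] ℝ) :
    ∃ x : ℕ → ℕ, toM g x = f := by
  choose x hx using fun n : ℕ => hg f (2⁻¹ ^ n) (ENNReal.pow_pos (by simp) n)
  have h1 : ∀ n, mdist (g (x n)) f ≤ 2⁻¹ ^ n := fun n => by
    rw [mdist_comm]; exact (hx n).le
  refine ⟨x, AEEqFun.ext ?_⟩
  filter_upwards [ae_tendsto_of_mdist_le h1, toM_ae g x] with t h2 h3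
  rw [h3]
  exact h2.limUnder_eq

end Pool.Agent.MP_c24d14
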