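import Pool.Agent.Lib.MP_c24d14_lc.Meas
import Pool.Agent.Lib.MP_c24d14_lc.Param

/-!
# The set of Denjoy integrable functions is coanalytic
-/

open Set MeasureTheory Filter Topology
open scoped ENNReal

namespace Pool.Agent.MP_c24d14

/-- The closed set coded by `c`. -/
def Kc (c : ℚ × ℚ → Bool) : Set ℝ := {t | ∀ I : ℚ × ℚ, c I = true → ¬ ((I.1 : ℝ) < t ∧ t < I.2)}

lemma isClosed_Kc (c : ℚ × ℚ → Bool) : IsClosed (Kc c) := by
  have : Kc c = ⋂ I ∈ {I : ℚ × ℚ | c I = true}, (Ioo (I.1 : ℝ) I.2)ᶜ := by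
    ext x
    simp only [Kc, mem_ofPred_eq, mem_iInter, mem_compl_iff, mem_Ioo]
  rw [this]
  exact isClosed_biInter fun J _ => isOpen_Ioo.isClosed_compl

lemma exists_code {K : Set ℝ} (hK : IsClosed K) : ∃ c, Kc c = K := by
  classical
  refine ⟨fun I => decide (∀ t ∈ K, ¬ ((I.1 : ℝ) < t ∧ t < I.2)), ?_⟩
  ext x
  constructor
  · intro hx
    by_contra hxK
    obtain ⟨I, h1, h2, h3⟩ := exists_miss hK hxK
    exact hx I (decide_eq_true fun t ht ht2 => h3 t ht ⟨ht2.1.le, ht2.2.le⟩) ⟨h1, h2⟩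
  · intro hx I hI
    exact of_decide_eq_true hI x hx

lemma miss_Kc (c : ℚ × ℚ → Bool) (I : ℚ × ℚ) : Miss (Kc c) I ↔
    ∃ T : Finset (ℚ × ℚ), (∀ L, L ∈ T → c L = true) ∧
      ∀ t : ℝ, (I.1 : ℝ) ≤ t → t ≤ I.2 → ∃ L ∈ T, (L.1 : ℝ) < t ∧ t < L.2 := by
  constructor
  · intro h
    obtain ⟨T, hT⟩ := (isCompact_Icc (a := (I.1 : ℝ)) (b := I.2)).elim_finite_subcover
      (fun L : {L : ℚ × ℚ // c L = true} => Ioo (L.1.1 : ℝ) L.1.2) (fun _ => isOpen_Ioo) (by
        intro t ht
        have : t ∉ Kc c := fun h' => h t h' ht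
        simp only [Kc, mem_ofPred_eq] at this
        push Not at this
        obtain ⟨L, hL, h1, h2⟩ := this
        exact mem_iUnion.mpr ⟨⟨L, hL⟩, h1, h2⟩)
    refine ⟨T.map ⟨Subtype.val, Subtype.val_injective⟩, fun L hL => ?_, fun t h1 h2 => ?_⟩
    · obtain ⟨M, _, rfl⟩ := Finset.mem_map.mp hL
      exact M.2
    · have := hT ⟨h1, h2⟩
      simp only [mem_iUnion, exists_prop] at this
      obtain ⟨M, hM, hM2⟩ := this
      exact ⟨M.1, Finset.mem_map.mpr ⟨M, hM, rfl⟩, hM2⟩
  · rintro ⟨T, hT, h⟩ t ht ⟨h1, h2⟩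
    obtain ⟨L, hL, h3⟩ := h t h1 h2
    exact ht L (hT L hL) h3

/-- The space of parameters. -/
abbrev Par : Type := (ℕ → ℕ) × (ℕ → ℚ × ℚ → Bool) × (ℚ × ℚ → ℝ) × ((ℚ × ℚ) × ℕ × ℕ × ℕ → ℕ)

lemma md_par {μ : Measure ℝ} (a b : ℝ) (g : ℕ → ℝ →ₘ[μ] ℝ) :
    MD (Y := Par) (fun y => (Icc a b).indicator (limRep g y.1)) (fun y i => Kc (y.2.1 i))
      (fun y => y.2.2.1) (fun y => y.2.2.2) := by
  have hc : ∀ (i : ℕ) (I : ℚ × ℚ), Measurable fun y : Par => y.2.1 i I = true := by
    intro i I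
    have h1 : Measurable fun y : Par => y.2.1 i I :=
      (measurable_pi_apply I).comp ((measurable_pi_apply i).comp
        (measurable_fst.comp measurable_snd))
    exact h1.eq_const true
  refine
    { f := ?_, closed := fun y i => isClosed_Kc _, miss := ?_, graph := ?_, Φ := ?_, s := ?_ }
  · have h0 : Measurable fun p : Par × ℝ => ((p.1.1, p.2) : (ℕ → ℕ) × ℝ) :=
      (measurable_fst.comp measurable_fst).prodMk measurable_snd
    have h1 := Measurable.comp (measurable_limRep g) h0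
    have h2 : Function.uncurry (fun y : Par => (Icc a b).indicator (limRep g y.1)) =
        (Prod.snd ⁻¹' Icc a b).indicator fun p : Par × ℝ => limRep g p.1.1 p.2 := by
      funext p
      rfl
    rw [h2]
    exact h1.indicator (measurable_snd measurableSet_Icc)
  · intro i I
    simp_rw [miss_Kc]
    exact Measurable.exists fun T => (Measurable.forall fun L => (MD.mc _).imp (hc i L)).and
      (MD.mc _)
  · intro i
    have h1 : ∀ I : ℚ × ℚ, Measurable fun p : Par × ℝ => p.1.2.1 i I = true := fun I =>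
      (hc i I).comp measurable_fst
    have h2 : ∀ I : ℚ × ℚ, Measurable fun p : Par × ℝ => ((I.1 : ℝ) < p.2 ∧ p.2 < I.2) :=
      fun I => (MD.measurable_lt measurable_const measurable_snd).and
        (MD.measurable_lt measurable_snd measurable_const)
    have h3 : Measurable fun p : Par × ℝ => p.2 ∈ Kc (p.1.2.1 i) :=
      Measurable.forall fun I => (h1 I).imp (h2 I).not
    exact h3.setOf
  · intro I
    exact (measurable_pi_apply I).comp (measurable_fst.comp (measurable_snd.comp measurable_snd))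
  · intro q
    exact (measurable_pi_apply q).comp (measurable_snd.comp (measurable_snd.comp measurable_snd))

lemma mem_Den_iff {a b : ℝ} {f : ℝ →ₘ[volume.restrict (Icc a b)] ℝ} {g : ℝ → ℝ}
    (h : f =ᵐ[volume.restrict (Icc a b)] g) : f ∈ Den a b ↔ DenOn g a b := by
  constructor
  · rintro ⟨F, hF, hd⟩
    refine ⟨F, hF, ?_⟩
    filter_upwards [hd, h] with x h1 h2
    rw [← h2]; exact h1
  · rintro ⟨F, hF, hd⟩
    refine ⟨F, hF, ?_⟩
    filter_upwards [hd, h] with x h1 h2
    rw [h2]; exact h1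

/-- The complement of `Den[a, b]` is analytic in the metric of convergence in measure. -/
theorem analyticSet_compl_Den (a b : ℝ) :
    @AnalyticSet _ (emet (volume.restrict (Icc a b))).toUniformSpace.toTopologicalSpace
      (Den a b)ᶜ := by
  obtain ⟨S, hS, hSd⟩ := exists_countable_dense_mdist (volume.restrict (Icc a b))
  have hSne : S.Nonempty := by
    obtain ⟨g, hg, _⟩ := hSd 0 1 one_pos
    exact ⟨g, hg⟩
  obtain ⟨g, hg⟩ := hS.exists_eq_range hSne
  have hgd : ∀ f, ∀ ε : ℝ≥0∞, 0 < ε → ∃ n, mdist f (g n) < ε := by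
    intro f ε hε
    obtain ⟨_, hh, h2⟩ := hSd f ε hε
    rw [hg] at hh
    obtain ⟨n, rfl⟩ := hh
    exact ⟨n, h2⟩
  have hCert := (md_par a b g).cert a b
  have hmeas := measurable_of_mdist hS hSd (fun h => measurable_mdist_toM g h)
  have hind : ∀ x : ℕ → ℕ, toM g x =ᵐ[volume.restrict (Icc a b)]
      (Icc a b).indicator (limRep g x) := by
    intro x
    filter_upwards [toM_ae g x, ae_restrict_mem measurableSet_Icc] with t h1 h2
    rw [h1, indicator_of_mem h2]
  have hmf : ∀ x : ℕ → ℕ, Measurable ((Icc a b).indicator (limRep g x)) := fun x =>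
    (measurable_limRep_right g x).indicator measurableSet_Icc
  have hf0 : ∀ (x : ℕ → ℕ) (t : ℝ), t ∉ Icc a b → (Icc a b).indicator (limRep g x) t = 0 :=
    fun x t ht => indicator_of_notMem ht _
  have hEq : (Den a b)ᶜ = (fun y : Par => toM g y.1) '' {y : Par |
      Cert ((Icc a b).indicator (limRep g y.1)) a b (fun i => Kc (y.2.1 i)) y.2.2.1 y.2.2.2} := by
    ext f
    constructor
    · intro hf
      obtain ⟨x, rfl⟩ := exists_limRep hgd f
      have hnD : ¬ DenOn ((Icc a b).indicator (limRep g x)) a b := fun h =>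
        hf ((mem_Den_iff (hind x)).mpr h)
      obtain ⟨K, Φ, s, hc⟩ := exists_cert (hmf x) (hf0 x) hnD
      choose c hcK using fun i => exists_code (hc.closed i)
      refine ⟨(x, c, Φ, s), ?_, rfl⟩
      have hcK' : (fun i => Kc (c i)) = K := funext hcK
      rw [mem_ofPred_eq]
      simp only
      rw [hcK']
      exact hc
    · rintro ⟨y, hy, rfl⟩ hD
      exact hy.not_denOn (hmf y.1) (hf0 y.1) ((mem_Den_iff (hind y.1)).mp hD)
  rw [hEq]
  let _ := emet (volume.restrict (Icc a b) : Measure ℝ)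
  let _ : MeasurableSpace (ℝ →ₘ[volume.restrict (Icc a b)] ℝ) := borel _
  have : BorelSpace (ℝ →ₘ[volume.restrict (Icc a b)] ℝ) := ⟨rfl⟩
  have : PolishSpace (ℝ →ₘ[volume.restrict (Icc a b)] ℝ) := polishSpace_emet _
  exact MeasurableSet.analyticSet_image hCert (hmeas.comp measurable_fst)

end Pool.Agent.MP_c24d14
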