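import Pool.Agent.Lib.MP_c24d14_lc.Complete

/-!
# Measurability of the set of certificates
-/

open Set MeasureTheory Filter Topology

namespace Pool.Agent.MP_c24d14

variable {Y : Type*} [MeasurableSpace Y]

/-- Data depending measurably on a parameter. -/
structure MD (f : Y → ℝ → ℝ) (K : Y → ℕ → Set ℝ) (Φ : Y → ℚ × ℚ → ℝ)
    (s : Y → (ℚ × ℚ) × ℕ × ℕ × ℕ → ℕ) : Prop where
  f : Measurable (Function.uncurry f)
  closed : ∀ y i, IsClosed (K y i)
  miss : ∀ i I, Measurable fun y => Miss (K y i) I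
  graph : ∀ i, MeasurableSet {p : Y × ℝ | p.2 ∈ K p.1 i}
  Φ : ∀ I, Measurable fun y => Φ y I
  s : ∀ q, Measurable fun y => s y q

lemma measurable_comp_nat {P : ℕ → Y → Prop} (hP : ∀ n, Measurable (P n)) {t : Y → ℕ}
    (ht : Measurable t) : Measurable fun y => P (t y) y := by
  have : (fun y => P (t y) y) = fun y => ∃ n, t y = n ∧ P n y := by
    ext y; simp
  rw [this]
  exact Measurable.exists fun n => (ht.eq_const n).and (hP n)

lemma subset_iff_miss {K L : Set ℝ} (hL : IsClosed L) :
    K ⊆ L ↔ ∀ I : ℚ × ℚ, Miss L I → Miss K I := by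
  refine ⟨fun h I hI => hI.anti h, fun h x hx => ?_⟩
  by_contra hxL
  obtain ⟨I, h1, h2, h3⟩ := exists_miss hL hxL
  exact h I h3 x hx ⟨h1.le, h2.le⟩

lemma nonempty_iff_miss {K : Set ℝ} : K.Nonempty ↔ ∃ I : ℚ × ℚ, ¬ Miss K I := by
  constructor
  · rintro ⟨x, hx⟩
    obtain ⟨p, _, hp⟩ := exists_rat_btwn (show x - 1 < x by linarith)
    obtain ⟨q, hq, _⟩ := exists_rat_btwn (show x < x + 1 by linarith)
    exact ⟨(p, q), fun h => h x hx ⟨hp.le, hq.le⟩⟩
  · rintro ⟨I, hI⟩
    by_contra hcon
    rw [not_nonempty_iff_eq_empty] at hcon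
    refine hI fun x hx => ?_
    rw [hcon] at hx
    exact absurd hx (notMem_empty x)

namespace MD

variable {f : Y → ℝ → ℝ} {K : Y → ℕ → Set ℝ} {Φ : Y → ℚ × ℚ → ℝ}
    {s : Y → (ℚ × ℚ) × ℕ × ℕ × ℕ → ℕ}

lemma mc (P : Prop) : Measurable fun _ : Y => P := measurable_const

lemma subset (h : MD f K Φ s) (i j : ℕ) : Measurable fun y => K y i ⊆ K y j := by
  simp_rw [subset_iff_miss (h.closed _ j)]
  exact Measurable.forall fun I => (h.miss j I).imp (h.miss i I)

lemma measurable_le {g k : Y → ℝ} (hg : Measurable g) (hk : Measurable k) :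
    Measurable fun y => g y ≤ k y := measurableSet_setOfPred.1 (measurableSet_le hg hk)

lemma measurable_lt {g k : Y → ℝ} (hg : Measurable g) (hk : Measurable k) :
    Measurable fun y => g y < k y := measurableSet_setOfPred.1 (measurableSet_lt hg hk)

lemma sum (h : MD f K Φ s) (S : Finset (ℚ × ℚ)) : Measurable fun y => ∑ I ∈ S, |Φ y I| :=
  Finset.measurable_sum _ fun I _ => (h.Φ I).abs

lemma graphI (h : MD f K Φ s) (i : ℕ) (I : ℚ × ℚ) :
    MeasurableSet {p : Y × ℝ | p.2 ∈ K p.1 i ∩ Icc (I.1 : ℝ) I.2} := by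
  have : {p : Y × ℝ | p.2 ∈ K p.1 i ∩ Icc (I.1 : ℝ) I.2} =
      {p : Y × ℝ | p.2 ∈ K p.1 i} ∩ Prod.snd ⁻¹' Icc (I.1 : ℝ) I.2 := rfl
  rw [this]
  exact (h.graph i).inter (measurable_snd measurableSet_Icc)

lemma measurableSet_inter (h : MD f K Φ s) (y : Y) (i : ℕ) (I : ℚ × ℚ) :
    MeasurableSet (K y i ∩ Icc (I.1 : ℝ) I.2) :=
  (h.closed y i).measurableSet.inter measurableSet_Icc

lemma aBound (h : MD f K Φ s) (i : ℕ) (J : ℚ × ℚ) (N : ℕ) :
    Measurable fun y => ABound (f y) (K y i) J N := by
  have h1 : Measurable fun y => ∫⁻ x in K y i ∩ Icc (J.1 : ℝ) J.2, ‖f y x‖ₑ := by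
    have e : ∀ y, ∫⁻ x in K y i ∩ Icc (J.1 : ℝ) J.2, ‖f y x‖ₑ =
        ∫⁻ x, ({p : Y × ℝ | p.2 ∈ K p.1 i ∩ Icc (J.1 : ℝ) J.2}).indicator
          (fun p => ‖Function.uncurry f p‖ₑ) (y, x) := by
      intro y
      rw [← lintegral_indicator (h.measurableSet_inter y i J)]
      rfl
    simp_rw [e]
    exact Measurable.lintegral_prod_right' (h.f.enorm.indicator (h.graphI i J))
  exact measurableSet_setOfPred.1 (measurableSet_le h1 measurable_const)

lemma integral (h : MD f K Φ s) (i : ℕ) (J : ℚ × ℚ) :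
    Measurable fun y => ∫ x in K y i ∩ Icc (J.1 : ℝ) J.2, f y x := by
  have e : ∀ y, ∫ x in K y i ∩ Icc (J.1 : ℝ) J.2, f y x =
      ∫ x, ({p : Y × ℝ | p.2 ∈ K p.1 i ∩ Icc (J.1 : ℝ) J.2}).indicator
        (Function.uncurry f) (y, x) := by
    intro y
    rw [← integral_indicator (h.measurableSet_inter y i J)]
    rfl
  simp_rw [e]
  exact (StronglyMeasurable.integral_prod_right'
    (h.f.indicator (h.graphI i J)).stronglyMeasurable).measurable

lemma sep (h : MD f K Φ s) (i : ℕ) (J : ℚ × ℚ) (S : Finset (ℚ × ℚ)) :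
    Measurable fun y => Sep (K y i) J S := by
  unfold Sep
  refine Measurable.and ?_ ?_
  · exact Measurable.forall fun I => (mc _).imp ((mc _).and (h.miss i I))
  · exact Measurable.forall fun I => (mc _).imp (Measurable.forall fun L =>
      (mc _).imp ((mc _).imp (h.miss i _).not))

lemma cBound (h : MD f K Φ s) (i : ℕ) (J : ℚ × ℚ) (N : ℕ) :
    Measurable fun y => CBound (K y i) (Φ y) J N := by
  unfold CBound
  exact Measurable.forall fun S => (h.sep i J S).imp (measurable_le (h.sum S) measurable_const)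

lemma uc (h : MD f K Φ s) (i : ℕ) (J : ℚ × ℚ) : Measurable fun y => UC (K y i) (Φ y) J := by
  unfold UC
  exact Measurable.forall fun m => Measurable.exists fun l => Measurable.forall fun I =>
    (mc _).imp ((h.miss i I).imp ((mc _).imp (measurable_le (h.Φ I).abs measurable_const)))

lemma good (h : MD f K Φ s) (i : ℕ) (J : ℚ × ℚ) :
    Measurable fun y => Good (f y) (K y i) (Φ y) J := by
  unfold Good
  exact (Measurable.exists fun N => (h.aBound i J N).and (h.cBound i J N)).and (h.uc i J)

lemma fine (h : MD f K Φ s) (i : ℕ) (I : ℚ × ℚ) :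
    Measurable fun y => Fine (f y) (K y i) (Φ y) I := by
  unfold Fine
  exact (h.miss i I).or (Measurable.exists fun J => (h.good i J).and (mc _))

lemma res (h : MD f K Φ s) (J : ℚ × ℚ) (N i j : ℕ) :
    Measurable fun y => Res (Φ y) J N (K y i) (K y j) := by
  unfold Res
  refine Measurable.forall fun S => Measurable.imp ?_ (Measurable.imp ?_ ?_)
  · exact Measurable.forall fun I => (mc _).imp ((mc _).and (h.miss i I))
  · exact measurable_lt measurable_const (h.sum S)
  · exact Measurable.exists fun I => (mc _).and (Measurable.exists fun L => (mc _).and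
      ((mc _).and (h.miss j _)))

lemma missSum (h : MD f K Φ s) (i : ℕ) (I : ℚ × ℚ) (n : ℕ) :
    Measurable fun y => missSum (K y i) (Φ y) I n := by
  classical
  unfold MP_c24d14.missSum
  refine Finset.measurable_sum _ fun k _ => ?_
  have e : (fun y => @ite ℝ (Miss (K y i) (piece I n k)) (Classical.propDecidable _)
      (Φ y (piece I n k)) 0) = fun y => @ite ℝ (Miss (K y i) (piece I n k))
      (Classical.propDecidable _) (Φ y (piece I n k)) ((fun _ : Y => (0 : ℝ)) y) := rfl
  rw [e]
  exact Measurable.ite (h.miss i _).setOf (h.Φ _) measurable_const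

lemma formula (h : MD f K Φ s) (i : ℕ) (I : ℚ × ℚ) :
    Measurable fun y => Tendsto (MP_c24d14.missSum (K y i) (Φ y) I) atTop
        (𝓝 (Φ y I - ∫ x in K y i ∩ Icc (I.1 : ℝ) I.2, f y x)) :=
  measurableSet_setOfPred.1 (measurableSet_tendsto_fun (fun n => h.missSum i I n)
    ((h.Φ I).sub (h.integral i I)))

/-- The set of parameters at which the data form a certificate is measurable. -/
theorem cert (h : MD f K Φ s) (a b : ℝ) :
    MeasurableSet {y | Cert (f y) a b (K y) (Φ y) (s y)} := by
  have hsub2 : ∀ {p q : Y → ℕ}, Measurable p → Measurable q →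
      Measurable fun y => K y (p y) ⊆ K y (q y) := fun {p q} hp hq =>
    measurable_comp_nat (P := fun n y => K y n ⊆ K y (q y)) (fun n =>
      measurable_comp_nat (P := fun m y => K y n ⊆ K y m) (fun m => h.subset n m) hq) hp
  have hmiss2 : ∀ {p : Y → ℕ} (I : ℚ × ℚ), Measurable p →
      Measurable fun y => Miss (K y (p y)) I := fun {p} I hp =>
    measurable_comp_nat (P := fun n y => Miss (K y n) I) (fun n => h.miss n I) hp
  have hres2 : ∀ {p q : Y → ℕ} (J : ℚ × ℚ) (N : ℕ), Measurable p → Measurable q →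
      Measurable fun y => Res (Φ y) J N (K y (p y)) (K y (q y)) := fun {p q} J N hp hq =>
    measurable_comp_nat (P := fun n y => Res (Φ y) J N (K y n) (K y (q y))) (fun n =>
      measurable_comp_nat (P := fun m y => Res (Φ y) J N (K y n) (K y m))
        (fun m => h.res J N n m) hq) hp
  have key : {y | Cert (f y) a b (K y) (Φ y) (s y)} =
      {y | (∀ i, ∃ I : ℚ × ℚ, ¬ Miss (K y i) I) ∧
        (∀ i, ∀ I : ℚ × ℚ, Miss (Icc a b) I → Miss (K y i) I) ∧
        (∀ i j, K y i ⊆ K y j ∨ K y j ⊆ K y i) ∧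
        (∀ I : ℚ × ℚ, I.1 < I.2 → Miss (Icc a b) I → Φ y I = 0) ∧
        (∀ i, ∀ I : ℚ × ℚ, I.1 < I.2 → Miss (K y i) I → ∃ n : ℕ, ∀ k, k < 2 ^ n →
          (Miss (Icc a b) (piece I n k) ∨
            ∃ j, (K y i ⊆ K y j ∧ ¬ K y j ⊆ K y i) ∧ Fine (f y) (K y j) (Φ y) (piece I n k))) ∧
        (∀ j, ∀ J : ℚ × ℚ, Good (f y) (K y j) (Φ y) J → ∀ I : ℚ × ℚ, J.1 < I.1 → I.1 < I.2 →
          I.2 < J.2 → Tendsto (MP_c24d14.missSum (K y j) (Φ y) I) atTop
          (𝓝 (Φ y I - ∫ x in K y j ∩ Icc (I.1 : ℝ) I.2, f y x))) ∧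
        (∃ i, ∀ I : ℚ × ℚ, Fine (f y) (K y i) (Φ y) I → Miss (K y i) I) ∧
        (∀ J : ℚ × ℚ, ∀ N : ℕ, (∃ j, ABound (f y) (K y j) J N) →
          ∃ j, ABound (f y) (K y j) J N ∧ ∀ j', ABound (f y) (K y j') J N → K y j' ⊆ K y j) ∧
        (∀ J : ℚ × ℚ, ∀ N i : ℕ, s y (J, N, i, 0) = i) ∧
        (∀ J : ℚ × ℚ, ∀ N i k : ℕ,
          (K y (s y (J, N, i, k + 1)) ⊆ K y (s y (J, N, i, k)) ∧
            Res (Φ y) J N (K y (s y (J, N, i, k))) (K y (s y (J, N, i, k + 1))) ∧
            ∀ j, K y j ⊆ K y (s y (J, N, i, k)) →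
              Res (Φ y) J N (K y (s y (J, N, i, k))) (K y j) →
              K y j ⊆ K y (s y (J, N, i, k + 1))) ∨
          ∀ j, K y j ⊆ K y (s y (J, N, i, k)) →
            ¬ Res (Φ y) J N (K y (s y (J, N, i, k))) (K y j)) ∧
        (∀ J : ℚ × ℚ, ∀ N i : ℕ, ∃ j, (∀ k, K y j ⊆ K y (s y (J, N, i, k))) ∧
          ∀ I : ℚ × ℚ, Miss (K y j) I → ∃ k, Miss (K y (s y (J, N, i, k))) I) ∧
        (∀ j, ∃ i, (∀ I : ℚ × ℚ, Fine (f y) (K y j) (Φ y) I → Miss (K y i) I) ∧
          ∀ I : ℚ × ℚ, I.1 < I.2 → Miss (K y i) I → ∃ n : ℕ, ∀ k, k < 2 ^ n →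
            Fine (f y) (K y j) (Φ y) (piece I n k)) ∧
        (∀ i, ∀ I : ℚ × ℚ, ∀ r : ℚ, I.1 < r → r < I.2 → Miss (K y i) I →
          Φ y I = Φ y (I.1, r) + Φ y (r, I.2))} := by
    ext y
    rw [mem_ofPred_eq, mem_ofPred_eq]
    constructor
    · intro hc
      exact ⟨fun i => nonempty_iff_miss.mp (hc.ne i),
        fun i => (subset_iff_miss isClosed_Icc).mp (hc.sub i), hc.chain, hc.out, hc.origin,
        hc.formula, hc.stuck, hc.alarge, hc.s0, hc.s1, hc.lim, hc.next, hc.add⟩
    · rintro ⟨h1, h2, h3, h4, h5, h6, h7, h8, h9, h10, h11, h12, h13⟩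
      exact
        { closed := h.closed y, ne := fun i => nonempty_iff_miss.mpr (h1 i),
          sub := fun i => (subset_iff_miss isClosed_Icc).mpr (h2 i), chain := h3, out := h4,
          origin := h5, formula := h6, stuck := h7, alarge := h8, s0 := h9, s1 := h10,
          lim := h11, next := h12, add := h13 }
  rw [key, measurableSet_setOfPred]
  refine Measurable.and ?_ (Measurable.and ?_ (Measurable.and ?_ (Measurable.and ?_
    (Measurable.and ?_ (Measurable.and ?_ (Measurable.and ?_ (Measurable.and ?_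
    (Measurable.and ?_ (Measurable.and ?_ (Measurable.and ?_ (Measurable.and ?_ ?_)))))))))))
  · exact Measurable.forall fun i => Measurable.exists fun I => (h.miss i I).not
  · exact Measurable.forall fun i => Measurable.forall fun I => (mc _).imp (h.miss i I)
  · exact Measurable.forall fun i => Measurable.forall fun j => (h.subset i j).or (h.subset j i)
  · exact Measurable.forall fun I => (mc _).imp ((mc _).imp ((h.Φ I).eq_const 0))
  · exact Measurable.forall fun i => Measurable.forall fun I => (mc _).imp ((h.miss i I).imp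
      (Measurable.exists fun n => Measurable.forall fun k => (mc _).imp
        ((mc _).or (Measurable.exists fun j => ((h.subset i j).and (h.subset j i).not).and
          (h.fine j _)))))
  · exact Measurable.forall fun j => Measurable.forall fun J => (h.good j J).imp
      (Measurable.forall fun I => (mc _).imp ((mc _).imp ((mc _).imp (h.formula j I))))
  · exact Measurable.exists fun i => Measurable.forall fun I => (h.fine i I).imp (h.miss i I)
  · exact Measurable.forall fun J => Measurable.forall fun N =>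
      (Measurable.exists fun j => h.aBound j J N).imp (Measurable.exists fun j =>
        (h.aBound j J N).and (Measurable.forall fun j' => (h.aBound j' J N).imp (h.subset j' j)))
  · exact Measurable.forall fun J => Measurable.forall fun N => Measurable.forall fun i =>
      (h.s _).eq_const i
  · refine Measurable.forall fun J => Measurable.forall fun N => Measurable.forall fun i =>
      Measurable.forall fun k => Measurable.or (Measurable.and ?_ (Measurable.and ?_ ?_)) ?_
    · exact hsub2 (h.s _) (h.s _)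
    · exact hres2 J N (h.s _) (h.s _)
    · exact Measurable.forall fun j => (hsub2 measurable_const (h.s _)).imp
        ((hres2 J N (h.s _) measurable_const).imp (hsub2 measurable_const (h.s _)))
    · exact Measurable.forall fun j => (hsub2 measurable_const (h.s _)).imp
        (hres2 J N (h.s _) measurable_const).not
  · exact Measurable.forall fun J => Measurable.forall fun N => Measurable.forall fun i =>
      Measurable.exists fun j => (Measurable.forall fun k =>
        hsub2 measurable_const (h.s _)).and (Measurable.forall fun I =>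
          (h.miss j I).imp (Measurable.exists fun k => hmiss2 I (h.s _)))
  · exact Measurable.forall fun j => Measurable.exists fun i =>
      (Measurable.forall fun I => (h.fine j I).imp (h.miss i I)).and
        (Measurable.forall fun I => (mc _).imp ((h.miss i I).imp
          (Measurable.exists fun n => Measurable.forall fun k => (mc _).imp (h.fine j _))))
  · exact Measurable.forall fun i => Measurable.forall fun I => Measurable.forall fun r =>
      (mc _).imp ((mc _).imp ((h.miss i I).imp (measurableSet_setOfPred.1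
        (measurableSet_eq_fun (h.Φ _) ((h.Φ _).add (h.Φ _))))))

end MD

end Pool.Agent.MP_c24d14
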