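import Pool.Agent.Lib.MP_c24d14_lc.Prim

/-!
# Portions on which a Denjoy primitive is `AC_*`
-/

open Set MeasureTheory Filter Topology

namespace Pool.Agent.MP_c24d14

lemma ACStar.boundedVariationOn {F : ℝ → ℝ} {K : Set ℝ} {c d : ℝ} (h : ACStar F K) (hcd : c ≤ d)
    (hK : K ⊆ Icc c d) (hF : ContinuousOn F (Icc c d)) : BoundedVariationOn F K := by
  obtain ⟨V, hV0, hV⟩ := h.bounded hcd hK hF
  have : eVariationOn F K ≤ ENNReal.ofReal V := by
    refine iSup_le fun p => ?_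
    obtain ⟨n, u, hu, huK⟩ := p
    simp only
    have h1 : ∀ i ∈ Finset.range n, edist (F (u (i + 1))) (F (u i)) =
        ENNReal.ofReal |F (u (i + 1)) - F (u i)| := fun i _ => by
      rw [edist_dist, Real.dist_eq]
    rw [Finset.sum_congr rfl h1, ← ENNReal.ofReal_sum_of_nonneg (fun i _ => abs_nonneg _)]
    apply ENNReal.ofReal_le_ofReal
    have hFam : Fam K (Finset.range n) u (fun i => u (i + 1)) := by
      refine ⟨fun i _ => ⟨huK _, huK _, hu (Nat.le_succ i)⟩, fun i _ j _ hij => ?_⟩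
      rcases lt_or_gt_of_ne hij with h | h
      · left; exact hu h
      · right; exact hu h
    refine le_trans (Finset.sum_le_sum fun i _ => ?_) (hV ℕ _ _ _ hFam)
    have hsub : Icc (u i) (u (i + 1)) ⊆ Icc c d := Icc_subset_Icc (hK (huK _)).1 (hK (huK _)).2
    exact abs_sub_le_osc (hF.mono hsub) (right_mem_Icc.mpr (hu (Nat.le_succ i)))
      (left_mem_Icc.mpr (hu (Nat.le_succ i)))
  exact ne_top_of_le_ne_top ENNReal.ofReal_ne_top this

/-- If `F` is `AC_*` on the closed set `K` and `F' = f` almost everywhere, then `f` is integrable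
on `K`. -/
lemma integrableOn_of_ACStar {f F : ℝ → ℝ} {K : Set ℝ} {c d : ℝ} (hcd : c ≤ d)
    (hK : IsClosed K) (hKs : K ⊆ Icc c d) (hF : ContinuousOn F (Icc c d)) (h : ACStar F K)
    (hd : ∀ᵐ x ∂(volume.restrict (Icc c d)), HasDerivAt F (f x) x) : IntegrableOn f K := by
  have hBV := h.boundedVariationOn hcd hKs hF
  obtain ⟨p, q, hp, hq, hpq⟩ := hBV.locallyBoundedVariationOn.exists_monotoneOn_sub_monotoneOn
  rcases K.eq_empty_or_nonempty with rfl | hne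
  · exact integrableOn_empty
  have hKc : IsCompact K := isCompact_Icc.of_isClosed_subset hK hKs
  obtain ⟨a, ha, ha'⟩ := hKc.exists_isLeast hne
  obtain ⟨b, hb, hb'⟩ := hKc.exists_isGreatest hne
  have hbdd : ∀ g : ℝ → ℝ, MonotoneOn g K → BddBelow (g '' K) ∧ BddAbove (g '' K) := by
    intro g hg
    constructor
    · refine ⟨g a, ?_⟩
      rintro _ ⟨x, hx, rfl⟩
      exact hg ha hx (ha' hx)
    · refine ⟨g b, ?_⟩
      rintro _ ⟨x, hx, rfl⟩
      exact hg hx hb (hb' hx)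
  obtain ⟨P, hP, hPp⟩ := hp.exists_monotone_extension (hbdd p hp).1 (hbdd p hp).2
  obtain ⟨Q, hQ, hQq⟩ := hq.exists_monotone_extension (hbdd q hq).1 (hbdd q hq).2
  have hPi : IntegrableOn (deriv P) (Icc c d) :=
    (intervalIntegrable_iff_integrableOn_Icc_of_le hcd).mp
      (hP.monotoneOn _).intervalIntegrable_deriv
  have hQi : IntegrableOn (deriv Q) (Icc c d) :=
    (intervalIntegrable_iff_integrableOn_Icc_of_le hcd).mp
      (hQ.monotoneOn _).intervalIntegrable_deriv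
  have hint : IntegrableOn (fun x => deriv P x - deriv Q x) K := (hPi.sub hQi).mono_set hKs
  refine hint.congr ?_
  obtain ⟨V, D, hVc, hD, hVD⟩ := exists_countable_union_perfect_of_isClosed hK
  have hd' : ∀ᵐ x, x ∈ Icc c d → HasDerivAt F (f x) x :=
    (ae_restrict_iff' measurableSet_Icc).mp hd
  rw [EventuallyEq, ae_restrict_iff' hK.measurableSet]
  filter_upwards [hd', hP.ae_differentiableAt, hQ.ae_differentiableAt,
    hVc.ae_notMem volume] with x h1 h2 h3 h4 hx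
  have hxD : x ∈ D := by
    rw [hVD] at hx
    exact hx.resolve_left h4
  have hacc : AccPt x (𝓟 K) := (hD.acc x hxD).mono (by
    rw [principal_mono, hVD]; exact subset_union_right)
  have hud : UniqueDiffWithinAt ℝ K x := uniqueDiffWithinAt_iff_accPt.mpr hacc
  have e1 : HasDerivWithinAt F (f x) K x := (h1 (hKs hx)).hasDerivWithinAt
  have e2 : HasDerivWithinAt (fun y => P y - Q y) (deriv P x - deriv Q x) K x :=
    (h2.hasDerivAt.sub h3.hasDerivAt).hasDerivWithinAt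
  have e3 : HasDerivWithinAt F (deriv P x - deriv Q x) K x := by
    refine e2.congr (fun y hy => ?_) ?_
    · rw [hpq]; simp [hPp hy, hQq hy]
    · rw [hpq]; simp [hPp hx, hQq hx]
  exact hud.eq_deriv _ e3 e1

/-- Baire category: a nonempty closed subset has a portion on which an `ACG_*` function
is `AC_*`. -/
lemma ACGStar.exists_portion {F : ℝ → ℝ} {c d : ℝ} {K : Set ℝ} (h : ACGStar c d F)
    (hK : IsClosed K) (hne : K.Nonempty) (hKs : K ⊆ Ioo c d) :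
    ∃ p q : ℚ, c < p ∧ p < q ∧ (q : ℝ) < d ∧ (∃ x ∈ K, (p : ℝ) < x ∧ x < q) ∧
      ACStar F (K ∩ Icc (p : ℝ) q) := by
  obtain ⟨_, L, hL, hU⟩ := h
  have : Nonempty K := hne.to_subtype
  have : CompleteSpace K := hK.isComplete.completeSpace_coe
  have hcl : ∀ n, IsClosed ((fun x : K => (x : ℝ)) ⁻¹' L n) := fun n =>
    (hL n).1.preimage continuous_subtype_val
  have hun : ⋃ n, (fun x : K => (x : ℝ)) ⁻¹' L n = univ := by
    rw [← preimage_iUnion, hU]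
    exact eq_univ_of_forall fun x => Ioo_subset_Icc_self (hKs x.2)
  obtain ⟨n, ⟨x, hx⟩⟩ := nonempty_interior_of_iUnion_of_closed hcl hun
  have hopen := isOpen_interior (s := (fun x : K => (x : ℝ)) ⁻¹' L n)
  obtain ⟨O, hO, hOe⟩ := isOpen_induced_iff.mp hopen
  have hxO : (x : ℝ) ∈ O ∩ Ioo c d := by
    have : x ∈ Subtype.val ⁻¹' O := by rw [hOe]; exact hx
    exact ⟨this, hKs x.2⟩
  have hOL : ∀ y ∈ O, y ∈ K → y ∈ L n := by
    intro y hy hyK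
    have : (⟨y, hyK⟩ : K) ∈ Subtype.val ⁻¹' O := hy
    rw [hOe] at this
    have h' : (⟨y, hyK⟩ : K) ∈ (fun x : K => (x : ℝ)) ⁻¹' L n := interior_subset this
    exact h'
  obtain ⟨ε, hε, hball⟩ := Metric.isOpen_iff.mp (hO.inter isOpen_Ioo) x hxO
  obtain ⟨p, hp1, hp2⟩ := exists_rat_btwn (show (x : ℝ) - ε < x by linarith)
  obtain ⟨q, hq1, hq2⟩ := exists_rat_btwn (show (x : ℝ) < x + ε by linarith)
  have hpb : (p : ℝ) ∈ Metric.ball (x : ℝ) ε := by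
    rw [Metric.mem_ball, Real.dist_eq, abs_lt]
    constructor <;> linarith
  have hqb : (q : ℝ) ∈ Metric.ball (x : ℝ) ε := by
    rw [Metric.mem_ball, Real.dist_eq, abs_lt]
    constructor <;> linarith
  refine ⟨p, q, (hball hpb).2.1, by exact_mod_cast hp2.trans hq1, (hball hqb).2.2,
    ⟨x, x.2, hp2, hq1⟩, (hL n).2.mono ?_⟩
  rintro y ⟨hyK, hy⟩
  refine hOL y (hball ?_).1 hyK
  rw [Metric.mem_ball, Real.dist_eq, abs_lt]
  constructor <;> linarith [hy.1, hy.2]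

/-! ### Rational intervals missing a set -/

/-- The closed interval `[I.1, I.2]` misses `K`. -/
def Miss (K : Set ℝ) (I : ℚ × ℚ) : Prop := ∀ x ∈ K, ¬ ((I.1 : ℝ) ≤ x ∧ x ≤ I.2)

/-- The convex hull of two intervals. -/
def hull (I L : ℚ × ℚ) : ℚ × ℚ := (min I.1 L.1, max I.2 L.2)

/-- `I` is a nondegenerate subinterval of `J`. -/
def Sub (J I : ℚ × ℚ) : Prop := J.1 ≤ I.1 ∧ I.1 < I.2 ∧ I.2 ≤ J.2

/-- `S` is a finite set of subintervals of `J` missing `K` and pairwise separated by `K`. -/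
def Sep (K : Set ℝ) (J : ℚ × ℚ) (S : Finset (ℚ × ℚ)) : Prop :=
  (∀ I ∈ S, Sub J I ∧ Miss K I) ∧ ∀ I ∈ S, ∀ L ∈ S, I ≠ L → ¬ Miss K (hull I L)

/-- All `K`-separated sums in `J` are at most `N`. -/
def CBound (K : Set ℝ) (Φ : ℚ × ℚ → ℝ) (J : ℚ × ℚ) (N : ℕ) : Prop :=
  ∀ S : Finset (ℚ × ℚ), Sep K J S → ∑ I ∈ S, |Φ I| ≤ N

/-- `Φ` is uniformly small on short subintervals of `J` missing `K`. -/
def UC (K : Set ℝ) (Φ : ℚ × ℚ → ℝ) (J : ℚ × ℚ) : Prop :=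
  ∀ m : ℕ, ∃ l : ℕ, ∀ I : ℚ × ℚ, Sub J I → Miss K I →
    ((I.2 - I.1 : ℚ) : ℝ) < 1 / ((l : ℝ) + 1) → |Φ I| ≤ 1 / ((m : ℝ) + 1)

/-- The integral of `|f|` over `K ∩ [J.1, J.2]` is at most `N`. -/
def ABound (f : ℝ → ℝ) (K : Set ℝ) (J : ℚ × ℚ) (N : ℕ) : Prop :=
  ∫⁻ x in K ∩ Icc (J.1 : ℝ) J.2, ‖f x‖ₑ ≤ N

/-- `J` is good for `K`. -/
def Good (f : ℝ → ℝ) (K : Set ℝ) (Φ : ℚ × ℚ → ℝ) (J : ℚ × ℚ) : Prop :=
  (∃ N : ℕ, ABound f K J N ∧ CBound K Φ J N) ∧ UC K Φ J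

lemma Miss.anti {K L : Set ℝ} (h : K ⊆ L) {I : ℚ × ℚ} (hI : Miss L I) : Miss K I :=
  fun x hx => hI x (h hx)

/-- Two missed intervals with a point of `K` in their hull are separated by that point. -/
lemma sep_cases {K : Set ℝ} {I L : ℚ × ℚ} (hI : Miss K I) (hL : Miss K L)
    (h : ¬ Miss K (hull I L)) :
    ∃ x ∈ K, ((I.2 : ℝ) < x ∧ x < L.1) ∨ ((L.2 : ℝ) < x ∧ x < I.1) := by
  simp only [Miss, hull] at h
  push Not at h
  obtain ⟨x, hxK, h1, h2⟩ := h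
  have hI' := hI x hxK
  have hL' := hL x hxK
  refine ⟨x, hxK, ?_⟩
  push_cast at h1 h2
  rw [min_le_iff] at h1
  rw [le_max_iff] at h2
  rw [not_and_or, not_le, not_le] at hI' hL'
  rcases hI' with a | a <;> rcases hL' with b | b
  · rcases h1 with h1 | h1 <;> linarith
  · right; exact ⟨b, a⟩
  · left; exact ⟨a, b⟩
  · rcases h2 with h2 | h2 <;> linarith

lemma CBound_of_ACStar {F : ℝ → ℝ} {K : Set ℝ} {c d : ℝ} {J : ℚ × ℚ} (hcd : c ≤ d)
    (hK : IsClosed K) (hF : ContinuousOn F (Icc c d)) (hJ1 : c ≤ J.1) (hJ2 : (J.2 : ℝ) ≤ d)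
    (h : ACStar F (K ∩ Icc (J.1 : ℝ) J.2)) :
    ∃ N : ℕ, CBound K (fun I => F I.2 - F I.1) J N := by
  classical
  set K' := K ∩ Icc (J.1 : ℝ) J.2 with hK'
  have hK'c : IsCompact K' := isCompact_Icc.inter_left hK
  have hK's : K' ⊆ Icc c d := inter_subset_right.trans (Icc_subset_Icc hJ1 hJ2)
  obtain ⟨V, hV0, hV⟩ := h.bounded hcd hK's hF
  obtain ⟨N, hN⟩ := exists_nat_ge (V + (osc F c d + osc F c d))
  refine ⟨N, fun S hS => le_trans ?_ hN⟩
  have hsubI : ∀ I ∈ S, (I.1 : ℝ) < I.2 ∧ c ≤ (I.1 : ℝ) ∧ (I.2 : ℝ) ≤ d := fun I hI => by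
    obtain ⟨⟨h1, h2, h3⟩, _⟩ := hS.1 I hI
    have h1' : (J.1 : ℝ) ≤ I.1 := by exact_mod_cast h1
    have h3' : (I.2 : ℝ) ≤ J.2 := by exact_mod_cast h3
    exact ⟨by exact_mod_cast h2, hJ1.trans h1', h3'.trans hJ2⟩
  have hosc : ∀ I ∈ S, |F I.2 - F I.1| ≤ osc F c d := fun I hI => by
    obtain ⟨h1, h2, h3⟩ := hsubI I hI
    exact abs_sub_le_osc hF ⟨h2.trans h1.le, h3⟩ ⟨h2, h1.le.trans h3⟩
  set P : ℚ × ℚ → Prop := fun I => (K' ∩ Iic (I.1 : ℝ)).Nonempty with hP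
  set Q : ℚ × ℚ → Prop := fun I => (K' ∩ Ici (I.2 : ℝ)).Nonempty with hQ
  have hsepK' : ∀ I ∈ S, ∀ L ∈ S, I ≠ L →
      ∃ x ∈ K', ((I.2 : ℝ) < x ∧ x < L.1) ∨ ((L.2 : ℝ) < x ∧ x < I.1) := by
    intro I hI L hL hne
    obtain ⟨x, hxK, hx⟩ := sep_cases (hS.1 I hI).2 (hS.1 L hL).2 (hS.2 I hI L hL hne)
    have i1 : (J.1 : ℝ) ≤ I.1 := by exact_mod_cast (hS.1 I hI).1.1
    have i2 : (I.2 : ℝ) ≤ J.2 := by exact_mod_cast (hS.1 I hI).1.2.2
    have i3 : (I.1 : ℝ) < I.2 := by exact_mod_cast (hS.1 I hI).1.2.1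
    have l1 : (J.1 : ℝ) ≤ L.1 := by exact_mod_cast (hS.1 L hL).1.1
    have l2 : (L.2 : ℝ) ≤ J.2 := by exact_mod_cast (hS.1 L hL).1.2.2
    have l3 : (L.1 : ℝ) < L.2 := by exact_mod_cast (hS.1 L hL).1.2.1
    refine ⟨x, ⟨hxK, ?_, ?_⟩, hx⟩ <;> rcases hx with hx | hx <;> linarith [hx.1, hx.2]
  set S0 := S.filter (fun I => P I ∧ Q I) with hS0
  set SP := S.filter (fun I => ¬ P I) with hSP
  set SQ := S.filter (fun I => ¬ Q I) with hSQ
  have hcover : S ⊆ S0 ∪ (SP ∪ SQ) := by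
    intro I hI
    rw [Finset.mem_union, Finset.mem_union, hS0, hSP, hSQ, Finset.mem_filter, Finset.mem_filter,
      Finset.mem_filter]
    by_cases h1 : P I <;> by_cases h2 : Q I <;> simp [hI, h1, h2]
  have hcardP : SP.card ≤ 1 := by
    rw [Finset.card_le_one]
    intro I hI L hL
    rw [hSP, Finset.mem_filter] at hI hL
    by_contra hne
    obtain ⟨x, hx, h1 | h1⟩ := hsepK' I hI.1 L hL.1 hne
    · exact hL.2 ⟨x, hx, h1.2.le⟩
    · exact hI.2 ⟨x, hx, h1.2.le⟩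
  have hcardQ : SQ.card ≤ 1 := by
    rw [Finset.card_le_one]
    intro I hI L hL
    rw [hSQ, Finset.mem_filter] at hI hL
    by_contra hne
    obtain ⟨x, hx, h1 | h1⟩ := hsepK' I hI.1 L hL.1 hne
    · exact hI.2 ⟨x, hx, h1.1.le⟩
    · exact hL.2 ⟨x, hx, h1.1.le⟩
  have hone : ∀ T : Finset (ℚ × ℚ), T ⊆ S → T.card ≤ 1 →
      ∑ I ∈ T, |F I.2 - F I.1| ≤ osc F c d := by
    intro T hT hc
    calc ∑ I ∈ T, |F I.2 - F I.1| ≤ ∑ I ∈ T, osc F c d :=
          Finset.sum_le_sum fun I hI => hosc I (hT hI)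
      _ = (T.card : ℝ) * osc F c d := by simp
      _ ≤ 1 * osc F c d := mul_le_mul_of_nonneg_right (by exact_mod_cast hc) (osc_nonneg _ _ _)
      _ = _ := one_mul _
  have hmain : ∑ I ∈ S0, |F I.2 - F I.1| ≤ V := by
    set u : ℚ × ℚ → ℝ := fun I => sSup (K' ∩ Iic (I.1 : ℝ)) with hu
    set v : ℚ × ℚ → ℝ := fun I => sInf (K' ∩ Ici (I.2 : ℝ)) with hv
    have cu : ∀ I : ℚ × ℚ, IsCompact (K' ∩ Iic (I.1 : ℝ)) := fun I => hK'c.inter_right isClosed_Iic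
    have cv : ∀ I : ℚ × ℚ, IsCompact (K' ∩ Ici (I.2 : ℝ)) := fun I => hK'c.inter_right isClosed_Ici
    have mu : ∀ I ∈ S0, u I ∈ K' ∩ Iic (I.1 : ℝ) := fun I hI =>
      (cu I).sSup_mem (Finset.mem_filter.mp hI).2.1
    have mv : ∀ I ∈ S0, v I ∈ K' ∩ Ici (I.2 : ℝ) := fun I hI =>
      (cv I).sInf_mem (Finset.mem_filter.mp hI).2.2
    have hle : ∀ I ∈ S0, u I ≤ I.1 ∧ (I.1 : ℝ) < I.2 ∧ (I.2 : ℝ) ≤ v I := fun I hI =>
      ⟨(mu I hI).2, (hsubI I (Finset.mem_filter.mp hI).1).1, (mv I hI).2⟩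
    have hFam : Fam K' S0 u v := by
      refine ⟨fun I hI => ⟨(mu I hI).1, (mv I hI).1, ?_⟩, fun I hI L hL hne => ?_⟩
      · obtain ⟨h1, h2, h3⟩ := hle I hI; linarith
      · obtain ⟨x, hx, h1 | h1⟩ := hsepK' I (Finset.mem_filter.mp hI).1 L
          (Finset.mem_filter.mp hL).1 hne
        · left
          exact (csInf_le (cv I).bddBelow ⟨hx, h1.1.le⟩).trans
            (le_csSup (cu L).bddAbove ⟨hx, h1.2.le⟩)
        · right
          exact (csInf_le (cv L).bddBelow ⟨hx, h1.1.le⟩).trans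
            (le_csSup (cu I).bddAbove ⟨hx, h1.2.le⟩)
    refine le_trans (Finset.sum_le_sum fun I hI => ?_) (hV _ S0 u v hFam)
    obtain ⟨h1, h2, h3⟩ := hle I hI
    refine abs_sub_le_osc (hF.mono (Icc_subset_Icc (hK's (mu I hI).1).1 (hK's (mv I hI).1).2))
      ⟨by linarith, h3⟩ ⟨h1, by linarith⟩
  calc ∑ I ∈ S, |F I.2 - F I.1|
      ≤ ∑ I ∈ S0 ∪ (SP ∪ SQ), |F I.2 - F I.1| :=
        Finset.sum_le_sum_of_subset_of_nonneg hcover fun _ _ _ => abs_nonneg _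
    _ ≤ ∑ I ∈ S0, |F I.2 - F I.1| + ∑ I ∈ SP ∪ SQ, |F I.2 - F I.1| := by
        rw [← Finset.sum_union_inter]
        exact le_add_of_nonneg_right (Finset.sum_nonneg fun _ _ => abs_nonneg _)
    _ ≤ ∑ I ∈ S0, |F I.2 - F I.1| + (∑ I ∈ SP, |F I.2 - F I.1| + ∑ I ∈ SQ, |F I.2 - F I.1|) := by
        gcongr
        rw [← Finset.sum_union_inter]
        exact le_add_of_nonneg_right (Finset.sum_nonneg fun _ _ => abs_nonneg _)
    _ ≤ V + (osc F c d + osc F c d) := by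
        refine add_le_add hmain (add_le_add ?_ ?_)
        · exact hone SP (Finset.filter_subset _ _) hcardP
        · exact hone SQ (Finset.filter_subset _ _) hcardQ

lemma UC_of_continuousOn {F : ℝ → ℝ} {K : Set ℝ} {c d : ℝ} {J : ℚ × ℚ}
    (hF : ContinuousOn F (Icc c d)) (hJ1 : c ≤ J.1) (hJ2 : (J.2 : ℝ) ≤ d) :
    UC K (fun I => F I.2 - F I.1) J := by
  intro m
  have huc := isCompact_Icc.uniformContinuousOn_of_continuous hF
  rw [Metric.uniformContinuousOn_iff] at huc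
  obtain ⟨δ, hδ, H⟩ := huc (1 / ((m : ℝ) + 1)) (by positivity)
  obtain ⟨l, hl⟩ := exists_nat_one_div_lt hδ
  refine ⟨l, fun I hI _ hlen => ?_⟩
  obtain ⟨h1, h2, h3⟩ := hI
  have h1' : (J.1 : ℝ) ≤ I.1 := by exact_mod_cast h1
  have h2' : (I.1 : ℝ) < I.2 := by exact_mod_cast h2
  have h3' : (I.2 : ℝ) ≤ J.2 := by exact_mod_cast h3
  have := H I.2 ⟨by linarith, by linarith⟩ I.1 ⟨by linarith, by linarith⟩ (by
    rw [Real.dist_eq, abs_of_pos (by linarith)]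
    push_cast at hlen
    linarith)
  rw [Real.dist_eq] at this
  exact this.le

end Pool.Agent.MP_c24d14
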