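import Pool.Agent.Lib.MP_c24d14_lc.Unique

/-!
# Denjoy primitives: restriction, uniqueness, gluing, Cauchy extension
-/

open Set MeasureTheory Filter Topology

namespace Pool.Agent.MP_c24d14

/-- `F` is a Denjoy primitive of `f` on `[c, d]`. -/
def Prim (f : ℝ → ℝ) (c d : ℝ) (F : ℝ → ℝ) : Prop :=
  ACGStar c d F ∧ ∀ᵐ x ∂(volume.restrict (Icc c d)), HasDerivAt F (f x) x

/-- `f` is Denjoy integrable on `[c, d]`. -/
def DenOn (f : ℝ → ℝ) (c d : ℝ) : Prop := ∃ F, Prim f c d F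

lemma ACGStar.of_countable {F : ℝ → ℝ} {c d : ℝ} {ι : Type*} [Countable ι]
    (hF : ContinuousOn F (Icc c d)) (K : ι → Set ℝ) (hK : ∀ i, IsClosed (K i))
    (hA : ∀ i, ACStar F (K i ∩ Icc c d)) (hU : Icc c d ⊆ ⋃ i, K i) : ACGStar c d F := by
  refine ⟨hF, ?_⟩
  rcases isEmpty_or_nonempty ι with hι | hι
  · refine ⟨fun _ => ∅, fun _ => ⟨isClosed_empty, ACStar.empty F⟩, ?_⟩
    rw [iUnion_of_empty] at hU
    rw [iUnion_empty, subset_empty_iff.mp hU]
  · obtain ⟨g, hg⟩ := exists_surjective_nat ι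
    refine ⟨fun n => K (g n) ∩ Icc c d, fun n => ⟨(hK _).inter isClosed_Icc, hA _⟩, ?_⟩
    apply subset_antisymm
    · exact iUnion_subset fun n => inter_subset_right
    · intro x hx
      obtain ⟨i, hi⟩ := mem_iUnion.mp (hU hx)
      obtain ⟨n, rfl⟩ := hg i
      exact mem_iUnion.mpr ⟨n, hi, hx⟩

lemma ACGStar.restrict {F : ℝ → ℝ} {c d c' d' : ℝ} (h : ACGStar c d F) (hc : c ≤ c')
    (hd : d' ≤ d) : ACGStar c' d' F := by
  obtain ⟨hF, K, hK, hU⟩ := h
  have hsub : Icc c' d' ⊆ Icc c d := Icc_subset_Icc hc hd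
  refine ACGStar.of_countable (hF.mono hsub) K (fun i => (hK i).1)
    (fun i => (hK i).2.mono inter_subset_left) ?_
  rw [hU]; exact hsub

lemma ACGStar.congr {F G : ℝ → ℝ} {c d C : ℝ} (h : ACGStar c d F)
    (hFG : ∀ x ∈ Icc c d, F x - G x = C) : ACGStar c d G := by
  obtain ⟨hF, K, hK, hU⟩ := h
  refine ⟨?_, K, fun n => ⟨(hK n).1, (hK n).2.congr (by rw [← hU]; exact subset_iUnion _ n) hFG⟩,
    hU⟩
  have : ContinuousOn (fun x => F x - C) (Icc c d) := hF.sub continuousOn_const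
  refine this.congr fun x hx => ?_
  have := hFG x hx
  simp only; linarith

lemma ACGStar.sub {F G : ℝ → ℝ} {c d : ℝ} (hF : ACGStar c d F) (hG : ACGStar c d G) :
    ACGStar c d (fun x => F x - G x) := by
  obtain ⟨hFc, K, hK, hU⟩ := hF
  obtain ⟨hGc, L, hL, hV⟩ := hG
  have hKs : ∀ n, K n ⊆ Icc c d := fun n => by rw [← hU]; exact subset_iUnion _ n
  have hLs : ∀ n, L n ⊆ Icc c d := fun n => by rw [← hV]; exact subset_iUnion _ n
  refine ACGStar.of_countable (ι := ℕ × ℕ) (hFc.sub hGc) (fun p => K p.1 ∩ L p.2)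
    (fun p => (hK _).1.inter (hL _).1) (fun p => ?_) ?_
  · refine ACStar.mono (L := K p.1 ∩ L p.2) ?_ inter_subset_left
    exact ((hK p.1).2.mono inter_subset_left).sub ((hL p.2).2.mono inter_subset_right)
      (inter_subset_left.trans (hKs _)) hFc hGc
  · intro x hx
    have h1 := hx
    have h2 := hx
    rw [← hU] at h1
    rw [← hV] at h2
    obtain ⟨n, hn⟩ := mem_iUnion.mp h1
    obtain ⟨m, hm⟩ := mem_iUnion.mp h2
    exact mem_iUnion.mpr ⟨(n, m), hn, hm⟩

lemma ae_Ioo (c d : ℝ) : ∀ᵐ x ∂(volume.restrict (Icc c d)), x ∈ Ioo c d := by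
  rw [← restrict_Ioo_eq_restrict_Icc]
  exact ae_restrict_mem measurableSet_Ioo

lemma Prim.congr {f F G : ℝ → ℝ} {c d C : ℝ} (h : Prim f c d F)
    (hFG : ∀ x ∈ Icc c d, F x - G x = C) : Prim f c d G := by
  refine ⟨h.1.congr hFG, ?_⟩
  filter_upwards [h.2, ae_Ioo c d] with x hx hx2
  have h1 : HasDerivAt (fun y => F y - C) (f x) x := hx.sub_const C
  refine h1.congr_of_eventuallyEq ?_
  filter_upwards [isOpen_Ioo.mem_nhds hx2] with y hy
  have := hFG y (Ioo_subset_Icc_self hy)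
  linarith

lemma Prim.congr_fun {f g F : ℝ → ℝ} {c d : ℝ} (h : Prim f c d F)
    (hfg : ∀ᵐ x ∂(volume.restrict (Icc c d)), f x = g x) : Prim g c d F := by
  refine ⟨h.1, ?_⟩
  filter_upwards [h.2, hfg] with x hx hx2
  rw [← hx2]; exact hx

lemma Prim.restrict {f F : ℝ → ℝ} {c d c' d' : ℝ} (h : Prim f c d F) (hc : c ≤ c')
    (hd : d' ≤ d) : Prim f c' d' F :=
  ⟨h.1.restrict hc hd, ae_restrict_of_ae_restrict_of_subset (Icc_subset_Icc hc hd) h.2⟩

lemma Prim.continuousOn {f F : ℝ → ℝ} {c d : ℝ} (h : Prim f c d F) :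
    ContinuousOn F (Icc c d) := h.1.1

lemma Prim.unique {f F G : ℝ → ℝ} {c d : ℝ} (hF : Prim f c d F) (hG : Prim f c d G) {x y : ℝ}
    (hx : x ∈ Icc c d) (hy : y ∈ Icc c d) : F x - G x = F y - G y := by
  refine const_of_ACGStar (H := fun x => F x - G x) (hF.1.sub hG.1) ?_ hx hy
  filter_upwards [hF.2, hG.2] with x h1 h2
  have := h1.sub h2
  rwa [sub_self] at this

lemma Prim.glue {f F : ℝ → ℝ} {c e d : ℝ} (hce : c ≤ e) (hed : e ≤ d) (h1 : Prim f c e F)
    (h2 : Prim f e d F) : Prim f c d F := by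
  have hU : Icc c e ∪ Icc e d = Icc c d := Icc_union_Icc_eq_Icc hce hed
  constructor
  · obtain ⟨hF1, K, hK, hUK⟩ := h1.1
    obtain ⟨hF2, L, hL, hUL⟩ := h2.1
    have hF : ContinuousOn F (Icc c d) := by
      rw [← hU]
      exact hF1.union_of_isClosed hF2 isClosed_Icc isClosed_Icc
    refine ACGStar.of_countable (ι := ℕ ⊕ ℕ) hF (Sum.elim K L) ?_ ?_ ?_
    · rintro (n | n)
      · exact (hK n).1
      · exact (hL n).1
    · rintro (n | n)
      · exact (hK n).2.mono inter_subset_left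
      · exact (hL n).2.mono inter_subset_left
    · intro x hx
      rw [← hU] at hx
      rcases hx with hx | hx
      · rw [← hUK] at hx
        obtain ⟨n, hn⟩ := mem_iUnion.mp hx
        exact mem_iUnion.mpr ⟨Sum.inl n, hn⟩
      · rw [← hUL] at hx
        obtain ⟨n, hn⟩ := mem_iUnion.mp hx
        exact mem_iUnion.mpr ⟨Sum.inr n, hn⟩
  · rw [← hU, ae_restrict_union_iff]
    exact ⟨h1.2, h2.2⟩

lemma DenOn.glue {f : ℝ → ℝ} {c e d : ℝ} (hce : c ≤ e) (hed : e ≤ d) (h1 : DenOn f c e)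
    (h2 : DenOn f e d) : DenOn f c d := by
  obtain ⟨F, hF⟩ := h1
  obtain ⟨G, hG⟩ := h2
  refine ⟨fun x => if x ≤ e then F x else G x - G e + F e, Prim.glue hce hed ?_ ?_⟩
  · refine hF.congr (C := 0) fun x hx => ?_
    simp [hx.2]
  · refine hG.congr (C := G e - F e) fun x hx => ?_
    by_cases hxe : x ≤ e
    · have : x = e := le_antisymm hxe hx.1
      simp [this]
    · simp only [hxe, if_false]; ring

lemma DenOn.restrict {f : ℝ → ℝ} {c d c' d' : ℝ} (h : DenOn f c d) (hc : c ≤ c')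
    (hd : d' ≤ d) : DenOn f c' d' := by
  obtain ⟨F, hF⟩ := h
  exact ⟨F, hF.restrict hc hd⟩

/-- The Denjoy integral of `f` over `[c, d]` (zero if `f` is not integrable). -/
noncomputable def DI (f : ℝ → ℝ) (c d : ℝ) : ℝ :=
  open Classical in if h : DenOn f c d then h.choose d - h.choose c else 0

lemma DI_eq {f F : ℝ → ℝ} {c d : ℝ} (h : Prim f c d F) (hcd : c ≤ d) :
    DI f c d = F d - F c := by
  have hD : DenOn f c d := ⟨F, h⟩
  have h1 := hD.choose_spec
  rw [DI, dif_pos hD]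
  have := h1.unique h (left_mem_Icc.mpr hcd) (right_mem_Icc.mpr hcd)
  linarith

lemma Prim.DI_eq {f F : ℝ → ℝ} {c d : ℝ} (h : Prim f c d F) {x y : ℝ} (hc : c ≤ x)
    (hxy : x ≤ y) (hd : y ≤ d) : DI f x y = F y - F x :=
  MP_c24d14.DI_eq (h.restrict hc hd) hxy

lemma DI_add {f : ℝ → ℝ} {c e d : ℝ} (hce : c ≤ e) (hed : e ≤ d) (h : DenOn f c d) :
    DI f c e + DI f e d = DI f c d := by
  obtain ⟨F, hF⟩ := h
  rw [hF.DI_eq le_rfl hce hed, hF.DI_eq hce hed le_rfl, hF.DI_eq le_rfl (hce.trans hed) le_rfl]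
  ring

lemma ACStar_const (C : ℝ) (K : Set ℝ) : ACStar (fun _ => C) K := by
  intro ε hε
  refine ⟨1, one_pos, fun D _ _ => ?_⟩
  refine lt_of_le_of_lt (le_of_eq (Finset.sum_eq_zero fun J _ => ?_)) hε
  refine le_antisymm (osc_le le_rfl fun x _ y _ => ?_) (osc_nonneg _ _ _)
  simp

lemma Prim_zero {f : ℝ → ℝ} {c d : ℝ} (h : ∀ᵐ x ∂(volume.restrict (Icc c d)), f x = 0) :
    Prim f c d (fun _ => 0) := by
  constructor
  · exact ACGStar.of_countable (ι := Unit) continuousOn_const (fun _ => univ)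
      (fun _ => isClosed_univ) (fun _ => ACStar_const 0 _)
      (fun x _ => mem_iUnion.mpr ⟨(), mem_univ x⟩)
  · filter_upwards [h] with x hx
    rw [hx]; exact hasDerivAt_const x 0

lemma Prim_degenerate {f F : ℝ → ℝ} {c d : ℝ} (h : d ≤ c) : Prim f c d F := by
  constructor
  · refine ACGStar.of_countable (ι := Unit) ?_ (fun _ => univ)
      (fun _ => isClosed_univ) (fun _ => ?_)
      (fun x _ => mem_iUnion.mpr ⟨(), mem_univ x⟩)
    · intro x hx
      have : Icc c d ⊆ {c} := fun y hy => le_antisymm (hy.2.trans h) hy.1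
      refine ContinuousWithinAt.mono ?_ this
      have hxc : x = c := this hx
      rw [hxc]; exact continuousWithinAt_singleton
    · refine (ACStar.singleton F c).mono fun y hy => le_antisymm (hy.2.2.trans h) hy.2.1
  · filter_upwards [ae_Ioo c d] with x hx
    exact absurd (hx.1.trans hx.2) (not_lt.mpr h)

/-- **Cauchy extension**. -/
lemma Prim.cauchy {f F : ℝ → ℝ} {c d : ℝ} (hcd : c < d) (hF : ContinuousOn F (Icc c d))
    (h : ∀ p q : ℝ, c < p → p < q → q < d → Prim f p q F) : Prim f c d F := by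
  obtain ⟨p, hp1, hp2, hp3⟩ := exists_seq_strictAnti_tendsto' (show c < (c + d) / 2 by linarith)
  obtain ⟨q, hq1, hq2, hq3⟩ := exists_seq_strictMono_tendsto' (show (c + d) / 2 < d by linarith)
  have hpq : ∀ n, Prim f (p n) (q n) F := fun n =>
    h _ _ (hp2 n).1 ((hp2 n).2.trans (hq2 n).1) (hq2 n).2
  have hcov : ∀ x ∈ Ioo c d, ∃ n, x ∈ Icc (p n) (q n) := by
    intro x hx
    have h1 := hp3.eventually (gt_mem_nhds hx.1)
    have h2 := hq3.eventually (lt_mem_nhds hx.2)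
    obtain ⟨n, h3, h4⟩ := (h1.and h2).exists
    exact ⟨n, h3.le, h4.le⟩
  constructor
  · choose K hK hU using fun n => (hpq n).1.2
    refine ACGStar.of_countable (ι := Option Bool ⊕ (ℕ × ℕ)) hF
      (Sum.elim (fun o => if o = some true then {c} else {d}) fun r => K r.1 r.2) ?_ ?_ ?_
    · rintro (o | ⟨n, m⟩)
      · simp only [Sum.elim_inl]; split_ifs <;> exact isClosed_singleton
      · exact (hK n m).1
    · rintro (o | ⟨n, m⟩)
      · simp only [Sum.elim_inl]
        split_ifs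
        · exact (ACStar.singleton F c).mono inter_subset_left
        · exact (ACStar.singleton F d).mono inter_subset_left
      · exact (hK n m).2.mono inter_subset_left
    · intro x hx
      rcases eq_or_lt_of_le hx.1 with h1 | h1
      · exact mem_iUnion.mpr ⟨Sum.inl (some true), by simp [h1]⟩
      · rcases eq_or_lt_of_le hx.2 with h2 | h2
        · exact mem_iUnion.mpr ⟨Sum.inl none, by simp [h2]⟩
        · obtain ⟨n, hn⟩ := hcov x ⟨h1, h2⟩
          rw [← hU n] at hn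
          obtain ⟨m, hm⟩ := mem_iUnion.mp hn
          exact mem_iUnion.mpr ⟨Sum.inr (n, m), hm⟩
  · rw [← restrict_Ioo_eq_restrict_Icc, ae_restrict_iff' measurableSet_Ioo]
    have : ∀ n, ∀ᵐ x, x ∈ Icc (p n) (q n) → HasDerivAt F (f x) x := fun n =>
      (ae_restrict_iff' measurableSet_Icc).mp (hpq n).2
    filter_upwards [ae_all_iff.mpr this] with x hx hxm
    obtain ⟨n, hn⟩ := hcov x hxm
    exact hx n hn

/-- Uniform partition point. -/
noncomputable def pt (p q : ℝ) (n k : ℕ) : ℝ := p + k * ((q - p) / 2 ^ n)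

lemma pt_zero (p q : ℝ) (n : ℕ) : pt p q n 0 = p := by simp [pt]

lemma pt_last (p q : ℝ) (n : ℕ) : pt p q n (2 ^ n) = q := by
  simp only [pt]; push_cast; field_simp; ring

lemma pt_succ_sub (p q : ℝ) (n k : ℕ) : pt p q n (k + 1) - pt p q n k = (q - p) / 2 ^ n := by
  simp only [pt]; push_cast; ring

lemma pt_mono {p q : ℝ} (h : p ≤ q) (n : ℕ) : Monotone (pt p q n) := by
  refine monotone_nat_of_le_succ fun k => ?_
  have := pt_succ_sub p q n k
  have h2 : 0 ≤ (q - p) / 2 ^ n := div_nonneg (by linarith) (by positivity)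
  linarith

lemma pt_strictMono {p q : ℝ} (h : p < q) (n : ℕ) : StrictMono (pt p q n) := by
  refine strictMono_nat_of_lt_succ fun k => ?_
  have := pt_succ_sub p q n k
  have h2 : 0 < (q - p) / 2 ^ n := div_pos (by linarith) (by positivity)
  linarith

lemma le_pt {p q : ℝ} (h : p ≤ q) (n k : ℕ) : p ≤ pt p q n k := by
  have := pt_mono h n (Nat.zero_le k)
  rwa [pt_zero] at this

lemma pt_le {p q : ℝ} (h : p ≤ q) {n k : ℕ} (hk : k ≤ 2 ^ n) : pt p q n k ≤ q := by
  have := pt_mono h n hk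
  rwa [pt_last] at this

/-- Lebesgue number partition. -/
lemma exists_partition {p q : ℝ} (hpq : p < q) (P : ℝ → ℝ → Prop)
    (h : ∀ x ∈ Icc p q, ∃ u v, u < x ∧ x < v ∧ P u v) :
    ∃ n : ℕ, ∀ k < 2 ^ n, ∃ u v, P u v ∧ u < pt p q n k ∧ pt p q n (k + 1) < v := by
  obtain ⟨δ, hδ, H⟩ := lebesgue_number_lemma_of_metric (s := Icc p q)
    (c := fun i : {r : ℝ × ℝ // P r.1 r.2} => Ioo i.1.1 i.1.2) isCompact_Icc
    (fun i => isOpen_Ioo) (by
      intro x hx
      obtain ⟨u, v, h1, h2, h3⟩ := h x hx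
      exact mem_iUnion.mpr ⟨⟨(u, v), h3⟩, h1, h2⟩)
  obtain ⟨n, hn⟩ := exists_pow_lt_of_lt_one (show 0 < δ / (q - p) from div_pos hδ (by linarith))
    (show (1 / 2 : ℝ) < 1 by norm_num)
  have hlen : (q - p) / 2 ^ n < δ := by
    rw [lt_div_iff₀ (by linarith)] at hn
    calc (q - p) / 2 ^ n = (1 / 2) ^ n * (q - p) := by
          rw [one_div, inv_pow]; field_simp
      _ < δ := hn
  refine ⟨n, fun k hk => ?_⟩
  have hk1 : pt p q n k ∈ Icc p q := ⟨le_pt hpq.le n k, pt_le hpq.le hk.le⟩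
  obtain ⟨i, hi⟩ := H _ hk1
  have h1 := hi (Metric.mem_ball_self hδ)
  have h2 : pt p q n (k + 1) ∈ Metric.ball (pt p q n k) δ := by
    rw [Metric.mem_ball, Real.dist_eq, pt_succ_sub, abs_of_nonneg
      (div_nonneg (by linarith) (by positivity))]
    exact hlen
  have h3 := hi h2
  exact ⟨i.1.1, i.1.2, i.2, h1.1, h3.2⟩

lemma DenOn_of_partition {f : ℝ → ℝ} {p q : ℝ} (hpq : p < q) {n : ℕ}
    (h : ∀ k < 2 ^ n, DenOn f (pt p q n k) (pt p q n (k + 1))) : DenOn f p q := by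
  have key : ∀ k ≤ 2 ^ n, DenOn f p (pt p q n k) := by
    intro k
    induction k with
    | zero => intro _; rw [pt_zero]; exact ⟨fun _ => 0, Prim_degenerate le_rfl⟩
    | succ k ih =>
      intro hk
      exact (ih (by omega)).glue (le_pt hpq.le n k) (pt_mono hpq.le n (Nat.le_succ k))
        (h k (by omega))
  have := key (2 ^ n) le_rfl
  rwa [pt_last] at this

end Pool.Agent.MP_c24d14
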