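import Mathlib

/-!
# The Polish space of measurable functions with convergence in measure
-/

open Set MeasureTheory Filter Topology
open scoped ENNReal

namespace Pool.Agent.MP_c24d14

variable {α : Type*} [MeasurableSpace α] {μ : Measure α}

/-- The distance of convergence in measure. -/
noncomputable def mdist (f g : α →ₘ[μ] ℝ) : ℝ≥0∞ := ∫⁻ x, min (edist (f x) (g x)) 1 ∂μ

lemma measurable_mdist (f g : α →ₘ[μ] ℝ) :
    Measurable fun x => min (edist (f x) (g x)) 1 :=
  (f.measurable.edist g.measurable).min measurable_const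

lemma min_add_one_le (a b : ℝ≥0∞) : min (a + b) 1 ≤ min a 1 + min b 1 := by
  rcases le_total a 1 with ha | ha
  · rcases le_total b 1 with hb | hb
    · rw [min_eq_left ha, min_eq_left hb]; exact min_le_left _ _
    · rw [min_eq_right hb]
      exact (min_le_right _ _).trans le_add_self
  · rw [min_eq_right ha]
    exact (min_le_right _ _).trans le_self_add

/-- The metric space structure of convergence in measure. -/
@[reducible] noncomputable def emet (μ : Measure α) : EMetricSpace (α →ₘ[μ] ℝ) where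
  edist := mdist
  edist_self f := by simp [mdist]
  edist_comm f g := by simp only [mdist, edist_comm]
  edist_triangle f g h := by
    unfold mdist
    rw [← lintegral_add_left (measurable_mdist f g)]
    exact lintegral_mono fun x => (min_le_min_right _ (edist_triangle _ _ _)).trans
      (min_add_one_le _ _)
  eq_of_edist_eq_zero := by
    intro f g h
    have h' : ∫⁻ x, min (edist (f x) (g x)) 1 ∂μ = 0 := h
    rw [lintegral_eq_zero_iff (measurable_mdist f g)] at h'
    refine AEEqFun.ext ?_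
    filter_upwards [h'] with x hx
    simp only [Pi.zero_apply] at hx
    rcases min_eq_bot.mp hx with h1 | h1
    · exact edist_eq_zero.mp h1
    · exact absurd h1 one_ne_zero

lemma tendsto_zero_of_min {u : ℕ → ℝ≥0∞} (h : Tendsto (fun n => min (u n) 1) atTop (𝓝 0)) :
    Tendsto u atTop (𝓝 0) := by
  refine h.congr' ?_
  filter_upwards [h.eventually (gt_mem_nhds (show (0 : ℝ≥0∞) < 1 from one_pos))] with n hn
  rcases min_lt_iff.mp hn with h1 | h1
  · exact min_eq_left h1.le
  · exact absurd h1 (lt_irrefl _)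

lemma tendsto_of_edist {u : ℕ → ℝ} {x : ℝ} (h : Tendsto (fun n => edist (u n) x) atTop (𝓝 0)) :
    Tendsto u atTop (𝓝 x) := tendsto_iff_edist_tendsto_0.mpr h

lemma ae_tendsto_of_mdist_le {f : ℕ → α →ₘ[μ] ℝ} {g : α →ₘ[μ] ℝ}
    (h : ∀ n, mdist (f n) g ≤ 2⁻¹ ^ n) : ∀ᵐ x ∂μ, Tendsto (fun n => f n x) atTop (𝓝 (g x)) := by
  have h1 : ∫⁻ x, ∑' n, min (edist (f n x) (g x)) 1 ∂μ ≠ ∞ := by
    rw [lintegral_tsum fun n => (measurable_mdist (f n) g).aemeasurable]
    refine ne_top_of_le_ne_top ?_ (ENNReal.tsum_le_tsum h)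
    rw [ENNReal.tsum_geometric]
    simp
  have h2 : ∀ᵐ x ∂μ, ∑' n, min (edist (f n x) (g x)) 1 < ∞ :=
    ae_lt_top (Measurable.tsum fun n => measurable_mdist (f n) g) h1
  filter_upwards [h2] with x hx
  exact tendsto_of_edist (tendsto_zero_of_min (ENNReal.tendsto_atTop_zero_of_tsum_ne_top hx.ne))

lemma tendsto_mdist_of_ae [IsFiniteMeasure μ] {f : ℕ → α →ₘ[μ] ℝ} {g : α →ₘ[μ] ℝ}
    (h : ∀ᵐ x ∂μ, Tendsto (fun n => f n x) atTop (𝓝 (g x))) :
    Tendsto (fun n => mdist (f n) g) atTop (𝓝 0) := by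
  have h0 : (0 : ℝ≥0∞) = ∫⁻ _, 0 ∂μ := by simp
  rw [h0]
  refine tendsto_lintegral_of_dominated_convergence (fun _ => 1)
    (fun n => measurable_mdist (f n) g) (fun n => Eventually.of_forall fun x => min_le_right _ _)
    (by simp) ?_
  filter_upwards [h] with x hx
  have h1 := tendsto_iff_edist_tendsto_0.mp hx
  have h2 : Tendsto (fun n => min (edist (f n x) (g x)) 1) atTop (𝓝 (min 0 1)) :=
    h1.min tendsto_const_nhds
  rwa [min_eq_left zero_le_one] at h2

lemma ae_exists_tendsto {f : ℕ → α →ₘ[μ] ℝ} (h : ∀ n, mdist (f n) (f (n + 1)) ≤ 2⁻¹ ^ n) :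
    ∀ᵐ x ∂μ, ∃ l, Tendsto (fun n => f n x) atTop (𝓝 l) := by
  have h1 : ∫⁻ x, ∑' n, min (edist (f n x) (f (n + 1) x)) 1 ∂μ ≠ ∞ := by
    rw [lintegral_tsum fun n => (measurable_mdist (f n) (f (n + 1))).aemeasurable]
    refine ne_top_of_le_ne_top ?_ (ENNReal.tsum_le_tsum h)
    rw [ENNReal.tsum_geometric]
    simp
  have h2 : ∀ᵐ x ∂μ, ∑' n, min (edist (f n x) (f (n + 1) x)) 1 < ∞ :=
    ae_lt_top (Measurable.tsum fun n => measurable_mdist (f n) (f (n + 1))) h1
  filter_upwards [h2] with x hx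
  have h3 := ENNReal.tendsto_atTop_zero_of_tsum_ne_top hx.ne
  obtain ⟨N, hN⟩ := eventually_atTop.mp
    (h3.eventually (gt_mem_nhds (show (0 : ℝ≥0∞) < 1 from one_pos)))
  have h4 : ∀ n, edist (f n x) (f (n + 1) x) ≤
      (1 + ∑ m ∈ Finset.range N, edist (f m x) (f (m + 1) x)) *
        min (edist (f n x) (f (n + 1) x)) 1 := by
    intro n
    rcases le_or_gt (edist (f n x) (f (n + 1) x)) 1 with hle | hgt
    · rw [min_eq_left hle]
      calc edist (f n x) (f (n + 1) x) = 1 * edist (f n x) (f (n + 1) x) := (one_mul _).symm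
        _ ≤ _ := by gcongr; exact le_self_add
    · rw [min_eq_right hgt.le, mul_one]
      have hn : n < N := by
        by_contra hcon
        have := hN n (not_lt.mp hcon)
        rw [min_eq_right hgt.le] at this
        exact absurd this (lt_irrefl _)
      refine le_trans ?_ le_add_self
      exact Finset.single_le_sum (f := fun m => edist (f m x) (f (m + 1) x))
        (fun _ _ => zero_le) (Finset.mem_range.mpr hn)
  have h5 : ∑' n, edist (f n x) (f (n + 1) x) ≠ ∞ := by
    refine ne_top_of_le_ne_top ?_ (ENNReal.tsum_le_tsum h4)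
    rw [ENNReal.tsum_mul_left]
    refine ENNReal.mul_ne_top ?_ hx.ne
    refine ENNReal.add_ne_top.mpr ⟨ENNReal.one_ne_top, ?_⟩
    exact (ENNReal.sum_lt_top.mpr fun m _ => edist_lt_top _ _).ne
  exact cauchySeq_tendsto_of_complete
    (cauchySeq_of_edist_le_of_tsum_ne_top _ (fun n => le_rfl) h5)

lemma completeSpace_emet (μ : Measure α) [IsFiniteMeasure μ] :
    @CompleteSpace _ (emet μ).toUniformSpace := by
  let _ := emet μ
  refine EMetric.complete_of_convergent_controlled_sequences (fun n => 2⁻¹ ^ n)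
    (fun n => ENNReal.pow_pos (by simp) n) fun u hu => ?_
  have h1 : ∀ n, mdist (u n) (u (n + 1)) ≤ 2⁻¹ ^ n := fun n => (hu n n (n + 1) le_rfl (by omega)).le
  obtain ⟨g, hg, hgt⟩ := exists_stronglyMeasurable_limit_of_tendsto_ae
    (fun n => (u n).aestronglyMeasurable) (ae_exists_tendsto h1)
  refine ⟨AEEqFun.mk g hg.aestronglyMeasurable, ?_⟩
  rw [tendsto_iff_edist_tendsto_0]
  refine tendsto_mdist_of_ae ?_
  filter_upwards [hgt, AEEqFun.coeFn_mk g hg.aestronglyMeasurable] with x h2 h3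
  rw [h3]; exact h2

lemma tendsto_emet_iff [IsFiniteMeasure μ] (u : ℕ → α →ₘ[μ] ℝ) (f : α →ₘ[μ] ℝ) :
    Tendsto (fun n => mdist (u n) f) atTop (𝓝 0) ↔
      TendstoInMeasure μ (fun n => ⇑(u n)) atTop f := by
  constructor
  · intro h ε hε
    have hε' : min ε 1 ≠ 0 := (lt_min hε one_pos).ne'
    have hle : ∀ n, μ {x | ε ≤ edist (u n x) (f x)} ≤ mdist (u n) f / min ε 1 := by
      intro n
      refine le_trans (measure_mono ?_) (meas_ge_le_lintegral_div
        (measurable_mdist (u n) f).aemeasurable hε' ((min_le_right _ _).trans_lt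
          ENNReal.one_lt_top).ne)
      intro x hx
      have hx' : ε ≤ edist (u n x) (f x) := hx
      exact min_le_min_right 1 hx'
    refine tendsto_of_tendsto_of_tendsto_of_le_of_le tendsto_const_nhds ?_
      (fun n => zero_le) hle
    have := ENNReal.Tendsto.div_const h (b := min ε 1) (Or.inr hε')
    rwa [ENNReal.zero_div] at this
  · intro h
    refine tendsto_of_subseq_tendsto fun ns hns => ?_
    have h1 : TendstoInMeasure μ (fun n => ⇑(u (ns n))) atTop f := fun ε hε =>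
      (h ε hε).comp hns
    obtain ⟨ms, _, hms⟩ := h1.exists_seq_tendsto_ae
    exact ⟨ms, tendsto_mdist_of_ae (f := fun n => u (ns (ms n))) hms⟩

/-- Truncation. -/
noncomputable def trunc (f : α →ₘ[μ] ℝ) (n : ℕ) : α → ℝ := fun x => max (min (f x) n) (-n)

lemma measurable_trunc (f : α →ₘ[μ] ℝ) (n : ℕ) : Measurable (trunc f n) :=
  (f.measurable.min measurable_const).max measurable_const

lemma memLp_trunc [IsFiniteMeasure μ] (f : α →ₘ[μ] ℝ) (n : ℕ) : MemLp (trunc f n) 1 μ := by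
  refine MemLp.of_bound (measurable_trunc f n).aestronglyMeasurable n
    (Eventually.of_forall fun x => ?_)
  have hn : (0 : ℝ) ≤ n := Nat.cast_nonneg n
  rw [Real.norm_eq_abs, abs_le, trunc]
  exact ⟨le_max_right _ _, max_le (min_le_right _ _) (by linarith)⟩

lemma tendsto_trunc (f : α →ₘ[μ] ℝ) (x : α) :
    Tendsto (fun n => trunc f n x) atTop (𝓝 (f x)) := by
  obtain ⟨N, hN⟩ := exists_nat_ge |f x|
  refine tendsto_const_nhds.congr' ?_
  filter_upwards [eventually_ge_atTop N] with n hn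
  have h1 : |f x| ≤ n := hN.trans (by exact_mod_cast hn)
  rw [abs_le] at h1
  rw [trunc, min_eq_left h1.2, max_eq_left h1.1]

lemma mdist_triangle (f g h : α →ₘ[μ] ℝ) : mdist f h ≤ mdist f g + mdist g h :=
  (emet μ).edist_triangle f g h

lemma mdist_comm (f g : α →ₘ[μ] ℝ) : mdist f g = mdist g f := (emet μ).edist_comm f g

lemma mdist_le_edist (f g : Lp ℝ 1 μ) : mdist (f : α →ₘ[μ] ℝ) g ≤ edist f g := by
  rw [Lp.edist_def, eLpNorm_one_eq_lintegral_enorm]
  refine lintegral_mono fun x => (min_le_left _ _).trans ?_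
  rw [edist_eq_enorm_sub]
  rfl

lemma exists_countable_dense_mdist (μ : Measure α) [IsFiniteMeasure μ] [IsSeparable μ] :
    ∃ S : Set (α →ₘ[μ] ℝ), S.Countable ∧ ∀ f, ∀ ε : ℝ≥0∞, 0 < ε → ∃ g ∈ S, mdist f g < ε := by
  have hfact : Fact ((1 : ℝ≥0∞) ≠ ∞) := ⟨ENNReal.one_ne_top⟩
  obtain ⟨T, hT, hTd⟩ := TopologicalSpace.exists_countable_dense (Lp ℝ 1 μ)
  refine ⟨(fun f : Lp ℝ 1 μ => (f : α →ₘ[μ] ℝ)) '' T, hT.image _, fun f ε hε => ?_⟩
  have h1 : Tendsto (fun n => mdist ((memLp_trunc f n).toLp : α →ₘ[μ] ℝ) f) atTop (𝓝 0) := by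
    refine tendsto_mdist_of_ae ?_
    have h1 : ∀ᵐ x ∂μ, ∀ n, ((memLp_trunc f n).toLp : α →ₘ[μ] ℝ) x = trunc f n x :=
      ae_all_iff.mpr fun n => MemLp.coeFn_toLp _
    filter_upwards [h1] with x hx
    simp_rw [hx]
    exact tendsto_trunc f x
  have hε2 : 0 < ε / 2 := ENNReal.half_pos hε.ne'
  obtain ⟨n, hn⟩ := (h1.eventually (gt_mem_nhds hε2)).exists
  obtain ⟨g, hgT, hg⟩ := EMetric.mem_closure_iff.mp (hTd (memLp_trunc f n).toLp) (ε / 2) hε2
  refine ⟨g, ⟨g, hgT, rfl⟩, ?_⟩
  calc mdist f g ≤ mdist f ((memLp_trunc f n).toLp : α →ₘ[μ] ℝ) +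
        mdist ((memLp_trunc f n).toLp : α →ₘ[μ] ℝ) g := mdist_triangle _ _ _
    _ < ε / 2 + ε / 2 := by
        refine ENNReal.add_lt_add ?_ ((mdist_le_edist _ _).trans_lt hg)
        rw [mdist_comm]; exact hn
    _ = ε := ENNReal.add_halves ε

lemma separableSpace_emet (μ : Measure α) [IsFiniteMeasure μ] [IsSeparable μ] :
    @TopologicalSpace.SeparableSpace _ (emet μ).toUniformSpace.toTopologicalSpace := by
  obtain ⟨S, hS, hSd⟩ := exists_countable_dense_mdist μ
  let _ := emet μ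
  exact ⟨⟨S, hS, fun f => EMetric.mem_closure_iff.mpr (hSd f)⟩⟩

lemma polishSpace_emet (μ : Measure α) [IsFiniteMeasure μ] [IsSeparable μ] :
    @PolishSpace _ (emet μ).toUniformSpace.toTopologicalSpace := by
  let _ := emet μ
  have h1 : CompleteSpace (α →ₘ[μ] ℝ) := completeSpace_emet μ
  have h2 : TopologicalSpace.SeparableSpace (α →ₘ[μ] ℝ) := separableSpace_emet μ
  infer_instance

/-- A topology making the space sequential is determined by its convergent sequences. -/
lemma topology_unique {X : Type*} {τ₁ τ₂ : TopologicalSpace X} (h₁ : @SequentialSpace X τ₁)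
    (h₂ : @SequentialSpace X τ₂)
    (h : ∀ (u : ℕ → X) (x : X), Tendsto u atTop (@nhds X τ₁ x) ↔ Tendsto u atTop (@nhds X τ₂ x)) :
    τ₁ = τ₂ := by
  refine TopologicalSpace.ext_isClosed fun s => ?_
  rw [← @isSeqClosed_iff_isClosed X τ₁ h₁, ← @isSeqClosed_iff_isClosed X τ₂ h₂]
  constructor
  · intro hs u x hu hx
    exact hs hu ((h u x).mpr hx)
  · intro hs u x hu hx
    exact hs hu ((h u x).mp hx)

end Pool.Agent.MP_c24d14
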