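import Pool.Agent.Lib.MP_c24d14_lc.Basic

/-!
# Gaps of closed sets, Lusin's condition (N), and uniqueness of Denjoy primitives
-/

open Set MeasureTheory Filter Topology

namespace Pool.Agent.MP_c24d14

/-- The gaps of `C`: the pairs `(u, v)` of consecutive points of `C`. -/
def gaps (C : Set ℝ) : Set (ℝ × ℝ) :=
  {p | p.1 < p.2 ∧ p.1 ∈ C ∧ p.2 ∈ C ∧ ∀ x ∈ Ioo p.1 p.2, x ∉ C}

lemma gaps_nonoverlap {C : Set ℝ} {p q : ℝ × ℝ} (hp : p ∈ gaps C) (hq : q ∈ gaps C)
    (hne : p ≠ q) : p.2 ≤ q.1 ∨ q.2 ≤ p.1 := by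
  by_contra hcon
  push Not at hcon
  obtain ⟨h1, h2⟩ := hcon
  obtain ⟨p1, p2, p3, p4⟩ := hp
  obtain ⟨q1, q2, q3, q4⟩ := hq
  have a1 : p.1 ≤ q.1 := by
    by_contra h
    exact q4 p.1 ⟨not_le.mp h, h2⟩ p2
  have a2 : q.1 ≤ p.1 := by
    by_contra h
    exact p4 q.1 ⟨not_le.mp h, h1⟩ q2
  have a3 : p.2 ≤ q.2 := by
    by_contra h
    exact p4 q.2 ⟨h2, not_le.mp h⟩ q3
  have a4 : q.2 ≤ p.2 := by
    by_contra h
    exact q4 p.2 ⟨h1, not_le.mp h⟩ p3
  exact hne (Prod.ext (le_antisymm a1 a2) (le_antisymm a3 a4))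

lemma gaps_pairwiseDisjoint (C : Set ℝ) :
    (gaps C).PairwiseDisjoint fun p => Ioo p.1 p.2 := by
  intro p hp q hq hne
  rw [Function.onFun, Set.disjoint_left]
  rintro x ⟨h1, h2⟩ ⟨h3, h4⟩
  rcases gaps_nonoverlap hp hq hne with h | h <;> linarith

lemma gaps_countable (C : Set ℝ) : (gaps C).Countable :=
  (gaps_pairwiseDisjoint C).countable_of_isOpen (fun _ _ => isOpen_Ioo)
    fun _ hp => nonempty_Ioo.mpr hp.1

lemma exists_gap {C : Set ℝ} (hC : IsClosed C) {c d x : ℝ} (hc : c ∈ C) (hd : d ∈ C)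
    (h1 : c ≤ x) (h2 : x ≤ d) (hx : x ∉ C) :
    ∃ p ∈ gaps C, p.1 < x ∧ x < p.2 ∧ c ≤ p.1 ∧ p.2 ≤ d := by
  have k1 : IsCompact (C ∩ Icc c x) := isCompact_Icc.inter_left hC
  have k2 : IsCompact (C ∩ Icc x d) := isCompact_Icc.inter_left hC
  have m1 := k1.sSup_mem ⟨c, hc, le_rfl, h1⟩
  have m2 := k2.sInf_mem ⟨d, hd, h2, le_rfl⟩
  set u := sSup (C ∩ Icc c x)
  set v := sInf (C ∩ Icc x d)
  have hux : u < x := lt_of_le_of_ne m1.2.2 (fun e => hx (e ▸ m1.1))
  have hxv : x < v := lt_of_le_of_ne m2.2.1 (fun e => hx (e ▸ m2.1))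
  refine ⟨(u, v), ⟨hux.trans hxv, m1.1, m2.1, ?_⟩, hux, hxv, m1.2.1, m2.2.2⟩
  intro y hy hyC
  simp only [mem_Ioo] at hy
  rcases le_total y x with hyx | hyx
  · have := le_csSup k1.bddAbove (⟨hyC, m1.2.1.trans hy.1.le, hyx⟩ : y ∈ C ∩ Icc c x)
    exact absurd hy.1 (not_lt.mpr this)
  · have := csInf_le k2.bddBelow (⟨hyC, hyx, hy.2.le.trans m2.2.2⟩ : y ∈ C ∩ Icc x d)
    exact absurd hy.2 (not_lt.mpr this)

lemma volume_image_Icc_le {H : ℝ → ℝ} {u v : ℝ} (hH : ContinuousOn H (Icc u v)) :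
    volume (H '' Icc u v) ≤ ENNReal.ofReal (2 * osc H u v) := by
  by_cases huv : u ≤ v
  · have hsub : H '' Icc u v ⊆ Icc (H u - osc H u v) (H u + osc H u v) := by
      rintro _ ⟨x, hx, rfl⟩
      have := abs_sub_le_osc hH hx (left_mem_Icc.mpr huv)
      rw [abs_le] at this
      constructor <;> linarith [this.1, this.2]
    refine (measure_mono hsub).trans ?_
    rw [Real.volume_Icc]
    apply ENNReal.ofReal_le_ofReal
    linarith
  · rw [Icc_eq_empty huv]; simp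

/-- Lusin's condition (N) on a set on which `H` is `AC_*`. -/
lemma lusin {H : ℝ → ℝ} {K N : Set ℝ} {c d : ℝ} (hH : ContinuousOn H (Icc c d))
    (hK : IsClosed K) (hKcd : K ⊆ Icc c d) (h : ACStar H K) (hN : N ⊆ K)
    (hN0 : volume N = 0) : volume (H '' N) = 0 := by
  classical
  apply le_antisymm _ (zero_le)
  apply ENNReal.le_of_forall_pos_le_add
  intro η hη _
  rw [zero_add]
  set ε : ℝ := η / 2 with hεdef
  have hε : 0 < ε := by
    have : (0 : ℝ) < η := by exact_mod_cast hη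
    positivity
  obtain ⟨δ, hδ, Hδ⟩ := h.indexed hε
  obtain ⟨O, hNO, hO, hOδ⟩ := N.exists_isOpen_lt_of_lt (μ := volume) (ENNReal.ofReal δ)
    (by rw [hN0]; exact ENNReal.ofReal_pos.mpr hδ)
  set C : Set ℝ := (Oᶜ ∩ Icc (c - 1) (d + 1)) ∪ {c - 1, d + 1} with hC
  have hCclosed : IsClosed C :=
    ((hO.isClosed_compl).inter isClosed_Icc).union (Set.Finite.isClosed (by simp))
  have hcC : c - 1 ∈ C := Or.inr (by simp)
  have hdC : d + 1 ∈ C := Or.inr (by simp)
  set G' : Set (ℝ × ℝ) := {p | p ∈ gaps C ∧ (K ∩ Icc p.1 p.2).Nonempty ∧ c - 1 ≤ p.1 ∧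
    p.2 ≤ d + 1} with hG'
  have hG'c : G'.Countable := (gaps_countable C).mono fun p hp => hp.1
  set u : ℝ × ℝ → ℝ := fun p => sInf (K ∩ Icc p.1 p.2) with hu
  set v : ℝ × ℝ → ℝ := fun p => sSup (K ∩ Icc p.1 p.2) with hv
  have hcomp : ∀ p : ℝ × ℝ, IsCompact (K ∩ Icc p.1 p.2) := fun p => isCompact_Icc.inter_left hK
  have humem : ∀ p ∈ G', u p ∈ K ∩ Icc p.1 p.2 := fun p hp => (hcomp p).sInf_mem hp.2.1
  have hvmem : ∀ p ∈ G', v p ∈ K ∩ Icc p.1 p.2 := fun p hp => (hcomp p).sSup_mem hp.2.1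
  have huv : ∀ p ∈ G', ∀ x ∈ K ∩ Icc p.1 p.2, x ∈ Icc (u p) (v p) := fun p hp x hx =>
    ⟨csInf_le (hcomp p).bddBelow hx, le_csSup (hcomp p).bddAbove hx⟩
  have hcover : H '' N ⊆ ⋃ p ∈ G', H '' Icc (u p) (v p) := by
    rintro _ ⟨x, hx, rfl⟩
    have hxK := hN hx
    have hxcd := hKcd hxK
    have hxC : x ∉ C := by
      rintro (h1 | h1)
      · exact h1.1 (hNO hx)
      · rcases h1 with h1 | h1
        · rw [h1] at hxcd; linarith [hxcd.1]
        · rw [mem_singleton_iff] at h1; rw [h1] at hxcd; linarith [hxcd.2]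
    obtain ⟨p, hp, h1, h2, h3, h4⟩ := exists_gap hCclosed hcC hdC (x := x)
      (by linarith [hxcd.1]) (by linarith [hxcd.2]) hxC
    have hpG : p ∈ G' := ⟨hp, ⟨x, hxK, h1.le, h2.le⟩, h3, h4⟩
    exact mem_biUnion hpG ⟨x, huv p hpG x ⟨hxK, h1.le, h2.le⟩, rfl⟩
  have hfin : ∀ T : Finset (ℝ × ℝ), (∀ p ∈ T, p ∈ G') →
      ∑ p ∈ T, osc H (u p) (v p) < ε := by
    intro T hT
    have hFamC : Fam C T Prod.fst Prod.snd :=
      ⟨fun p hp => ⟨(hT p hp).1.2.1, (hT p hp).1.2.2.1, (hT p hp).1.1.le⟩,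
        fun p hp q hq hne => gaps_nonoverlap (hT p hp).1 (hT q hq).1 hne⟩
    have hFam : Fam K T u v := by
      refine ⟨fun p hp => ⟨(humem p (hT p hp)).1, (hvmem p (hT p hp)).1,
        (huv p (hT p hp) _ (hvmem p (hT p hp))).1⟩, fun p hp q hq hne => ?_⟩
      rcases gaps_nonoverlap (hT p hp).1 (hT q hq).1 hne with h1 | h1
      · left; exact ((hvmem p (hT p hp)).2.2.trans h1).trans (humem q (hT q hq)).2.1
      · right; exact ((hvmem q (hT q hq)).2.2.trans h1).trans (humem p (hT p hp)).2.1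
    apply Hδ _ T u v hFam
    have h1 : volume (⋃ p ∈ T, Ioo p.1 p.2) = ∑ p ∈ T, volume (Ioo p.1 p.2) :=
      measure_biUnion_finset hFamC.disjoint_Ioo fun i _ => measurableSet_Ioo
    have h2 : volume (⋃ p ∈ T, Ioo p.1 p.2) ≤ volume O := by
      refine measure_mono (iUnion₂_subset fun p hp x hx => ?_)
      by_contra hxO
      exact (hT p hp).1.2.2.2 x hx (Or.inl ⟨hxO, (hT p hp).2.2.1.trans hx.1.le,
        hx.2.le.trans (hT p hp).2.2.2⟩)
    rw [h1] at h2
    simp only [Real.volume_Ioo] at h2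
    rw [← ENNReal.ofReal_sum_of_nonneg
      (fun p hp => sub_nonneg.mpr (hT p hp).1.1.le)] at h2
    have h3 := h2.trans_lt hOδ
    have h4 : ∑ p ∈ T, (p.2 - p.1) < δ := (ENNReal.ofReal_lt_ofReal_iff hδ).mp h3
    refine lt_of_le_of_lt (Finset.sum_le_sum fun p hp => ?_) h4
    have k1 := (humem p (hT p hp)).2.1
    have k2 := (hvmem p (hT p hp)).2.2
    linarith
  have : Countable G' := hG'c.to_subtype
  calc volume (H '' N) ≤ volume (⋃ p ∈ G', H '' Icc (u p) (v p)) := measure_mono hcover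
    _ = volume (⋃ p : G', H '' Icc (u p) (v p)) := by rw [biUnion_eq_iUnion]
    _ ≤ ∑' p : G', volume (H '' Icc (u p) (v p)) := measure_iUnion_le _
    _ ≤ ∑' p : G', ENNReal.ofReal (2 * osc H (u p) (v p)) := by
        refine ENNReal.tsum_le_tsum fun p => volume_image_Icc_le (hH.mono ?_)
        exact Icc_subset_Icc (hKcd (humem p p.2).1).1 (hKcd (hvmem p p.2).1).2
    _ ≤ η := by
        rw [ENNReal.tsum_eq_iSup_sum]
        refine iSup_le fun T => ?_
        have h1 := hfin (T.map (Function.Embedding.subtype _)) (by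
          intro p hp
          obtain ⟨q, _, rfl⟩ := Finset.mem_map.mp hp
          exact q.2)
        rw [Finset.sum_map] at h1
        rw [← ENNReal.ofReal_sum_of_nonneg
          (fun p hp => mul_nonneg zero_le_two (osc_nonneg _ _ _)), ← Finset.mul_sum]
        calc ENNReal.ofReal (2 * ∑ p ∈ T, osc H (u p) (v p))
            ≤ ENNReal.ofReal (η : ℝ) := by
              apply ENNReal.ofReal_le_ofReal
              simp only [Function.Embedding.subtype_apply] at h1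
              rw [hεdef] at h1
              linarith
          _ = η := ENNReal.ofReal_coe_nnreal

/-- **Uniqueness**: an `ACG_*` function with derivative zero almost everywhere is constant. -/
theorem const_of_ACGStar {c d : ℝ} {H : ℝ → ℝ} (h : ACGStar c d H)
    (hd : ∀ᵐ x ∂(volume.restrict (Icc c d)), HasDerivAt H 0 x) {x y : ℝ}
    (hx : x ∈ Icc c d) (hy : y ∈ Icc c d) : H x = H y := by
  obtain ⟨hc, K, hK, hU⟩ := h
  have hKsub : ∀ n, K n ⊆ Icc c d := fun n => by rw [← hU]; exact subset_iUnion _ n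
  set Z := {x | x ∈ Icc c d ∧ HasDerivAt H 0 x} with hZ
  have hZ0 : volume (H '' Z) = 0 := by
    refine addHaar_image_eq_zero_of_det_fderivWithin_eq_zero volume
      (f' := fun _ => (0 : ℝ →L[ℝ] ℝ)) ?_ ?_
    · intro x hx
      have := hx.2.hasFDerivAt.hasFDerivWithinAt (s := Z)
      refine this.congr_fderiv ?_
      ext; simp
    · intro x hx
      simp
  have hN0 : volume (Icc c d \ Z) = 0 := by
    rw [ae_restrict_iff' measurableSet_Icc, ae_iff] at hd
    refine measure_mono_null ?_ hd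
    intro x hx
    simp only [mem_ofPred_eq, Classical.not_imp]
    exact ⟨hx.1, fun h => hx.2 ⟨hx.1, h⟩⟩
  have himg : volume (H '' Icc c d) = 0 := by
    have hsub : H '' Icc c d ⊆ H '' Z ∪ ⋃ n, H '' (K n \ Z) := by
      rintro _ ⟨x, hx, rfl⟩
      by_cases hxZ : x ∈ Z
      · exact Or.inl ⟨x, hxZ, rfl⟩
      · right
        rw [← hU] at hx
        obtain ⟨n, hn⟩ := mem_iUnion.mp hx
        exact mem_iUnion.mpr ⟨n, x, ⟨hn, hxZ⟩, rfl⟩
    refine measure_mono_null hsub (measure_union_null hZ0 (measure_iUnion_null fun n => ?_))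
    refine lusin hc (hK n).1 (hKsub n) (hK n).2 sdiff_subset ?_
    exact measure_mono_null (sdiff_subset_sdiff_left (hKsub n)) hN0
  by_contra hne
  have hsub2 : uIcc x y ⊆ Icc c d := uIcc_subset_Icc hx hy
  have h1 : uIcc (H x) (H y) ⊆ H '' Icc c d :=
    (intermediate_value_uIcc (hc.mono hsub2)).trans (image_mono hsub2)
  have h2 : volume (uIcc (H x) (H y)) = 0 := measure_mono_null h1 himg
  rw [Real.volume_interval] at h2
  simp only [ENNReal.ofReal_eq_zero] at h2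
  exact hne (sub_eq_zero.mp (abs_eq_zero.mp (le_antisymm h2 (abs_nonneg _)))).symm

end Pool.Agent.MP_c24d14
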